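import Pool.Agent.H37.HK.ArDefs

/-!
An ideal `b` in the inverse ray class.
-/

open NumberField nonZeroDivisors

namespace H37.HK

variable {F : Type*} [Field F] [NumberField F]

theorem exists_inverse (m : Ideal (𝓞 F)) (hm : m ≠ ⊥) (a₁ : Ideal (𝓞 F)) (ha : a₁ ≠ ⊥)
    (hc : IsCoprime a₁ m) :
    ∃ b : Ideal (𝓞 F), b ≠ ⊥ ∧ IsCoprime b m ∧ ∃ γ : 𝓞 F, γ ≠ 0 ∧ γ - 1 ∈ m ∧
      (∀ σ : F →+* ℝ, 0 < σ (γ : F)) ∧ a₁ * b = Ideal.span {γ} := by
  have hfinq : Finite (𝓞 F ⧸ m) := Ideal.finiteQuotientOfFreeOfNeBot m hm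
  let h : ℕ := Nat.card (ClassGroup (𝓞 F))
  have hh : 0 < h := Nat.card_pos
  let φ : ℕ := Nat.card (𝓞 F ⧸ m)ˣ
  have hφ : 0 < φ := Nat.card_pos
  have ha0 : a₁ ∈ (Ideal (𝓞 F))⁰ := mem_nonZeroDivisors_of_ne_zero ha
  -- `a₁ ^ h` is principal
  have h1 : (a₁ ^ h).IsPrincipal := by
    have h2 : ClassGroup.mk0 ((⟨a₁, ha0⟩ : (Ideal (𝓞 F))⁰) ^ h) = 1 := by
      rw [map_pow]
      exact pow_card_eq_one'
    rw [ClassGroup.mk0_eq_one_iff] at h2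
    simpa using h2
  obtain ⟨g, hg⟩ := h1
  rw [← Ideal.span] at hg
  have hg0 : g ≠ 0 := by
    rintro rfl
    rw [Ideal.span_singleton_eq_bot.2 rfl] at hg
    exact pow_ne_zero h ha hg
  have hcg : IsCoprime (Ideal.span {g}) m := by
    rw [← hg]
    exact hc.pow_left
  -- `g` is a unit modulo `m`
  have hu : IsUnit (Ideal.Quotient.mk m g) := by
    rw [Ideal.isCoprime_iff_exists] at hcg
    obtain ⟨x, hx, y, hy, hxy⟩ := hcg
    obtain ⟨z, rfl⟩ := Ideal.mem_span_singleton'.1 hx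
    apply IsUnit.of_mul_eq_one (Ideal.Quotient.mk m z)
    rw [← map_mul, mul_comm g z, ← map_one (Ideal.Quotient.mk m), ← hxy, map_add,
      Ideal.Quotient.eq_zero_iff_mem.2 hy, add_zero]
  obtain ⟨u, hu⟩ := hu
  have h3 : (Ideal.Quotient.mk m g) ^ φ = 1 := by
    rw [← hu, ← Units.val_pow_eq_pow_val, pow_card_eq_one', Units.val_one]
  refine ⟨a₁ ^ (h * (φ * 2) - 1), pow_ne_zero _ ha, hc.pow_left, g ^ (φ * 2), pow_ne_zero _ hg0,
    ?_, ?_, ?_⟩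
  · rw [← Ideal.Quotient.eq, map_pow, map_one, pow_mul, h3, one_pow]
  · intro σ
    have h9 : σ (g : F) ≠ 0 := by
      rw [ne_eq, map_eq_zero]
      exact_mod_cast hg0
    have h10 : ((g ^ (φ * 2) : 𝓞 F) : F) = (g : F) ^ (φ * 2) := by push_cast; rfl
    rw [h10, map_pow, pow_mul]
    positivity
  · have h4 : a₁ * a₁ ^ (h * (φ * 2) - 1) = (a₁ ^ h) ^ (φ * 2) := by
      rw [← pow_succ', ← pow_mul]
      congr 1
      have : 0 < h * (φ * 2) := by positivity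
      omega
    rw [h4, hg, Ideal.span_singleton_pow]

end H37.HK
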