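import Pool.Agent.H37.HK.ArMem

/-!
The positive representatives of the coset modulo `U` map to the ideals of the ray class, every
fibre having `[rayUnits : U]` elements.
-/

open NumberField

namespace H37.HK

set_option linter.unusedSectionVars false

variable {F : Type*} [Field F] [NumberField F]

theorem coe_mul_pos {x y : 𝓞 F} (σ : F →+* ℝ) (hx : 0 < σ (x : F)) :
    0 < σ ((x * y : 𝓞 F) : F) ↔ 0 < σ (y : F) := by
  have h8 : ((x * y : 𝓞 F) : F) = (x : F) * (y : F) := by push_cast; rfl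
  rw [h8, RingHom.map_mul σ]
  exact mul_pos_iff_of_pos_left hx

theorem exists_equiv_reps {m : Ideal (𝓞 F)} {T : Finset (F →+* ℝ)} {a₁ b : Ideal (𝓞 F)}
    (hb : b ≠ ⊥) (hcb : IsCoprime b m) {γ : 𝓞 F}
    (hγ0 : γ ≠ 0) (hγ : γ - 1 ∈ m) (hγT : ∀ σ ∈ T, 0 < σ (γ : F))
    (hab : a₁ * b = Ideal.span {γ}) {U : Subgroup (𝓞 F)ˣ} (hU : U ≤ rayUnits m T)
    (hfin : U.FiniteIndex) {R : Set (𝓞 F)} (hR : IsReps (b * m) γ U R) :
    ∃ e : {x : 𝓞 F // x ∈ R ∧ ∀ σ ∈ T, 0 < σ (x : F)} ≃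
        rayClass m T a₁ × Fin (U.relIndex (rayUnits m T)),
      ∀ x, ((e x).1 : Ideal (𝓞 F)) * b = Ideal.span {(x : 𝓞 F)} := by
  classical
  have hγb : γ ∈ b := by
    have h : γ ∈ a₁ * b := by
      rw [hab]
      exact Ideal.mem_span_singleton_self γ
    exact Ideal.mul_le_right h
  have hmem := mem_rayClass_iff (T := T) hb hcb hγ0 hγ hγT hab
  -- the map to ideals
  have hΦ : ∀ x : {x : 𝓞 F // x ∈ R ∧ ∀ σ ∈ T, 0 < σ (x : F)}, ∃ a : rayClass m T a₁,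
      (a : Ideal (𝓞 F)) * b = Ideal.span {(x : 𝓞 F)} := by
    rintro ⟨x, hx, hxT⟩
    obtain ⟨hx0, hxc⟩ := hR.sub x hx
    have hxb := ((sub_mem_mul_iff hcb hγb hγ x).1 hxc).1
    have h1 : b ∣ Ideal.span {x} := by
      rw [Ideal.dvd_span_singleton]
      exact hxb
    obtain ⟨a, ha⟩ := h1
    rw [mul_comm] at ha
    exact ⟨⟨a, (hmem a).2 ⟨x, hx0, hxc, hxT, ha.symm⟩⟩, ha.symm⟩
  choose Φ hΦ using hΦ
  -- the fibres
  have hfib : ∀ a : rayClass m T a₁, Nonempty ({x // Φ x = a} ≃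
      Fin (U.relIndex (rayUnits m T))) := by
    intro a
    obtain ⟨y, hy0, hyc, hyT, hya⟩ := (hmem a).1 a.2
    have hy1 := ((sub_mem_mul_iff hcb hγb hγ y).1 hyc).2
    have hyb := ((sub_mem_mul_iff hcb hγb hγ y).1 hyc).1
    have key : ∀ u : rayUnits m T, ∃ p : R × U,
        ((p.2 : (𝓞 F)ˣ) : 𝓞 F) * (p.1 : 𝓞 F) = ((u : (𝓞 F)ˣ) : 𝓞 F) * y := by
      intro u
      refine (hR.exu _ (mul_ne_zero (Units.ne_zero _) hy0) ?_).exists
      rw [sub_mem_mul_iff hcb hγb hγ]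
      refine ⟨b.mul_mem_left _ hyb, ?_⟩
      have h1 : ((u : (𝓞 F)ˣ) : 𝓞 F) * y - 1 = ((u : (𝓞 F)ˣ) : 𝓞 F) * (y - 1)
        + (((u : (𝓞 F)ˣ) : 𝓞 F) - 1) := by ring
      rw [h1]
      exact m.add_mem (m.mul_mem_left _ hy1) u.2.1
    choose p hp using key
    have hspan : ∀ u, Ideal.span {((p u).1 : 𝓞 F)} = Ideal.span {y} := by
      intro u
      rw [Ideal.span_singleton_eq_span_singleton]
      refine ⟨((p u).2 : (𝓞 F)ˣ) * (u : (𝓞 F)ˣ)⁻¹, ?_⟩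
      have := hp u
      rw [Units.val_mul]
      calc ((p u).1 : 𝓞 F) * ((((p u).2 : (𝓞 F)ˣ) : 𝓞 F) * (((u : (𝓞 F)ˣ)⁻¹ : (𝓞 F)ˣ) : 𝓞 F))
          = (((u : (𝓞 F)ˣ)⁻¹ : (𝓞 F)ˣ) : 𝓞 F) *
            ((((p u).2 : (𝓞 F)ˣ) : 𝓞 F) * ((p u).1 : 𝓞 F)) := by ring
        _ = (((u : (𝓞 F)ˣ)⁻¹ : (𝓞 F)ˣ) : 𝓞 F) * ((u : (𝓞 F)ˣ) : 𝓞 F) * y := by
            rw [this]; ring
        _ = y := by rw [Units.inv_mul, one_mul]
    have hpos : ∀ u, ∀ σ ∈ T, 0 < σ (((p u).1 : 𝓞 F) : F) := by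
      intro u σ hσ
      have h1 : 0 < σ (((((p u).2 : (𝓞 F)ˣ) : 𝓞 F) * ((p u).1 : 𝓞 F) : 𝓞 F) : F) := by
        rw [hp u]
        exact (coe_mul_pos σ (u.2.2 σ hσ)).2 (hyT σ hσ)
      exact (coe_mul_pos σ ((hU (p u).2.2).2 σ hσ)).1 h1
    let f : rayUnits m T → {x // Φ x = a} := fun u =>
      ⟨⟨(p u).1, (p u).1.2, hpos u⟩, by
        apply Subtype.ext
        apply mul_right_cancel₀ hb
        rw [hΦ, hya]
        exact hspan u⟩
    have hf : ∀ u u', f u = f u' ↔ u⁻¹ * u' ∈ U.subgroupOf (rayUnits m T) := by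
      intro u u'
      rw [Subgroup.mem_subgroupOf]
      constructor
      · intro h
        have h1 : ((p u).1 : 𝓞 F) = (p u').1 := by
          have := congrArg (fun z => (z.1.1 : 𝓞 F)) h
          exact this
        have h2 := hp u
        have h3 := hp u'
        rw [← h1] at h3
        have h4 : (((p u').2 : (𝓞 F)ˣ) : 𝓞 F) * ((u : (𝓞 F)ˣ) : 𝓞 F) =
            (((p u).2 : (𝓞 F)ˣ) : 𝓞 F) * ((u' : (𝓞 F)ˣ) : 𝓞 F) := by
          apply mul_right_cancel₀ hy0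
          calc (((p u').2 : (𝓞 F)ˣ) : 𝓞 F) * ((u : (𝓞 F)ˣ) : 𝓞 F) * y
              = (((p u').2 : (𝓞 F)ˣ) : 𝓞 F) * (((u : (𝓞 F)ˣ) : 𝓞 F) * y) := by ring
            _ = (((p u).2 : (𝓞 F)ˣ) : 𝓞 F) *
                ((((p u').2 : (𝓞 F)ˣ) : 𝓞 F) * ((p u).1 : 𝓞 F)) := by rw [← h2]; ring
            _ = _ := by rw [h3]; ring
        have h5 : ((p u').2 : (𝓞 F)ˣ) * (u : (𝓞 F)ˣ) = ((p u).2 : (𝓞 F)ˣ) * (u' : (𝓞 F)ˣ) :=
          Units.ext (by push_cast; exact h4)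
        have h6 : ((u⁻¹ * u' : rayUnits m T) : (𝓞 F)ˣ) =
            ((p u).2 : (𝓞 F)ˣ)⁻¹ * ((p u').2 : (𝓞 F)ˣ) := by
          rw [Subgroup.coe_mul, Subgroup.coe_inv, eq_inv_mul_iff_mul_eq, ← mul_assoc,
            mul_comm _ ((u : (𝓞 F)ˣ)⁻¹), mul_assoc, ← h5, mul_comm ((p u').2 : (𝓞 F)ˣ),
            inv_mul_cancel_left]
        rw [h6]
        exact U.mul_mem (U.inv_mem (p u).2.2) (p u').2.2
      · intro h
        have h1 : (((⟨_, h⟩ : U) * (p u).2 : U) : (𝓞 F)ˣ) = (u : (𝓞 F)ˣ)⁻¹ * (u' : (𝓞 F)ˣ) *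
            ((p u).2 : (𝓞 F)ˣ) := rfl
        have hex := hR.exu (((u' : (𝓞 F)ˣ) : 𝓞 F) * y) (mul_ne_zero (Units.ne_zero _) hy0)
          (by
            rw [sub_mem_mul_iff hcb hγb hγ]
            refine ⟨b.mul_mem_left _ hyb, ?_⟩
            have h1 : ((u' : (𝓞 F)ˣ) : 𝓞 F) * y - 1 = ((u' : (𝓞 F)ˣ) : 𝓞 F) * (y - 1)
              + (((u' : (𝓞 F)ˣ) : 𝓞 F) - 1) := by ring
            rw [h1]
            exact m.add_mem (m.mul_mem_left _ hy1) u'.2.1)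
        have h2 := hex.unique (y₁ := p u') (y₂ := ((p u).1, (⟨_, h⟩ : U) * (p u).2)) (hp u') (by
          simp only [h1, Units.val_mul]
          calc (((u : (𝓞 F)ˣ)⁻¹ : (𝓞 F)ˣ) : 𝓞 F) * ((u' : (𝓞 F)ˣ) : 𝓞 F) *
                (((p u).2 : (𝓞 F)ˣ) : 𝓞 F) * ((p u).1 : 𝓞 F)
              = (((u : (𝓞 F)ˣ)⁻¹ : (𝓞 F)ˣ) : 𝓞 F) * ((u' : (𝓞 F)ˣ) : 𝓞 F) *
                ((((p u).2 : (𝓞 F)ˣ) : 𝓞 F) * ((p u).1 : 𝓞 F)) := by ring
            _ = ((((u : (𝓞 F)ˣ)⁻¹ : (𝓞 F)ˣ) : 𝓞 F) * ((u : (𝓞 F)ˣ) : 𝓞 F)) *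
                (((u' : (𝓞 F)ˣ) : 𝓞 F) * y) := by rw [hp u]; ring
            _ = ((u' : (𝓞 F)ˣ) : 𝓞 F) * y := by rw [Units.inv_mul, one_mul])
        apply Subtype.ext
        apply Subtype.ext
        change ((p u).1 : 𝓞 F) = (p u').1
        rw [h2]
    have hsurj : Function.Surjective f := by
      rintro ⟨⟨x, hx, hxT⟩, hxa⟩
      obtain ⟨hx0, hxc⟩ := hR.sub x hx
      have hx1 := ((sub_mem_mul_iff hcb hγb hγ x).1 hxc).2
      have h1 : Ideal.span {y} = Ideal.span {x} := by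
        rw [← hya, ← hxa, hΦ]
      obtain ⟨u, hu, hux⟩ := exists_rayUnit hy1 hx1 hyT hxT h1
      refine ⟨⟨u, hu⟩, ?_⟩
      have hex := hR.exu x hx0 hxc
      have h2 := hex.unique (y₁ := p ⟨u, hu⟩) (y₂ := (⟨x, hx⟩, 1)) (by
        rw [hp]
        exact hux) (by simp)
      apply Subtype.ext
      apply Subtype.ext
      change ((p ⟨u, hu⟩).1 : 𝓞 F) = x
      rw [h2]
    have hquot : (rayUnits m T ⧸ (U.subgroupOf (rayUnits m T))) ≃ {x // Φ x = a} := by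
      refine Equiv.ofBijective (fun q => Quotient.liftOn' q f fun u u' h => ?_) ⟨?_, ?_⟩
      · rw [hf]
        exact QuotientGroup.leftRel_apply.1 h
      · intro q q'
        induction q using QuotientGroup.induction_on with
        | H u =>
          induction q' using QuotientGroup.induction_on with
          | H u' =>
            intro h
            exact QuotientGroup.eq.2 ((hf u u').1 h)
      · intro z
        obtain ⟨u, hu⟩ := hsurj z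
        exact ⟨(u : rayUnits m T ⧸ (U.subgroupOf (rayUnits m T))), hu⟩
    have hfq : Finite (rayUnits m T ⧸ (U.subgroupOf (rayUnits m T))) := inferInstance
    exact ⟨hquot.symm.trans (Finite.equivFin _)⟩
  let ef := fun a => (hfib a).some
  refine ⟨(Equiv.sigmaFiberEquiv Φ).symm.trans
    ((Equiv.sigmaCongrRight fun a => (ef a)).trans (Equiv.sigmaEquivProd _ _)), fun x => ?_⟩
  exact hΦ x

end H37.HK
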