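import Pool.Agent.H37.HK.ArDefs

/-!
Division by the Gamma factors.
-/

open NumberField Filter Topology

namespace H37.HK

set_option linter.unusedSectionVars false

variable {F : Type*} [Field F] [NumberField F]

/-- the inverse of the Gamma factors is entire -/
theorem differentiable_gammaF_inv (S : Finset (F →+* ℝ)) :
    Differentiable ℂ fun s => (gammaF F S s)⁻¹ := by
  have h1 : (fun s => (gammaF F S s)⁻¹) = fun s =>
      ((Complex.Gammaℝ s)⁻¹) ^ (InfinitePlace.nrRealPlaces F - S.card) *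
      ((Complex.Gammaℝ (s + 1))⁻¹) ^ S.card *
      ((Complex.Gammaℝ (2 * s))⁻¹) ^ InfinitePlace.nrComplexPlaces F := by
    funext s
    simp only [gammaF, mul_inv, inv_pow]
  rw [h1]
  have h2 := Complex.differentiable_Gammaℝ_inv
  have h3 : Differentiable ℂ fun s : ℂ => (Complex.Gammaℝ (s + 1))⁻¹ :=
    h2.comp (differentiable_id.add_const 1)
  have h4 : Differentiable ℂ fun s : ℂ => (Complex.Gammaℝ (2 * s))⁻¹ :=
    h2.comp (differentiable_id.const_mul 2)
  exact ((h2.pow _).mul (h3.pow _)).mul (h4.pow _)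

theorem gammaF_ne_zero (S : Finset (F →+* ℝ)) {s : ℂ} (hs : 0 < s.re) : gammaF F S s ≠ 0 := by
  have h1 := Complex.Gammaℝ_ne_zero_of_re_pos hs
  have h2 : Complex.Gammaℝ (s + 1) ≠ 0 :=
    Complex.Gammaℝ_ne_zero_of_re_pos (by simp; linarith)
  have h3 : Complex.Gammaℝ (2 * s) ≠ 0 :=
    Complex.Gammaℝ_ne_zero_of_re_pos (by simp; linarith)
  exact mul_ne_zero (mul_ne_zero (pow_ne_zero _ h1) (pow_ne_zero _ h2)) (pow_ne_zero _ h3)

variable (F) in
theorem gammaF_empty_zero : (gammaF F ∅ 0)⁻¹ = 0 := by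
  have h0 : Complex.Gammaℝ 0 = 0 := by
    simp [Complex.Gammaℝ, Complex.Gamma_zero]
  have h1 : 0 < InfinitePlace.nrRealPlaces F + InfinitePlace.nrComplexPlaces F := by
    rw [← InfinitePlace.card_eq_nrRealPlaces_add_nrComplexPlaces]
    exact Fintype.card_pos
  rw [inv_eq_zero, gammaF]
  simp only [mul_zero, h0, Finset.card_empty, pow_zero, mul_one, Nat.sub_zero]
  rcases Nat.eq_zero_or_pos (InfinitePlace.nrRealPlaces F) with h | h
  · rw [h, zero_add] at h1
    rw [zero_pow h1.ne', mul_zero]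
  · rw [zero_pow h.ne', zero_mul]

variable (F) in
/-- the value of the Gamma factors at `1` is a positive real number -/
theorem gammaF_empty_one : ∃ g : ℝ, 0 < g ∧ gammaF F ∅ 1 = g := by
  refine ⟨(Real.pi⁻¹) ^ InfinitePlace.nrComplexPlaces F, by positivity, ?_⟩
  have h1 : Complex.Gammaℝ (2 * 1) = ((Real.pi⁻¹ : ℝ) : ℂ) := by
    rw [Complex.Gammaℝ]
    norm_num
    rw [Complex.cpow_neg_one]
  simp only [gammaF, Finset.card_empty, pow_zero, mul_one, Nat.sub_zero, Complex.Gammaℝ_one,
    one_pow, one_mul]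
  rw [mul_one] at h1
  rw [h1]
  push_cast
  rfl

theorem divide (S : Finset (F →+* ℝ)) {P : ℂ → ℂ} (hP : Differentiable ℂ P) {c0 c1 : ℂ}
    (hc : S.Nonempty → c0 = 0 ∧ c1 = 0) :
    ∃ L : ℂ → ℂ, DifferentiableOn ℂ L {1}ᶜ ∧
      Tendsto (fun s => (s - 1) * L s) (𝓝[≠] 1) (𝓝 (c1 * (gammaF F S 1)⁻¹)) ∧
      ∀ s : ℂ, 1 < s.re → gammaF F S s * L s = P s + c0 / s + c1 / (s - 1) := by
  let G : ℂ → ℂ := fun s => (gammaF F S s)⁻¹
  have hG : Differentiable ℂ G := differentiable_gammaF_inv S
  have hD : Differentiable ℂ (dslope G 0) := by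
    intro s
    have := (Complex.differentiableOn_dslope (c := (0 : ℂ)) (f := G) (s := Set.univ)
      univ_mem).2 hG.differentiableOn
    exact this.differentiableAt univ_mem
  let L : ℂ → ℂ := fun s => G s * P s + c0 * dslope G 0 s + c1 * G s / (s - 1)
  refine ⟨L, ?_, ?_, ?_⟩
  · intro s hs
    have hs' : s - 1 ≠ 0 := sub_ne_zero.2 hs
    apply DifferentiableAt.differentiableWithinAt
    refine (((hG s).mul (hP s)).add ((hD s).const_mul c0)).add
      (((hG s).const_mul c1).div (differentiableAt_id.sub_const 1) hs')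
  · have h1 : Tendsto (fun s => (s - 1) * (G s * P s + c0 * dslope G 0 s) + c1 * G s) (𝓝[≠] 1)
        (𝓝 ((1 - 1) * (G 1 * P 1 + c0 * dslope G 0 1) + c1 * G 1)) := by
      apply Tendsto.mono_left _ nhdsWithin_le_nhds
      have : Continuous fun s : ℂ => (s - 1) * (G s * P s + c0 * dslope G 0 s) + c1 * G s := by
        have := hG.continuous
        have := hP.continuous
        have := hD.continuous
        fun_prop
      exact this.tendsto 1
    rw [sub_self, zero_mul, zero_add] at h1
    refine h1.congr' ?_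
    filter_upwards [self_mem_nhdsWithin] with s hs
    have hs' : s - 1 ≠ 0 := sub_ne_zero.2 hs
    simp only [L]
    field_simp
  · intro s hs
    have hs0 : s ≠ 0 := by
      rintro rfl
      simp at hs
      linarith
    have hg : gammaF F S s ≠ 0 := gammaF_ne_zero S (by linarith)
    have h2 : c0 * dslope G 0 s = c0 * G s / s := by
      by_cases hS : S.Nonempty
      · rw [(hc hS).1]
        simp
      · rw [Finset.not_nonempty_iff_eq_empty] at hS
        have h3 : G 0 = 0 := by
          simp only [G, hS]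
          exact gammaF_empty_zero F
        rw [dslope_of_ne _ hs0, slope_def_field, h3]
        ring
    simp only [L, h2]
    have h4 : gammaF F S s * G s = 1 := mul_inv_cancel₀ hg
    have h5 : gammaF F S s * (G s * P s + c0 * G s / s + c1 * G s / (s - 1)) =
        (gammaF F S s * G s) * (P s + c0 / s + c1 / (s - 1)) := by ring
    rw [h5, h4, one_mul]

end H37.HK
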