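import Pool.Agent.H37.HK.ArDefs

/-!
Existence of a system of representatives.
-/

open NumberField

namespace H37.HK

set_option linter.unusedSectionVars false

variable {F : Type*} [Field F] [NumberField F]

theorem exists_reps (Λ : Ideal (𝓞 F)) (a0 : 𝓞 F) (U : Subgroup (𝓞 F)ˣ) :
    ∃ R : Set (𝓞 F), IsReps Λ a0 U R := by
  let X := {x : 𝓞 F // x ≠ 0 ∧ x - a0 ∈ Λ}
  let st : Setoid X :=
    { r := fun x y => ∃ u ∈ U, (u : 𝓞 F) * x.1 = y.1
      iseqv := by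
        refine ⟨fun x => ⟨1, U.one_mem, by simp⟩, ?_, ?_⟩
        · rintro x y ⟨u, hu, h⟩
          exact ⟨u⁻¹, U.inv_mem hu, by rw [← h, Units.inv_mul_cancel_left]⟩
        · rintro x y z ⟨u, hu, h⟩ ⟨v, hv, h'⟩
          exact ⟨v * u, U.mul_mem hv hu, by rw [← h', ← h, Units.val_mul, mul_assoc]⟩ }
  refine ⟨Set.range fun q : Quotient st => (q.out.1 : 𝓞 F), ?_, ?_⟩
  · rintro _ ⟨q, rfl⟩
    exact q.out.2
  · intro x hx0 hxc
    let q : Quotient st := Quotient.mk st ⟨x, hx0, hxc⟩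
    have h1 : st.r q.out ⟨x, hx0, hxc⟩ := Quotient.mk_out (s := st) (⟨x, hx0, hxc⟩ : X)
    obtain ⟨u, hu, h⟩ := h1
    refine ⟨(⟨q.out.1, q, rfl⟩, ⟨u, hu⟩), h, ?_⟩
    rintro ⟨⟨_, q', rfl⟩, ⟨v, hv⟩⟩ h'
    have h2 : q' = q := by
      rw [← Quotient.out_eq q']
      exact Quotient.sound ⟨v, hv, h'⟩
    have h5 : (q'.out.1 : 𝓞 F) = q.out.1 := by rw [h2]
    have h3 : (v : 𝓞 F) = u := by
      apply mul_right_cancel₀ q.out.2.1
      rw [h, ← h5]
      exact h'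
    have h4 : v = u := Units.ext h3
    refine Prod.ext (Subtype.ext h5) (Subtype.ext h4)

end H37.HK
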