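import Pool.Agent.H37.HK.ArDefs

/-!
Positivity at `T` by averaging over signs.
-/

open NumberField

namespace H37.HK

set_option linter.unusedSectionVars false

variable {F : Type*} [Field F] [NumberField F]

open Classical in
theorem avg_sgn (T : Finset (F →+* ℝ)) {x : 𝓞 F} (hx : x ≠ 0) :
    (if ∀ σ ∈ T, 0 < σ (x : F) then (1 : ℂ) else 0) =
      (1 / 2) ^ T.card * ∑ S ∈ T.powerset, sgnS S x := by
  have h1 : ∑ S ∈ T.powerset, sgnS S x =
      ∏ σ ∈ T, (1 + ((SignType.sign (σ (x : F)) : ℤ) : ℂ)) := by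
    rw [Finset.prod_one_add]
    rfl
  rw [h1, ← Finset.prod_const, ← Finset.prod_mul_distrib]
  have h2 : ∀ σ : F →+* ℝ, (1 / 2 : ℂ) * (1 + ((SignType.sign (σ (x : F)) : ℤ) : ℂ)) =
      if 0 < σ (x : F) then 1 else 0 := by
    intro σ
    have h3 : σ (x : F) ≠ 0 := by
      rw [ne_eq, map_eq_zero]
      exact_mod_cast hx
    rcases lt_or_gt_of_ne h3 with h | h
    · rw [sign_neg h, if_neg (not_lt.2 h.le)]
      simp
    · rw [sign_pos h, if_pos h]
      norm_num
  simp_rw [h2]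
  rw [Finset.prod_ite_zero, Finset.prod_const_one]
  congr

end H37.HK
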