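import Mathlib

/-!
Summability of `N(I) ^ (-σ)`, `σ > 1`, over the nonzero ideals of a ring of integers.
-/

open NumberField Filter Topology Asymptotics

namespace H37.HK

set_option linter.unusedSectionVars false

variable (F : Type*) [Field F] [NumberField F]

theorem summable_absNorm {σ : ℝ} (hσ : 1 < σ) :
    Summable fun I : {I : Ideal (𝓞 F) // I ≠ ⊥} => ((Ideal.absNorm I.1 : ℝ)) ^ (-σ) := by
  let f : ℕ → ℝ := fun n => Nat.card {I : Ideal (𝓞 F) // Ideal.absNorm I = n}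
  -- partial sums
  have hlim : Tendsto (fun n : ℕ => (∑ k ∈ Finset.Icc 1 n, f k) / n) atTop
      (𝓝 (dedekindZeta_residue F)) := by
    refine ((Ideal.tendsto_norm_le_div_atTop₀ F).comp tendsto_natCast_atTop_atTop).congr
      fun n => ?_
    simp only [Function.comp_apply, Nat.cast_le, f, ← Nat.cast_sum]
    congr
    rw [← add_left_inj 1, ← Ideal.card_norm_le_eq_card_norm_le_add_one,
      show Finset.Icc 1 n = Finset.Ioc 0 n from Finset.Icc_succ_left_eq_Ioc _ _,
      show 1 = Nat.card {I : Ideal (𝓞 F) // Ideal.absNorm I = 0} by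
        simp [Ideal.absNorm_eq_zero_iff],
      Finset.sum_Ioc_add_eq_sum_Icc (n.zero_le),
      ← Finset.card_preimage_eq_sum_card_image_eq
        (fun k _ => Ideal.finite_setOfPred_absNorm_eq k)]
    simp [Set.coe_eq_subtype]
  have hO : (fun n : ℕ => ∑ k ∈ Finset.Icc 1 n, f k) =O[atTop] fun n : ℕ => (n : ℝ) ^ (1 : ℝ) := by
    have h1 := hlim.isBigO_one ℝ
    have h2 := h1.mul (isBigO_refl (fun n : ℕ => (n : ℝ)) atTop)
    refine h2.congr' ?_ ?_
    · filter_upwards [eventually_ne_atTop 0] with n hn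
      have : (n : ℝ) ≠ 0 := by exact_mod_cast hn
      field_simp
    · filter_upwards with n
      simp
  have hL : LSeriesSummable (fun n => (f n : ℂ)) (σ : ℂ) :=
    LSeriesSummable_of_sum_norm_bigO_and_nonneg hO (fun n => Nat.cast_nonneg _) zero_le_one
      (by simpa using hσ)
  have hL2 : Summable fun n : ℕ => ‖LSeries.term (fun n => (f n : ℂ)) (σ : ℂ) n‖ := hL.norm
  -- fibres
  let N : {I : Ideal (𝓞 F) // I ≠ ⊥} → ℕ := fun I => Ideal.absNorm I.1
  rw [← (Equiv.sigmaFiberEquiv N).summable_iff]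
  have hfin : ∀ n : ℕ, Finite {I : {I : Ideal (𝓞 F) // I ≠ ⊥} // N I = n} := by
    intro n
    have h1 : {I : Ideal (𝓞 F) | Ideal.absNorm I = n}.Finite := Ideal.finite_setOfPred_absNorm_eq n
    have h2 : Finite {I : Ideal (𝓞 F) // Ideal.absNorm I = n} := h1
    exact Finite.of_injective (fun I => (⟨I.1.1, I.2⟩ : {I : Ideal (𝓞 F) // Ideal.absNorm I = n}))
      (by
        rintro ⟨⟨I, hI⟩, h⟩ ⟨⟨J, hJ⟩, h'⟩ hIJ
        simpa using hIJ)
  have hval : ∀ (n : ℕ) (y : {I : {I : Ideal (𝓞 F) // I ≠ ⊥} // N I = n}),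
      ((fun I : {I : Ideal (𝓞 F) // I ≠ ⊥} => ((Ideal.absNorm I.1 : ℝ)) ^ (-σ)) ∘
        (Equiv.sigmaFiberEquiv N)) ⟨n, y⟩ = (n : ℝ) ^ (-σ) := by
    rintro n ⟨y, hy⟩
    simp only [Function.comp_apply, Equiv.sigmaFiberEquiv, Equiv.coe_fn_mk]
    rw [← hy]
  have hnn : ∀ x : Σ n, {I : {I : Ideal (𝓞 F) // I ≠ ⊥} // N I = n},
      0 ≤ ((fun I : {I : Ideal (𝓞 F) // I ≠ ⊥} => ((Ideal.absNorm I.1 : ℝ)) ^ (-σ)) ∘
        (Equiv.sigmaFiberEquiv N)) x := fun x => Real.rpow_nonneg (Nat.cast_nonneg _) _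
  rw [summable_sigma_of_nonneg hnn]
  refine ⟨fun n => ?_, ?_⟩
  · have := hfin n
    exact Summable.of_finite
  · refine Summable.of_nonneg_of_le (fun n => tsum_nonneg fun y => hnn _) (fun n => ?_) hL2
    have hfn := hfin n
    have hft := Fintype.ofFinite {I : {I : Ideal (𝓞 F) // I ≠ ⊥} // N I = n}
    rw [tsum_fintype]
    simp_rw [hval]
    rw [Finset.sum_const, Finset.card_univ, nsmul_eq_mul]
    rcases Nat.eq_zero_or_pos n with hn | hn
    · subst hn
      have h0 : Fintype.card {I : {I : Ideal (𝓞 F) // I ≠ ⊥} // N I = 0} = 0 := by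
        rw [Fintype.card_eq_zero_iff]
        refine ⟨fun I => I.1.2 ?_⟩
        rw [← Ideal.absNorm_eq_zero_iff]
        exact I.2
      rw [h0]
      simp
    · rw [LSeries.term_of_ne_zero hn.ne', norm_div, Complex.norm_natCast_cpow_of_pos hn,
        Complex.ofReal_re, Real.rpow_neg (Nat.cast_nonneg _), div_eq_mul_inv, Complex.norm_real,
        Real.norm_of_nonneg (Nat.cast_nonneg _)]
      gcongr
      have h1 : {I : Ideal (𝓞 F) | Ideal.absNorm I = n}.Finite :=
        Ideal.finite_setOfPred_absNorm_eq n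
      have h2 : Finite {I : Ideal (𝓞 F) // Ideal.absNorm I = n} := h1
      rw [← Nat.card_eq_fintype_card]
      refine Nat.card_le_card_of_injective
        (fun I => (⟨I.1.1, I.2⟩ : {I : Ideal (𝓞 F) // Ideal.absNorm I = n})) ?_
      rintro ⟨⟨I, hI⟩, h⟩ ⟨⟨J, hJ⟩, h'⟩ hIJ
      simpa using hIJ

end H37.HK
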