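import Pool.Agent.H37.HK.ArDefs
import Pool.Agent.H37.HK.ArIdl

/-!
Summability over a system of representatives.
-/

open NumberField

namespace H37.HK

set_option linter.unusedSectionVars false

variable {F : Type*} [Field F] [NumberField F]

theorem absNorm_span_eq (x : 𝓞 F) :
    (Ideal.absNorm (Ideal.span {x}) : ℝ) = nrm x := by
  rw [nrm, Ideal.absNorm_span_singleton, Nat.cast_natAbs, Int.cast_abs]

theorem summable_reps {Λ : Ideal (𝓞 F)} {a0 : 𝓞 F} {U : Subgroup (𝓞 F)ˣ} (hfin : U.FiniteIndex)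
    {R : Set (𝓞 F)} (hR : IsReps Λ a0 U R) {σ : ℝ} (hσ : 1 < σ) :
    Summable fun x : R => nrm (x : 𝓞 F) ^ (-σ) := by
  classical
  let g : Ideal (𝓞 F) → 𝓞 F := fun I => if h : ∃ y, I = Ideal.span {y} then h.choose else 1
  have hg : ∀ x : 𝓞 F, Ideal.span {g (Ideal.span {x})} = Ideal.span {x} := by
    intro x
    have h : ∃ y, Ideal.span {x} = Ideal.span {y} := ⟨x, rfl⟩
    simp only [g, dif_pos h]
    exact h.choose_spec.symm
  have hu : ∀ x : R, ∃ u : (𝓞 F)ˣ, g (Ideal.span {(x : 𝓞 F)}) * (u : 𝓞 F) = x := by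
    intro x
    exact Ideal.span_singleton_eq_span_singleton.1 (hg x)
  choose u hu using hu
  have hne : ∀ x : R, Ideal.span {(x : 𝓞 F)} ≠ ⊥ := by
    intro x
    rw [ne_eq, Ideal.span_singleton_eq_bot]
    exact (hR.sub x x.2).1
  let j : R → {I : Ideal (𝓞 F) // I ≠ ⊥} × ((𝓞 F)ˣ ⧸ U) := fun x =>
    (⟨Ideal.span {(x : 𝓞 F)}, hne x⟩, (u x : (𝓞 F)ˣ ⧸ U))
  have hj : Function.Injective j := by
    intro x x' h
    have h1 : Ideal.span {(x : 𝓞 F)} = Ideal.span {(x' : 𝓞 F)} := by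
      have := congrArg (fun p => (p.1.1 : Ideal (𝓞 F))) h
      exact this
    have h2 : (u x)⁻¹ * u x' ∈ U := QuotientGroup.eq.1 (congrArg Prod.snd h)
    have h3 := hu x
    have h4 := hu x'
    rw [← h1] at h4
    obtain ⟨hx0, hxc⟩ := hR.sub x' x'.2
    have h5 : ((⟨_, h2⟩ : U) : (𝓞 F)ˣ) = (u x)⁻¹ * u x' := rfl
    have h6 := (hR.exu x' hx0 hxc).unique (y₁ := (x', 1)) (y₂ := (x, ⟨_, h2⟩)) (by simp) (by
      simp only
      rw [← h3, ← h4, Units.val_mul]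
      calc (((u x)⁻¹ : (𝓞 F)ˣ) : 𝓞 F) * (u x' : 𝓞 F) *
            (g (Ideal.span {(x : 𝓞 F)}) * (u x : 𝓞 F))
          = ((((u x)⁻¹ : (𝓞 F)ˣ) : 𝓞 F) * (u x : 𝓞 F)) *
            (g (Ideal.span {(x : 𝓞 F)}) * (u x' : 𝓞 F)) := by ring
        _ = g (Ideal.span {(x : 𝓞 F)}) * (u x' : 𝓞 F) := by rw [Units.inv_mul, one_mul])
    exact (congrArg Prod.fst h6).symm
  have hfq : Finite ((𝓞 F)ˣ ⧸ U) := Subgroup.finite_quotient_of_finiteIndex
  have h1 : Summable fun p : {I : Ideal (𝓞 F) // I ≠ ⊥} × ((𝓞 F)ˣ ⧸ U) =>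
      ((Ideal.absNorm p.1.1 : ℝ)) ^ (-σ) := by
    have h2 := (summable_absNorm F hσ).mul_of_nonneg
      (Summable.of_finite (f := fun _ : (𝓞 F)ˣ ⧸ U => (1 : ℝ)))
      (fun I => Real.rpow_nonneg (Nat.cast_nonneg _) _) (fun _ => zero_le_one)
    simpa using h2
  have h2 := h1.comp_injective hj
  refine h2.congr fun x => ?_
  simp only [Function.comp_apply, j, absNorm_span_eq]

end H37.HK
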