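import Pool.Agent.H37.HK.ArUnit
import Pool.Agent.H37.HK.ArInv
import Pool.Agent.H37.HK.ArCount
import Pool.Agent.H37.HK.ArSgn
import Pool.Agent.H37.HK.ArReps
import Pool.Agent.H37.HK.ArGamma
import Pool.Agent.H37.HK.ArSum

/-!
Partial zeta functions of ray classes: continuation to `ℂ`, simple pole at `1` with residue
independent of the class.
-/

open NumberField Filter Topology

namespace H37.HK

set_option linter.unusedSectionVars false

variable {F : Type*} [Field F] [NumberField F]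

theorem abs_norm_cpow {a b : Ideal (𝓞 F)} {x : 𝓞 F} (h : a * b = Ideal.span {x}) (s : ℂ) :
    (nrm x : ℂ) ^ (-s) =
      ((Ideal.absNorm a : ℕ) : ℂ) ^ (-s) * ((Ideal.absNorm b : ℕ) : ℂ) ^ (-s) := by
  rw [← absNorm_span_eq, ← h, map_mul, Nat.cast_mul, Complex.ofReal_mul,
    Complex.mul_cpow_ofReal_nonneg (Nat.cast_nonneg _) (Nat.cast_nonneg _)]
  simp

/-- the coset series of all sign types, continued -/
theorem coset_series {U : Subgroup (𝓞 F)ˣ} (hfin : U.FiniteIndex) {K : ℝ}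
    {Λ : Ideal (𝓞 F)} {a0 : 𝓞 F} {S : Finset (F →+* ℝ)} {R : Set (𝓞 F)} (hR : IsReps Λ a0 U R)
    (hcore : ∃ (P : ℂ → ℂ) (c0 c1 : ℂ), Differentiable ℂ P ∧ (S.Nonempty → c0 = 0 ∧ c1 = 0) ∧
        (S = ∅ → c1 = K / Ideal.absNorm Λ) ∧
        ∀ s : ℂ, 1 < s.re →
          gammaF F S s * ∑' x : R, sgnS S (x : 𝓞 F) *
            (nrm (x : 𝓞 F) : ℂ) ^ (-s) =
          P s + c0 / s + c1 / (s - 1)) :
    ∃ (L : ℂ → ℂ) (c : ℂ), DifferentiableOn ℂ L {1}ᶜ ∧
      Tendsto (fun s => (s - 1) * L s) (𝓝[≠] 1) (𝓝 c) ∧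
      (S = ∅ → c = K / Ideal.absNorm Λ * (gammaF F ∅ 1)⁻¹) ∧ (S ≠ ∅ → c = 0) ∧
      ∀ s : ℂ, 1 < s.re → HasSum (fun x : R => cterm S s (x : 𝓞 F)) (L s) := by
  obtain ⟨P, c0, c1, hP, hc, hc1, hs⟩ := hcore
  obtain ⟨L, hL1, hL2, hL3⟩ := divide S hP hc
  refine ⟨L, _, hL1, hL2, ?_, ?_, fun s hs1 => ?_⟩
  · intro h
    rw [hc1 h, h]
  · intro h
    rw [(hc (Finset.nonempty_iff_ne_empty.2 h)).2, zero_mul]
  · have hg : gammaF F S s ≠ 0 := gammaF_ne_zero S (by linarith)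
    have h1 : L s = ∑' x : R, cterm S s (x : 𝓞 F) := by
      apply mul_left_cancel₀ hg
      rw [hL3 s hs1, ← hs s hs1]
      rfl
    rw [h1]
    apply Summable.hasSum
    have h2 := summable_reps hfin hR hs1
    refine Summable.of_norm_bounded h2 fun x => ?_
    rw [cterm, norm_mul]
    have hx0 := (hR.sub x x.2).1
    have hN : 0 < nrm (x : 𝓞 F) := by
      rw [nrm, abs_pos]
      exact_mod_cast (Algebra.norm_ne_zero_iff.2 hx0)
    rw [Complex.norm_cpow_eq_rpow_re_of_pos hN, Complex.neg_re]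
    have h3 : ‖sgnS S (x : 𝓞 F)‖ ≤ 1 := by
      rw [sgnS, norm_prod]
      apply Finset.prod_le_one (fun _ _ => norm_nonneg _)
      intro σ _
      rcases lt_trichotomy (σ ((x : 𝓞 F) : F)) 0 with h | h | h
      · rw [sign_neg h]; simp
      · rw [h, sign_zero]; simp
      · rw [sign_pos h]; simp
    exact mul_le_of_le_one_left (Real.rpow_nonneg hN.le _) h3

/-- For every class of ideals modulo `m`, `T` the partial zeta function continues to `ℂ` with a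
simple pole at `1` whose residue does not depend on the class. -/
theorem ray_class_zeta_of_core (hCore : CoreStmt F) (m : Ideal (𝓞 F)) (hm : m ≠ ⊥)
    (T : Finset (F →+* ℝ)) :
    ∃ ρ : ℝ, 0 < ρ ∧ ∀ a₁ : Ideal (𝓞 F), a₁ ≠ ⊥ → IsCoprime a₁ m →
      ∃ Z : ℂ → ℂ, DifferentiableOn ℂ Z {1}ᶜ ∧
        Tendsto (fun s => (s - 1) * Z s) (𝓝[≠] 1) (𝓝 (ρ : ℂ)) ∧
        ∀ s : ℂ, 1 < s.re →
          HasSum (fun a : rayClass m T a₁ => ((Ideal.absNorm (a : Ideal (𝓞 F)) : ℕ) : ℂ) ^ (-s))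
            (Z s) := by
  classical
  obtain ⟨U, hfin, htf, hpos, hU1⟩ := exists_unitGroup m hm
  have hU : U ≤ rayUnits m T := fun u hu => ⟨hU1 u hu, fun σ _ => hpos u hu σ⟩
  obtain ⟨K, hK, hcore⟩ := hCore U hfin htf hpos
  obtain ⟨g, hg, hg1⟩ := gammaF_empty_one F
  have hk : 0 < U.relIndex (rayUnits m T) := by
    apply Nat.pos_of_ne_zero
    intro h0
    have h1 := Subgroup.relIndex_dvd_index_of_normal U (rayUnits m T)
    rw [h0, zero_dvd_iff] at h1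
    exact hfin.index_ne_zero h1
  set k := U.relIndex (rayUnits m T) with hkdef
  have hNm : (0 : ℝ) < Ideal.absNorm m := by
    have : Ideal.absNorm m ≠ 0 := by rwa [ne_eq, Ideal.absNorm_eq_zero_iff]
    positivity
  refine ⟨(1 / 2) ^ T.card * (k : ℝ)⁻¹ * (K / Ideal.absNorm m * g⁻¹), by positivity, ?_⟩
  intro a₁ ha₁ hc₁
  obtain ⟨b, hb, hcb, γ, hγ0, hγ, hγT, hab⟩ := exists_inverse m hm a₁ ha₁ hc₁
  have hΛ : b * m ≠ ⊥ := mul_ne_zero hb hm
  obtain ⟨R, hR⟩ := exists_reps (b * m) γ U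
  obtain ⟨e, he⟩ := exists_equiv_reps (T := T) hb hcb hγ0 hγ (fun σ _ => hγT σ) hab hU hfin hR
  have hγb : γ ∈ b := by
    have h : γ ∈ a₁ * b := by
      rw [hab]
      exact Ideal.mem_span_singleton_self γ
    exact Ideal.mul_le_right h
  have hpres : ∀ u ∈ U, ((u : 𝓞 F) - 1) * γ ∈ b * m := by
    intro u hu
    rw [mul_comm b m]
    exact Ideal.mul_mem_mul (hU1 u hu) hγb
  have hS := fun S : Finset (F →+* ℝ) =>
    coset_series hfin hR (hcore (b * m) hΛ γ S hpres R hR fun σ hσ => summable_reps hfin hR hσ)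
  choose L c hL1 hL2 hc0 hc1 hL3 using hS
  have hNb : Ideal.absNorm b ≠ 0 := by rwa [ne_eq, Ideal.absNorm_eq_zero_iff]
  have hNbC : ((Ideal.absNorm b : ℕ) : ℂ) ≠ 0 := by exact_mod_cast hNb
  refine ⟨fun s => ((Ideal.absNorm b : ℕ) : ℂ) ^ s * ((k : ℂ)⁻¹ * ((1 / 2) ^ T.card *
    ∑ S ∈ T.powerset, L S s)), ?_, ?_, ?_⟩
  · refine DifferentiableOn.mul ?_ (DifferentiableOn.const_mul (DifferentiableOn.const_mul ?_ _) _)
    · intro s _
      exact ((differentiableAt_id).const_cpow (Or.inl hNbC)).differentiableWithinAt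
    · exact DifferentiableOn.fun_sum fun S _ => hL1 S
  · have h1 : Tendsto (fun s : ℂ => ((Ideal.absNorm b : ℕ) : ℂ) ^ s) (𝓝[≠] 1)
        (𝓝 (((Ideal.absNorm b : ℕ) : ℂ) ^ (1 : ℂ))) := by
      apply Tendsto.mono_left _ nhdsWithin_le_nhds
      exact (continuousAt_const_cpow hNbC)
    have h2 : Tendsto (fun s : ℂ => ∑ S ∈ T.powerset, (s - 1) * L S s) (𝓝[≠] 1)
        (𝓝 (∑ S ∈ T.powerset, c S)) :=
      tendsto_finsetSum _ fun S _ => hL2 S
    have h3 := h1.mul ((h2.const_mul ((1 / 2 : ℂ) ^ T.card)).const_mul (k : ℂ)⁻¹)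
    have h4 : ((Ideal.absNorm b : ℕ) : ℂ) ^ (1 : ℂ) * ((k : ℂ)⁻¹ * ((1 / 2 : ℂ) ^ T.card *
        ∑ S ∈ T.powerset, c S)) =
        (((1 / 2) ^ T.card * (k : ℝ)⁻¹ * (K / Ideal.absNorm m * g⁻¹) : ℝ) : ℂ) := by
      rw [Finset.sum_eq_single_of_mem ∅ (Finset.empty_mem_powerset T) (fun S _ h => hc1 S h),
        hc0 ∅ rfl, Complex.cpow_one, hg1, map_mul]
      push_cast
      have hNmC : ((Ideal.absNorm m : ℕ) : ℂ) ≠ 0 := by exact_mod_cast hNm.ne'
      field_simp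
    rw [← h4]
    refine h3.congr fun s => ?_
    rw [← Finset.mul_sum]
    ring
  · intro s hs
    -- the sum over the positive representatives
    have h1 : HasSum (fun x : R => ((1 / 2) ^ T.card * ∑ S ∈ T.powerset, cterm S s (x : 𝓞 F)))
        ((1 / 2) ^ T.card * ∑ S ∈ T.powerset, L S s) :=
      (hasSum_sum fun S _ => hL3 S s hs).mul_left _
    have h2 : ∀ x : R, (1 / 2) ^ T.card * ∑ S ∈ T.powerset, cterm S s (x : 𝓞 F) =
        if ∀ σ ∈ T, 0 < σ ((x : 𝓞 F) : F) then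
          (nrm (x : 𝓞 F) : ℂ) ^ (-s) else 0 := by
      intro x
      simp only [cterm]
      rw [← Finset.sum_mul, ← mul_assoc, ← avg_sgn T (hR.sub x x.2).1]
      split_ifs <;> simp
    simp_rw [h2] at h1
    -- restrict to the positive ones
    let φ : {x : 𝓞 F // x ∈ R ∧ ∀ σ ∈ T, 0 < σ (x : F)} → R := fun x => ⟨x.1, x.2.1⟩
    have hφ : Function.Injective φ := by
      intro x y h
      exact Subtype.ext (congrArg (fun z : R => (z : 𝓞 F)) h)
    have h3 : HasSum (fun x : {x : 𝓞 F // x ∈ R ∧ ∀ σ ∈ T, 0 < σ (x : F)} =>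
        (nrm (x : 𝓞 F) : ℂ) ^ (-s))
        ((1 / 2) ^ T.card * ∑ S ∈ T.powerset, L S s) := by
      rw [← hφ.hasSum_iff] at h1
      · convert h1 using 2 with x
        simp only [Function.comp_apply, φ]
        rw [if_pos x.2.2]
      · intro x hx
        rw [if_neg]
        intro hpos
        exact hx ⟨⟨x.1, x.2, hpos⟩, rfl⟩
    have h4 : HasSum (fun p : rayClass m T a₁ × Fin k =>
        ((Ideal.absNorm (p.1 : Ideal (𝓞 F)) : ℕ) : ℂ) ^ (-s) *
          ((Ideal.absNorm b : ℕ) : ℂ) ^ (-s))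
        ((1 / 2) ^ T.card * ∑ S ∈ T.powerset, L S s) := by
      rw [← e.hasSum_iff]
      convert h3 using 2 with x
      exact (abs_norm_cpow (he x) s).symm
    have h5 := h4.prod_fiberwise (g := fun a : rayClass m T a₁ => (k : ℂ) *
        (((Ideal.absNorm (a : Ideal (𝓞 F)) : ℕ) : ℂ) ^ (-s) *
          ((Ideal.absNorm b : ℕ) : ℂ) ^ (-s))) (fun a => by
      have := hasSum_fintype (fun _ : Fin k =>
        (((Ideal.absNorm (a : Ideal (𝓞 F)) : ℕ) : ℂ) ^ (-s) *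
          ((Ideal.absNorm b : ℕ) : ℂ) ^ (-s)))
      simpa using this)
    have h6 := (h5.mul_left (k : ℂ)⁻¹).mul_left (((Ideal.absNorm b : ℕ) : ℂ) ^ s)
    have hkC : (k : ℂ) ≠ 0 := by exact_mod_cast hk.ne'
    have h7 : ((Ideal.absNorm b : ℕ) : ℂ) ^ s * ((Ideal.absNorm b : ℕ) : ℂ) ^ (-s) = 1 := by
      rw [← Complex.cpow_add _ _ hNbC, add_neg_cancel, Complex.cpow_zero]
    have h8 : (fun a : rayClass m T a₁ => ((Ideal.absNorm (a : Ideal (𝓞 F)) : ℕ) : ℂ) ^ (-s)) =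
        fun a : rayClass m T a₁ => ((Ideal.absNorm b : ℕ) : ℂ) ^ s * ((k : ℂ)⁻¹ * ((k : ℂ) *
        (((Ideal.absNorm (a : Ideal (𝓞 F)) : ℕ) : ℂ) ^ (-s) *
          ((Ideal.absNorm b : ℕ) : ℂ) ^ (-s)))) := by
      funext a
      calc ((Ideal.absNorm (a : Ideal (𝓞 F)) : ℕ) : ℂ) ^ (-s)
          = ((k : ℂ)⁻¹ * k) * (((Ideal.absNorm b : ℕ) : ℂ) ^ s *
            ((Ideal.absNorm b : ℕ) : ℂ) ^ (-s)) *
            ((Ideal.absNorm (a : Ideal (𝓞 F)) : ℕ) : ℂ) ^ (-s) := by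
              rw [h7, inv_mul_cancel₀ hkC, one_mul, one_mul]
        _ = _ := by ring
    rw [h8]
    exact h6

end H37.HK
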