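import Pool.Agent.H37.HK.ArFin
import Pool.Agent.H37.HK.ArMain

/-!
Hecke's theorem for functions on the ray class group, in the language of divisors.
-/

open NumberField IsDedekindDomain Module Filter Topology
open scoped nonZeroDivisors
open Pool.Agent.H31.CF

namespace H37.HK

set_option linter.unusedSectionVars false

variable {F : Type} [Field F] [NumberField F]

/-- The nonzero integral ideals prime to `m`. -/
abbrev ICop (m : Ideal (𝓞 F)) : Type := {a : Ideal (𝓞 F) // a ≠ ⊥ ∧ IsCoprime a m}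

/-- The ray class of an integral ideal prime to `m`. -/
noncomputable def cls (m : Ideal (𝓞 F)) (a : ICop m) : RCl m :=
  QuotientAddGroup.mk ⟨idv a.1, (idv_mem_Cop_iff a.2.1).2 a.2.2⟩

theorem cls_eq_iff {m : Ideal (𝓞 F)} (a b : ICop m) :
    cls m a = cls m b ↔ RayEquiv m Finset.univ a.1 b.1 := by
  rw [rayEquiv_iff a.2.1 b.2.1, cls, cls, QuotientAddGroup.eq, AddSubgroup.mem_addSubgroupOf,
    ← neg_mem_iff]
  have h : -((-(⟨idv a.1, (idv_mem_Cop_iff a.2.1).2 a.2.2⟩ : Cop m) +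
      ⟨idv b.1, (idv_mem_Cop_iff b.2.1).2 b.2.2⟩ : Cop m) : Dv F) = idv a.1 - idv b.1 := by
    push_cast
    abel
  rw [h]

theorem exists_cls {m : Ideal (𝓞 F)} (hm : m ≠ ⊥) (q : RCl m) : ∃ a : ICop m, cls m a = q := by
  induction q using QuotientAddGroup.induction_on with
  | H D =>
    obtain ⟨a, ha, hc, h⟩ := exists_integral m hm D.1 D.2
    refine ⟨⟨a, ha, hc⟩, ?_⟩
    rw [cls, QuotientAddGroup.eq, AddSubgroup.mem_addSubgroupOf]
    have h2 := (Pm m).neg_mem h
    have h3 : ((-(⟨idv a, (idv_mem_Cop_iff ha).2 hc⟩ : Cop m) + D : Cop m) : Dv F) =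
        -(idv a - D) := by
      push_cast
      abel
    rw [h3]
    exact h2

/-- Removing the singularity. -/
theorem exists_entire {L : ℂ → ℂ} (h1 : DifferentiableOn ℂ L {1}ᶜ)
    (h2 : Tendsto (fun s => (s - 1) * L s) (𝓝[≠] 1) (𝓝 0)) :
    ∃ L' : ℂ → ℂ, Differentiable ℂ L' ∧ ∀ s, s ≠ 1 → L' s = L s := by
  refine ⟨Function.update L 1 (limUnder (𝓝[≠] 1) L), ?_, fun s hs => Function.update_of_ne hs _ _⟩
  rw [← differentiableOn_univ]
  apply Complex.differentiableOn_update_limUnder_of_isLittleO univ_mem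
  · rwa [← Set.compl_eq_univ_sdiff]
  · rw [Asymptotics.isLittleO_iff_tendsto']
    · have h3 : Tendsto (fun s : ℂ => (s - 1) * L s - (s - 1) * L 1) (𝓝[≠] 1)
          (𝓝 (0 - (1 - 1) * L 1)) := by
        apply h2.sub
        apply Tendsto.mono_left _ nhdsWithin_le_nhds
        have : Continuous fun s : ℂ => (s - 1) * L 1 := by fun_prop
        exact this.tendsto 1
      rw [sub_self, zero_mul, sub_zero] at h3
      refine h3.congr fun s => ?_
      rw [div_inv_eq_mul]
      ring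
    · filter_upwards [self_mem_nhdsWithin] with s hs h0
      rw [inv_eq_zero, sub_eq_zero] at h0
      exact absurd h0 hs

/-- **Hecke**: the L-series of a function on the ray class group. -/
theorem hecke_of_core (hCore : CoreStmt F) (m : Ideal (𝓞 F)) (hm : m ≠ ⊥) [Fintype (RCl m)] :
    ∃ ρ : ℝ, 0 < ρ ∧ ∀ f : RCl m → ℂ, ∃ L : ℂ → ℂ, DifferentiableOn ℂ L {1}ᶜ ∧
      Tendsto (fun s => (s - 1) * L s) (𝓝[≠] 1) (𝓝 (ρ * ∑ q, f q)) ∧
      (∑ q, f q = 0 → Differentiable ℂ L) ∧
      ∀ s : ℂ, 1 < s.re →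
        HasSum (fun a : ICop m => f (cls m a) * ((Ideal.absNorm a.1 : ℕ) : ℂ) ^ (-s)) (L s) := by
  classical
  obtain ⟨ρ, hρ, hZ⟩ := ray_class_zeta_of_core hCore m hm Finset.univ
  refine ⟨ρ, hρ, fun f => ?_⟩
  choose a ha using fun q => exists_cls hm q
  have hZ' := fun q => hZ (a q).1 (a q).2.1 (a q).2.2
  choose Z hZ1 hZ2 hZ3 using hZ'
  have hsum : ∀ s : ℂ, 1 < s.re →
      HasSum (fun b : ICop m => f (cls m b) * ((Ideal.absNorm b.1 : ℕ) : ℂ) ^ (-s))
        (∑ q, f q * Z q s) := by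
    intro s hs
    have h1 : ∀ q, HasSum (fun b : ICop m => if cls m b = q then
        f q * ((Ideal.absNorm b.1 : ℕ) : ℂ) ^ (-s) else 0) (f q * Z q s) := by
      intro q
      have h2 := (hZ3 q s hs).mul_left (f q)
      let φ : rayClass m Finset.univ (a q).1 → ICop m := fun b => ⟨b.1, b.2.1, b.2.2.1⟩
      have hφ : Function.Injective φ := by
        intro x y h
        exact Subtype.ext (congrArg (fun z : ICop m => z.1) h)
      rw [← hφ.hasSum_iff]
      · have h5 : ((fun b : ICop m => if cls m b = q then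
            f q * ((Ideal.absNorm b.1 : ℕ) : ℂ) ^ (-s) else 0) ∘ φ) =
            fun b : rayClass m Finset.univ (a q).1 =>
              f q * ((Ideal.absNorm (b : Ideal (𝓞 F)) : ℕ) : ℂ) ^ (-s) := by
          funext b
          rw [Function.comp_apply, if_pos]
          rw [← ha q, cls_eq_iff]
          exact b.2.2.2
        rw [h5]
        exact h2
      · intro b hb
        rw [if_neg]
        intro h
        apply hb
        rw [← ha q, cls_eq_iff] at h
        exact ⟨⟨b.1, b.2.1, b.2.2, h⟩, rfl⟩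
    have h3 := hasSum_sum (s := Finset.univ) fun q _ => h1 q
    convert h3 using 2 with b
    rw [Finset.sum_ite_eq]
    simp
  have hd : DifferentiableOn ℂ (fun s => ∑ q, f q * Z q s) {1}ᶜ :=
    DifferentiableOn.fun_sum fun q _ => (hZ1 q).const_mul _
  have ht : Tendsto (fun s => (s - 1) * ∑ q, f q * Z q s) (𝓝[≠] 1) (𝓝 (ρ * ∑ q, f q)) := by
    have h1 : Tendsto (fun s => ∑ q, f q * ((s - 1) * Z q s)) (𝓝[≠] 1)
        (𝓝 (∑ q, f q * (ρ : ℂ))) := tendsto_finsetSum _ fun q _ => (hZ2 q).const_mul _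
    rw [← Finset.sum_mul, mul_comm] at h1
    refine h1.congr fun s => ?_
    rw [Finset.mul_sum]
    refine Finset.sum_congr rfl fun q _ => by ring
  by_cases h0 : ∑ q, f q = 0
  · have ht' := ht
    rw [h0, mul_zero] at ht'
    obtain ⟨L', hL', hLL'⟩ := exists_entire hd ht'
    refine ⟨L', hL'.differentiableOn, ?_, fun _ => hL', fun s hs => ?_⟩
    · refine ht.congr' ?_
      filter_upwards [self_mem_nhdsWithin] with s hs
      rw [hLL' s hs]
    · have hs1 : s ≠ 1 := by
        rintro rfl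
        simp at hs
      rw [hLL' s hs1]
      exact hsum s hs
  · exact ⟨_, hd, ht, fun h => absurd h h0, hsum⟩

/-- A nontrivial homomorphism sums to zero. -/
theorem sum_hom_eq_zero {Q : Type} [AddCommGroup Q] [Fintype Q] (χ : Q →+ Additive ℂˣ)
    (hχ : χ ≠ 0) : ∑ q, ((Additive.toMul (χ q) : ℂˣ) : ℂ) = 0 := by
  obtain ⟨q₀, hq₀⟩ : ∃ q, χ q ≠ 0 := by
    by_contra h
    push Not at h
    exact hχ (AddMonoidHom.ext h)
  have h1 : ∑ q, ((Additive.toMul (χ q) : ℂˣ) : ℂ) =
      ((Additive.toMul (χ q₀) : ℂˣ) : ℂ) * ∑ q, ((Additive.toMul (χ q) : ℂˣ) : ℂ) := by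
    rw [Finset.mul_sum, ← Equiv.sum_comp (Equiv.addLeft q₀)]
    refine Finset.sum_congr rfl fun q _ => ?_
    rw [Equiv.coe_addLeft, map_add, toMul_add, Units.val_mul]
  have h2 : (((Additive.toMul (χ q₀) : ℂˣ) : ℂ) - 1) *
      ∑ q, ((Additive.toMul (χ q) : ℂˣ) : ℂ) = 0 := by
    rw [sub_mul, one_mul, ← h1, sub_self]
  rcases mul_eq_zero.1 h2 with h3 | h3
  · exfalso
    apply hq₀
    rw [sub_eq_zero] at h3
    have h4 : Additive.toMul (χ q₀) = 1 := Units.ext h3
    exact h4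
  · exact h3

end H37.HK
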