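import Pool.Agent.H37.HK.Core
import Pool.Agent.H37.HK.ArHecke

/-!
Part B of the Artin-Brauer-Hecke package: final statements.
-/

open NumberField IsDedekindDomain Module Filter Topology
open scoped nonZeroDivisors
open Pool.Agent.H31.CF

namespace H37.HK

theorem coreStmt {F : Type*} [Field F] [NumberField F] : CoreStmt F :=
  fun U hfin htf hpos => core U hfin htf hpos

/-- For every class of ideals modulo `m`, `T` the partial zeta function continues to `ℂ` with a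
simple pole at `1` whose residue does not depend on the class. -/
theorem ray_class_zeta {F : Type*} [Field F] [NumberField F] (m : Ideal (𝓞 F)) (hm : m ≠ ⊥)
    (T : Finset (F →+* ℝ)) :
    ∃ ρ : ℝ, 0 < ρ ∧ ∀ a₁ : Ideal (𝓞 F), a₁ ≠ ⊥ → IsCoprime a₁ m →
      ∃ Z : ℂ → ℂ, DifferentiableOn ℂ Z {1}ᶜ ∧
        Tendsto (fun s => (s - 1) * Z s) (𝓝[≠] 1) (𝓝 (ρ : ℂ)) ∧
        ∀ s : ℂ, 1 < s.re →
          HasSum (fun a : rayClass m T a₁ => ((Ideal.absNorm (a : Ideal (𝓞 F)) : ℕ) : ℂ) ^ (-s))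
            (Z s) :=
  ray_class_zeta_of_core coreStmt m hm T

/-- **Hecke**: the L-series of a function on the ray class group `RCl m = Cop m / Pm m`. -/
theorem hecke {F : Type} [Field F] [NumberField F] (m : Ideal (𝓞 F)) (hm : m ≠ ⊥)
    [Fintype (RCl m)] :
    ∃ ρ : ℝ, 0 < ρ ∧ ∀ f : RCl m → ℂ, ∃ L : ℂ → ℂ, DifferentiableOn ℂ L {1}ᶜ ∧
      Tendsto (fun s => (s - 1) * L s) (𝓝[≠] 1) (𝓝 (ρ * ∑ q, f q)) ∧
      (∑ q, f q = 0 → Differentiable ℂ L) ∧
      ∀ s : ℂ, 1 < s.re →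
        HasSum (fun a : ICop m => f (cls m a) * ((Ideal.absNorm a.1 : ℕ) : ℂ) ^ (-s)) (L s) :=
  hecke_of_core coreStmt m hm

end H37.HK
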