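import Pool.Agent.H37.HK.Iface

/-!
Partial zeta functions of ray classes, part B of the Artin-Brauer-Hecke package (MP_d2121a_nt).
Definitions of the arithmetic ends (helper78, co-editor of helper37).
-/

open NumberField

namespace H37.HK

variable {F : Type*} [Field F] [NumberField F]

/-- Ray class equivalence of ideals modulo `m` and the set `T` of real embeddings: `a ~ b` iff
`α a = β b` with `α ≡ β ≡ 1 mod m`, `αβ > 0` at all `σ ∈ T`. -/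
def RayEquiv (m : Ideal (𝓞 F)) (T : Finset (F →+* ℝ)) (a b : Ideal (𝓞 F)) : Prop :=
  ∃ α β : 𝓞 F, α ≠ 0 ∧ β ≠ 0 ∧ α - 1 ∈ m ∧ β - 1 ∈ m ∧
    (∀ σ ∈ T, 0 < σ ((α * β : 𝓞 F) : F)) ∧ Ideal.span {α} * a = Ideal.span {β} * b

/-- The integral ideals of the ray class of `a₁` modulo `m`, `T`. -/
def rayClass (m : Ideal (𝓞 F)) (T : Finset (F →+* ℝ)) (a₁ : Ideal (𝓞 F)) :
    Set (Ideal (𝓞 F)) :=
  {a | a ≠ ⊥ ∧ IsCoprime a m ∧ RayEquiv m T a a₁}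

/-- The units which are `≡ 1 mod m` and positive at all `σ ∈ T`. -/
def rayUnits (m : Ideal (𝓞 F)) (T : Finset (F →+* ℝ)) : Subgroup (𝓞 F)ˣ where
  carrier := {u | ((u : 𝓞 F)) - 1 ∈ m ∧ ∀ σ ∈ T, 0 < σ ((u : 𝓞 F) : F)}
  one_mem' := by simp
  mul_mem' := by
    rintro a b ⟨ha, ha'⟩ ⟨hb, hb'⟩
    refine ⟨?_, fun σ hσ => ?_⟩
    · have h : ((a * b : (𝓞 F)ˣ) : 𝓞 F) - 1 = (a : 𝓞 F) * ((b : 𝓞 F) - 1) + ((a : 𝓞 F) - 1) := by
        push_cast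
        ring
      rw [h]
      exact m.add_mem (m.mul_mem_left _ hb) ha
    · have := mul_pos (ha' σ hσ) (hb' σ hσ)
      rw [← map_mul] at this
      simpa using this
  inv_mem' := by
    rintro a ⟨ha, ha'⟩
    refine ⟨?_, fun σ hσ => ?_⟩
    · have h : ((a⁻¹ : (𝓞 F)ˣ) : 𝓞 F) - 1 = -(((a⁻¹ : (𝓞 F)ˣ) : 𝓞 F) * ((a : 𝓞 F) - 1)) := by
        rw [mul_sub, Units.inv_mul]
        ring
      rw [h]
      exact m.neg_mem (m.mul_mem_left _ ha)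
    · have h1 : σ (((a⁻¹ : (𝓞 F)ˣ) : 𝓞 F) : F) * σ ((a : 𝓞 F) : F) = 1 := by
        rw [← map_mul]
        have h2 : ((((a⁻¹ : (𝓞 F)ˣ) : 𝓞 F) : F)) * ((a : 𝓞 F) : F) = 1 := by
          have h3 : (((a⁻¹ : (𝓞 F)ˣ) : 𝓞 F)) * ((a : 𝓞 F)) = 1 := Units.inv_mul a
          exact_mod_cast congrArg (fun x : 𝓞 F => (x : F)) h3
        rw [h2, map_one]
      by_contra hle
      push Not at hle
      have := mul_nonpos_of_nonpos_of_nonneg hle (ha' σ hσ).le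
      linarith

/-- The term `sgn_S(x) |N x| ^ (-s)`. -/
noncomputable def cterm (S : Finset (F →+* ℝ)) (s : ℂ) (x : 𝓞 F) : ℂ :=
  sgnS S x * (nrm x : ℂ) ^ (-s)

variable (F) in
/-- The statement of the analytic core (theorem `core` of helper37). -/
def CoreStmt : Prop :=
  ∀ U : Subgroup (𝓞 F)ˣ, U.FiniteIndex → (∀ u ∈ U, IsOfFinOrder u → u = 1) →
    (∀ u ∈ U, ∀ σ : F →+* ℝ, 0 < σ ((u : 𝓞 F) : F)) →
    ∃ K : ℝ, 0 < K ∧ ∀ Lam : Ideal (𝓞 F), Lam ≠ ⊥ → ∀ (a0 : 𝓞 F) (S : Finset (F →+* ℝ)),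
      (∀ u ∈ U, ((u : 𝓞 F) - 1) * a0 ∈ Lam) → ∀ R : Set (𝓞 F), IsReps Lam a0 U R →
      (∀ σ : ℝ, 1 < σ → Summable fun x : R => nrm (x : 𝓞 F) ^ (-σ)) →
      ∃ (P : ℂ → ℂ) (c0 c1 : ℂ), Differentiable ℂ P ∧ (S.Nonempty → c0 = 0 ∧ c1 = 0) ∧
        (S = ∅ → c1 = K / Ideal.absNorm Lam) ∧
        ∀ s : ℂ, 1 < s.re →
          gammaF F S s * ∑' x : R, sgnS S (x : 𝓞 F) * (nrm (x : 𝓞 F) : ℂ) ^ (-s) =
          P s + c0 / s + c1 / (s - 1)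

end H37.HK
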