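import Pool.Agent.H31.CF.Defs
import Pool.Agent.H37.HK.ArInv

/-!
Divisors of ideals (bridge between the ideals of part B and the divisors of part C).
-/

open NumberField IsDedekindDomain Module FractionalIdeal
open scoped nonZeroDivisors
open Pool.Agent.H31.CF

namespace H37.HK

set_option linter.unusedSectionVars false

variable {F : Type} [Field F] [NumberField F]

theorem fdv_apply (I : FractionalIdeal (𝓞 F)⁰ F) (v : HeightOneSpectrum (𝓞 F)) :
    fdv I v = count F v I := rfl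

theorem idv_apply (I : Ideal (𝓞 F)) (v : HeightOneSpectrum (𝓞 F)) :
    idv I v = count F v (I : FractionalIdeal (𝓞 F)⁰ F) := rfl

theorem idv_mul {a b : Ideal (𝓞 F)} (ha : a ≠ ⊥) (hb : b ≠ ⊥) : idv (a * b) = idv a + idv b := by
  ext v
  rw [Finsupp.add_apply, idv_apply, idv_apply, idv_apply, coeIdeal_mul]
  exact count_mul F v (coeIdeal_ne_zero.2 ha) (coeIdeal_ne_zero.2 hb)

theorem idv_one : idv (1 : Ideal (𝓞 F)) = 0 := by
  ext v
  rw [idv_apply, Ideal.one_eq_top, coeIdeal_top, count_one]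
  rfl

theorem idv_span (α : 𝓞 F) : idv (Ideal.span {α}) = dv (α : F) := by
  rw [idv, dv, coeIdeal_span_singleton]

theorem idv_inj {a b : Ideal (𝓞 F)} (ha : a ≠ ⊥) (hb : b ≠ ⊥) (h : idv a = idv b) : a = b := by
  have h1 : (a : FractionalIdeal (𝓞 F)⁰ F) = b := by
    rw [← finprod_heightOneSpectrum_factorization' F (coeIdeal_ne_zero.2 ha),
      ← finprod_heightOneSpectrum_factorization' F (coeIdeal_ne_zero.2 hb)]
    refine finprod_congr fun v => ?_
    have h2 := DFunLike.congr_fun h v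
    rw [idv_apply, idv_apply] at h2
    rw [h2]
  exact coeIdeal_injective h1

theorem idv_nonneg (a : Ideal (𝓞 F)) (v : HeightOneSpectrum (𝓞 F)) : 0 ≤ idv a v :=
  count_coe_nonneg F v a

theorem idv_prime (w : HeightOneSpectrum (𝓞 F)) :
    idv w.asIdeal = Finsupp.single w 1 := by
  classical
  ext v
  rw [idv_apply, count_maximal, Finsupp.single_apply]

theorem idv_eq_zero_iff {a : Ideal (𝓞 F)} (ha : a ≠ ⊥) (v : HeightOneSpectrum (𝓞 F)) :
    idv a v = 0 ↔ ¬ a ≤ v.asIdeal := by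
  classical
  rw [idv_apply, count_coe F v ha, Nat.cast_eq_zero]
  have h1 := Associates.count_ne_zero_iff_dvd ha v.irreducible
  rw [Ideal.dvd_iff_le] at h1
  tauto

theorem idv_mem_Cop_iff {a m : Ideal (𝓞 F)} (ha : a ≠ ⊥) :
    idv a ∈ Cop m ↔ IsCoprime a m := by
  constructor
  · intro h
    by_contra hc
    have h1 : a ⊔ m ≠ ⊤ := by
      rwa [ne_eq, ← Ideal.isCoprime_iff_sup_eq]
    obtain ⟨M, hM, hM'⟩ := Ideal.exists_le_maximal _ h1
    have hM0 : M ≠ ⊥ := by
      rintro rfl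
      exact ha (le_bot_iff.1 (le_sup_left.trans hM'))
    let v : HeightOneSpectrum (𝓞 F) := ⟨M, hM.isPrime, hM0⟩
    have h2 : idv a v = 0 := h v (le_sup_right.trans hM')
    rw [idv_eq_zero_iff ha] at h2
    exact h2 (le_sup_left.trans hM')
  · intro h v hv
    rw [idv_eq_zero_iff ha]
    intro hav
    have h1 : a ⊔ m ≤ v.asIdeal := sup_le hav hv
    rw [Ideal.isCoprime_iff_sup_eq.1 h] at h1
    exact v.isPrime.ne_top (top_le_iff.1 h1)

/-- An effective divisor is the divisor of an ideal. -/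
theorem exists_idv_eq (D : Dv F) (hD : ∀ v, 0 ≤ D v) : ∃ a : Ideal (𝓞 F), a ≠ ⊥ ∧ idv a = D := by
  induction D using Finsupp.induction with
  | zero => exact ⟨1, by simp, idv_one⟩
  | single_add v n D hv hn ih =>
    have h1 : ∀ w, 0 ≤ D w := by
      intro w
      by_cases hwv : w = v
      · subst hwv
        rw [Finsupp.notMem_support_iff.1 hv]
      · have := hD w
        rwa [Finsupp.add_apply, Finsupp.single_eq_of_ne hwv, zero_add] at this
    have h2 : 0 ≤ n := by
      have := hD v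
      rwa [Finsupp.add_apply, Finsupp.single_eq_same, Finsupp.notMem_support_iff.1 hv,
        add_zero] at this
    obtain ⟨a, ha, haD⟩ := ih h1
    obtain ⟨k, rfl⟩ := Int.eq_ofNat_of_zero_le h2
    refine ⟨v.asIdeal ^ k * a, mul_ne_zero (pow_ne_zero _ v.ne_bot) ha, ?_⟩
    rw [idv_mul (pow_ne_zero _ v.ne_bot) ha, haD]
    congr 1
    clear hn hD h2 haD ha h1 hv
    induction k with
    | zero => rw [pow_zero, idv_one]; simp
    | succ k ih =>
      rw [pow_succ, idv_mul (pow_ne_zero _ v.ne_bot) v.ne_bot, ih, idv_prime,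
        ← Finsupp.single_add]
      push_cast
      rfl

/-- Elements of `Pm m`. -/
theorem mem_Pm_iff (m : Ideal (𝓞 F)) (D : Dv F) :
    D ∈ Pm m ↔ ∃ α β : 𝓞 F, α ≠ 0 ∧ β ≠ 0 ∧ α - 1 ∈ m ∧ β - 1 ∈ m ∧ TP (α : F) ∧ TP (β : F) ∧
      D = dv (α : F) - dv (β : F) := by
  constructor
  · intro h
    refine AddSubgroup.closure_induction ?_ ?_ ?_ ?_ h
    · rintro D ⟨α, hα, hα1, hαT, rfl⟩
      refine ⟨α, 1, hα, one_ne_zero, hα1, by simp, hαT, fun φ => by simp, ?_⟩
      rw [← idv_span 1, Ideal.span_singleton_one, ← Ideal.one_eq_top, idv_one, sub_zero]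
    · refine ⟨1, 1, one_ne_zero, one_ne_zero, by simp, by simp, fun φ => by simp,
        fun φ => by simp, by simp⟩
    · rintro D D' - - ⟨α, β, hα, hβ, hα1, hβ1, hαT, hβT, rfl⟩
        ⟨α', β', hα', hβ', hα1', hβ1', hαT', hβT', rfl⟩
      refine ⟨α * α', β * β', mul_ne_zero hα hα', mul_ne_zero hβ hβ', ?_, ?_, ?_, ?_, ?_⟩
      · have : α * α' - 1 = α * (α' - 1) + (α - 1) := by ring
        rw [this]
        exact m.add_mem (m.mul_mem_left _ hα1') hα1
      · have : β * β' - 1 = β * (β' - 1) + (β - 1) := by ring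
        rw [this]
        exact m.add_mem (m.mul_mem_left _ hβ1') hβ1
      · intro φ
        have h8 : ((α * α' : 𝓞 F) : F) = (α : F) * (α' : F) := by push_cast; rfl
        rw [h8, RingHom.map_mul φ]
        exact mul_pos (hαT φ) (hαT' φ)
      · intro φ
        have h8 : ((β * β' : 𝓞 F) : F) = (β : F) * (β' : F) := by push_cast; rfl
        rw [h8, RingHom.map_mul φ]
        exact mul_pos (hβT φ) (hβT' φ)
      · rw [← idv_span, ← idv_span, ← idv_span, ← idv_span, ← idv_span, ← idv_span,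
          ← Ideal.span_singleton_mul_span_singleton, ← Ideal.span_singleton_mul_span_singleton,
          idv_mul, idv_mul]
        · abel
        all_goals rwa [ne_eq, Ideal.span_singleton_eq_bot]
    · rintro D - ⟨α, β, hα, hβ, hα1, hβ1, hαT, hβT, rfl⟩
      exact ⟨β, α, hβ, hα, hβ1, hα1, hβT, hαT, by abel⟩
  · rintro ⟨α, β, hα, hβ, hα1, hβ1, hαT, hβT, rfl⟩
    exact (Pm m).sub_mem (AddSubgroup.subset_closure ⟨α, hα, hα1, hαT, rfl⟩)
      (AddSubgroup.subset_closure ⟨β, hβ, hβ1, hβT, rfl⟩)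

theorem rayEquiv_iff {m a b : Ideal (𝓞 F)} (ha : a ≠ ⊥) (hb : b ≠ ⊥) :
    RayEquiv m Finset.univ a b ↔ idv a - idv b ∈ Pm m := by
  rw [mem_Pm_iff]
  constructor
  · rintro ⟨α, β, hα, hβ, hα1, hβ1, hT, h⟩
    have h0 : idv a - idv b = dv (β : F) - dv (α : F) := by
      have h1 := congrArg idv h
      rw [idv_mul (by rwa [ne_eq, Ideal.span_singleton_eq_bot]) ha,
        idv_mul (by rwa [ne_eq, Ideal.span_singleton_eq_bot]) hb, idv_span, idv_span] at h1
      rw [sub_eq_sub_iff_add_eq_add, add_comm, h1, add_comm]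
    refine ⟨α * β, α * α, mul_ne_zero hα hβ, mul_ne_zero hα hα, ?_, ?_, ?_, ?_, ?_⟩
    · have : α * β - 1 = α * (β - 1) + (α - 1) := by ring
      rw [this]
      exact m.add_mem (m.mul_mem_left _ hβ1) hα1
    · have : α * α - 1 = α * (α - 1) + (α - 1) := by ring
      rw [this]
      exact m.add_mem (m.mul_mem_left _ hα1) hα1
    · intro φ
      exact hT φ (Finset.mem_univ φ)
    · intro φ
      have h8 : ((α * α : 𝓞 F) : F) = (α : F) * (α : F) := by push_cast; rfl
      rw [h8, RingHom.map_mul φ]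
      have h9 : φ (α : F) ≠ 0 := by
        rw [ne_eq, map_eq_zero]
        exact_mod_cast hα
      exact mul_self_pos.2 h9
    · rw [h0, ← idv_span, ← idv_span, ← idv_span (α * β), ← idv_span (α * α),
        ← Ideal.span_singleton_mul_span_singleton, ← Ideal.span_singleton_mul_span_singleton,
        idv_mul, idv_mul]
      · abel
      all_goals rwa [ne_eq, Ideal.span_singleton_eq_bot]
  · rintro ⟨α, β, hα, hβ, hα1, hβ1, hαT, hβT, h⟩
    refine ⟨β, α, hβ, hα, hβ1, hα1, ?_, ?_⟩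
    · intro φ _
      have h8 : ((β * α : 𝓞 F) : F) = (β : F) * (α : F) := by push_cast; rfl
      rw [h8, RingHom.map_mul φ]
      exact mul_pos (hβT φ) (hαT φ)
    · have hα' : Ideal.span {α} ≠ ⊥ := by rwa [ne_eq, Ideal.span_singleton_eq_bot]
      have hβ' : Ideal.span {β} ≠ ⊥ := by rwa [ne_eq, Ideal.span_singleton_eq_bot]
      apply idv_inj (mul_ne_zero hβ' ha) (mul_ne_zero hα' hb)
      rw [idv_mul hβ' ha, idv_mul hα' hb, idv_span, idv_span]
      rw [sub_eq_sub_iff_add_eq_add] at h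
      rw [add_comm, h]

end H37.HK
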