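import Pool.Agent.H37.HK.ArDv

/-!
Every ray class contains an integral ideal; there are finitely many ray classes.
-/

open NumberField IsDedekindDomain Module
open scoped nonZeroDivisors
open Pool.Agent.H31.CF

namespace H37.HK

set_option linter.unusedSectionVars false

variable {F : Type} [Field F] [NumberField F]

theorem dv_mem_Pm {m : Ideal (𝓞 F)} {γ : 𝓞 F} (hγ0 : γ ≠ 0) (hγ : γ - 1 ∈ m)
    (hγT : TP (γ : F)) : dv (γ : F) ∈ Pm m :=
  AddSubgroup.subset_closure ⟨γ, hγ0, hγ, hγT, rfl⟩

/-- Every class contains an integral ideal. -/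
theorem exists_integral (m : Ideal (𝓞 F)) (hm : m ≠ ⊥) (D : Dv F) (hD : D ∈ Cop m) :
    ∃ a : Ideal (𝓞 F), a ≠ ⊥ ∧ IsCoprime a m ∧ idv a - D ∈ Pm m := by
  classical
  let N : Dv F := D.mapRange (fun n => max (-n) 0) (by simp)
  let P : Dv F := D.mapRange (fun n => max n 0) (by simp)
  have hDPN : D = P - N := by
    ext v
    simp only [P, N, Finsupp.sub_apply, Finsupp.mapRange_apply]
    omega
  have hN : ∀ v, 0 ≤ N v := fun v => by simp [N]
  have hP : ∀ v, 0 ≤ P v := fun v => by simp [P]
  have hNC : N ∈ Cop m := fun v hv => by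
    have := hD v hv
    simp only [N, Finsupp.mapRange_apply, this]
    simp
  have hPC : P ∈ Cop m := fun v hv => by
    have := hD v hv
    simp only [P, Finsupp.mapRange_apply, this]
    simp
  obtain ⟨b, hb, hbN⟩ := exists_idv_eq N hN
  obtain ⟨p, hp, hpP⟩ := exists_idv_eq P hP
  have hbc : IsCoprime b m := (idv_mem_Cop_iff hb).1 (hbN ▸ hNC)
  have hpc : IsCoprime p m := (idv_mem_Cop_iff hp).1 (hpP ▸ hPC)
  obtain ⟨c, hc, hcc, γ, hγ0, hγ, hγT, hbcγ⟩ := exists_inverse m hm b hb hbc
  refine ⟨p * c, mul_ne_zero hp hc, hpc.mul_left hcc, ?_⟩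
  have h1 : idv b + idv c = dv (γ : F) := by
    rw [← idv_mul hb hc, hbcγ, idv_span]
  have h2 : idv (p * c) - D = dv (γ : F) := by
    rw [idv_mul hp hc, hpP, hDPN, ← h1, hbN]
    abel
  rw [h2]
  exact dv_mem_Pm hγ0 hγ hγT

/-- The group of ray classes. -/
abbrev RCl (m : Ideal (𝓞 F)) : Type := Cop m ⧸ (Pm m).addSubgroupOf (Cop m)

theorem finite_RCl (m : Ideal (𝓞 F)) (hm : m ≠ ⊥) : Finite (RCl m) := by
  classical
  have hfinq : Finite (𝓞 F ⧸ m) := Ideal.finiteQuotientOfFreeOfNeBot m hm
  -- integral representatives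
  have hrep : ∀ q : RCl m, ∃ a : Ideal (𝓞 F), ∃ (ha : a ≠ ⊥) (hc : IsCoprime a m),
      (QuotientAddGroup.mk ⟨idv a, (idv_mem_Cop_iff ha).2 hc⟩ : RCl m) = q := by
    intro q
    induction q using QuotientAddGroup.induction_on with
    | H D =>
      obtain ⟨a, ha, hc, h⟩ := exists_integral m hm D.1 D.2
      refine ⟨a, ha, hc, ?_⟩
      rw [QuotientAddGroup.eq, AddSubgroup.mem_addSubgroupOf]
      have h2 := (Pm m).neg_mem h
      have h3 : ((-(⟨idv a, (idv_mem_Cop_iff ha).2 hc⟩ : Cop m) + D : Cop m) : Dv F) =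
          -(idv a - D) := by
        push_cast
        abel
      rw [h3]
      exact h2
  choose a ha hac haq using hrep
  -- ideal classes and representatives coprime to `m`
  let κ : RCl m → ClassGroup (𝓞 F) := fun q =>
    ClassGroup.mk0 ⟨a q, mem_nonZeroDivisors_of_ne_zero (ha q)⟩
  let r : ClassGroup (𝓞 F) → RCl m := fun c => if h : ∃ q, κ q = c then h.choose else 0
  have hr : ∀ q, κ (r (κ q)) = κ q := by
    intro q
    have h : ∃ q', κ q' = κ q := ⟨q, rfl⟩
    simp only [r, dif_pos h]
    exact h.choose_spec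
  have hinv := fun q => exists_inverse m hm (a q) (ha q) (hac q)
  choose a' ha' hac' γ hγ0 hγ hγT haa using hinv
  -- `b_c a* = (δ)`
  have hδ : ∀ q, ∃ δ : 𝓞 F, a (r (κ q)) * a' q = Ideal.span {δ} := by
    intro q
    have h1 : κ (r (κ q)) = κ q := hr q
    simp only [κ] at h1
    rw [ClassGroup.mk0_eq_mk0_iff] at h1
    obtain ⟨x, y, hx, hy, hxy⟩ := h1
    simp only at hxy
    -- `x a_r = y a_q`
    have h2 : Ideal.span {x} * (a (r (κ q)) * a' q) = Ideal.span {y * γ q} := by
      rw [← mul_assoc]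
      simp only [κ] at hxy ⊢
      rw [hxy, mul_assoc, haa, Ideal.span_singleton_mul_span_singleton]
    have h3 : Ideal.span {y * γ q} ≤ Ideal.span {x} := by
      rw [← h2]
      exact Ideal.mul_le_left (I := Ideal.span {x})
    obtain ⟨δ, hδ⟩ : x ∣ y * γ q := Ideal.span_singleton_le_span_singleton.1 h3
    refine ⟨δ, ?_⟩
    rw [hδ, ← Ideal.span_singleton_mul_span_singleton] at h2
    have h0 : Ideal.span {x} ≠ ⊥ := by rwa [ne_eq, Ideal.span_singleton_eq_bot]
    exact mul_left_cancel₀ h0 h2
  choose δ hδ using hδ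
  have hδ0 : ∀ q, δ q ≠ 0 := by
    intro q h0
    have := hδ q
    rw [h0] at this
    rw [Ideal.span_singleton_eq_bot.2 rfl] at this
    exact mul_ne_zero (ha _) (ha' q) this
  -- the invariants
  let inv : RCl m → ClassGroup (𝓞 F) × (𝓞 F ⧸ m) × ((F →+* ℝ) → SignType) := fun q =>
    (κ q, Ideal.Quotient.mk m (δ q), fun σ => SignType.sign (σ (δ q : F)))
  have hinj : Function.Injective inv := by
    intro q q' h
    have e1 : κ q = κ q' := congrArg Prod.fst h
    have e2 : Ideal.Quotient.mk m (δ q) = Ideal.Quotient.mk m (δ q') :=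
      congrArg (fun p => p.2.1) h
    have e3 : ∀ σ : F →+* ℝ, SignType.sign (σ (δ q : F)) = SignType.sign (σ (δ q' : F)) :=
      fun σ => congrFun (congrArg (fun p => p.2.2) h) σ
    -- an inverse of `δ` modulo `m`
    have hcδ : IsCoprime (Ideal.span {δ q}) m := by
      rw [← hδ q]
      exact (hac _).mul_left (hac' q)
    obtain ⟨x, hx, y, hy, hxy⟩ := (Ideal.isCoprime_iff_exists).1 hcδ
    obtain ⟨η, rfl⟩ := Ideal.mem_span_singleton'.1 hx
    have hη1 : η * δ q - 1 ∈ m := by
      have : η * δ q - 1 = -y := by linear_combination hxy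
      rw [this]
      exact m.neg_mem hy
    have hη2 : η * δ q' - 1 ∈ m := by
      have h5 : δ q' - δ q ∈ m := by
        rw [← Ideal.Quotient.eq]
        exact e2.symm
      have : η * δ q' - 1 = η * (δ q' - δ q) + (η * δ q - 1) := by ring
      rw [this]
      exact m.add_mem (m.mul_mem_left _ h5) hη1
    have hη0 : ∃ η' : 𝓞 F, η' ≠ 0 ∧ η' * δ q - 1 ∈ m ∧ η' * δ q' - 1 ∈ m := by
      by_cases hη : η = 0
      · -- then `1 ∈ m`
        subst hη
        have h1 : (1 : 𝓞 F) ∈ m := by
          have := m.neg_mem hη1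
          simpa using this
        rw [← Ideal.eq_top_iff_one] at h1
        exact ⟨1, one_ne_zero, by rw [h1]; trivial, by rw [h1]; trivial⟩
      · exact ⟨η, hη, hη1, hη2⟩
    obtain ⟨η', hη', h6, h7⟩ := hη0
    -- `(η δ γ') a' = (η δ' γ) a`
    have hkey : RayEquiv m Finset.univ (a q) (a q') := by
      refine ⟨η' * δ q * γ q', η' * δ q' * γ q, mul_ne_zero (mul_ne_zero hη' (hδ0 q)) (hγ0 q'),
        mul_ne_zero (mul_ne_zero hη' (hδ0 q')) (hγ0 q), ?_, ?_, ?_, ?_⟩
      · have : η' * δ q * γ q' - 1 = η' * δ q * (γ q' - 1) + (η' * δ q - 1) := by ring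
        rw [this]
        exact m.add_mem (m.mul_mem_left _ (hγ q')) h6
      · have : η' * δ q' * γ q - 1 = η' * δ q' * (γ q - 1) + (η' * δ q' - 1) := by ring
        rw [this]
        exact m.add_mem (m.mul_mem_left _ (hγ q)) h7
      · intro σ _
        have h8 : σ ((η' * δ q * γ q' * (η' * δ q' * γ q) : 𝓞 F) : F) =
            σ (η' : F) ^ 2 * (σ (δ q : F) * σ (δ q' : F)) * (σ (γ q : F) * σ (γ q' : F)) := by
          have h9 : ((η' * δ q * γ q' * (η' * δ q' * γ q) : 𝓞 F) : F) =
              (η' : F) ^ 2 * ((δ q : F) * (δ q' : F)) * ((γ q : F) * (γ q' : F)) := by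
            push_cast
            ring
          rw [h9]
          simp only [map_mul, map_pow]
        rw [h8]
        have h10 : ∀ z : 𝓞 F, z ≠ 0 → σ (z : F) ≠ 0 := by
          intro z hz
          rw [ne_eq, map_eq_zero]
          exact_mod_cast hz
        have h11 : 0 < σ (δ q : F) * σ (δ q' : F) := by
          have h12 := e3 σ
          rcases lt_or_gt_of_ne (h10 _ (hδ0 q)) with h | h
          · rw [sign_neg h] at h12
            exact mul_pos_of_neg_of_neg h (sign_eq_neg_one_iff.1 h12.symm)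
          · rw [sign_pos h] at h12
            exact mul_pos h (sign_eq_one_iff.1 h12.symm)
        have h13 : 0 < σ (η' : F) ^ 2 := by
          have := h10 _ hη'
          positivity
        exact mul_pos (mul_pos h13 h11) (mul_pos (hγT q σ) (hγT q' σ))
      · -- as ideals, cancel `a' q * a' q'`
        have h8 : (Ideal.span {η' * δ q * γ q'} * a q) * (a' q * a' q') =
            (Ideal.span {η' * δ q' * γ q} * a q') * (a' q * a' q') := by
          have hL : (Ideal.span {η' * δ q * γ q'} * a q) * (a' q * a' q') =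
              Ideal.span {η'} * Ideal.span {δ q} * Ideal.span {γ q'} * (a q * a' q) * a' q' := by
            rw [Ideal.span_singleton_mul_span_singleton, Ideal.span_singleton_mul_span_singleton]
            ring
          have hR : (Ideal.span {η' * δ q' * γ q} * a q') * (a' q * a' q') =
              Ideal.span {η'} * Ideal.span {δ q'} * Ideal.span {γ q} * (a q' * a' q') * a' q := by
            rw [Ideal.span_singleton_mul_span_singleton, Ideal.span_singleton_mul_span_singleton]
            ring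
          rw [hL, hR, haa, haa, ← hδ q, ← hδ q', e1]
          ring
        exact mul_right_cancel₀ (mul_ne_zero (ha' q) (ha' q')) h8
    rw [rayEquiv_iff (ha q) (ha q')] at hkey
    rw [← haq q, ← haq q', QuotientAddGroup.eq, AddSubgroup.mem_addSubgroupOf]
    have h9 := (Pm m).neg_mem hkey
    convert h9 using 1
    push_cast
    abel
  exact Finite.of_injective inv hinj

end H37.HK
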