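import Pool.Agent.H37.HK.ArDefs

/-!
Ideals of a ray class and elements of a coset.
-/

open NumberField

namespace H37.HK

set_option linter.unusedSectionVars false

variable {F : Type*} [Field F] [NumberField F]

/-- Membership in the coset `γ + b m`: divisible by `b` and `≡ 1 mod m`. -/
theorem sub_mem_mul_iff {m b : Ideal (𝓞 F)} (hc : IsCoprime b m) {γ : 𝓞 F} (hγb : γ ∈ b)
    (hγ : γ - 1 ∈ m) (x : 𝓞 F) : x - γ ∈ b * m ↔ x ∈ b ∧ x - 1 ∈ m := by
  rw [Ideal.mul_eq_inf_of_isCoprime hc, Ideal.mem_inf]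
  constructor
  · rintro ⟨h1, h2⟩
    exact ⟨by simpa using b.add_mem h1 hγb, by simpa using m.add_mem h2 hγ⟩
  · rintro ⟨h1, h2⟩
    exact ⟨b.sub_mem h1 hγb, by simpa using m.sub_mem h2 hγ⟩

theorem mem_rayClass_iff {m : Ideal (𝓞 F)} {T : Finset (F →+* ℝ)} {a₁ b : Ideal (𝓞 F)}
    (hb : b ≠ ⊥) (hcb : IsCoprime b m) {γ : 𝓞 F}
    (hγ0 : γ ≠ 0) (hγ : γ - 1 ∈ m) (hγT : ∀ σ ∈ T, 0 < σ (γ : F))
    (hab : a₁ * b = Ideal.span {γ}) (a : Ideal (𝓞 F)) :
    a ∈ rayClass m T a₁ ↔ ∃ x : 𝓞 F, x ≠ 0 ∧ x - γ ∈ b * m ∧ (∀ σ ∈ T, 0 < σ (x : F)) ∧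
      a * b = Ideal.span {x} := by
  have hγb : γ ∈ b := by
    have h : γ ∈ a₁ * b := by
      rw [hab]
      exact Ideal.mem_span_singleton_self γ
    exact Ideal.mul_le_right h
  constructor
  · rintro ⟨ha0, hca, α, β, hα, hβ, hα1, hβ1, hT, h⟩
    -- `α a b = β γ`
    have h1 : Ideal.span {α} * (a * b) = Ideal.span {β * γ} := by
      rw [← mul_assoc, h, mul_assoc, hab, Ideal.span_singleton_mul_span_singleton]
    have h2 : Ideal.span {β * γ} ≤ Ideal.span {α} := by
      rw [← h1]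
      exact Ideal.mul_le_left (I := Ideal.span {α}) (J := a * b)
    obtain ⟨x, hx⟩ : α ∣ β * γ := Ideal.span_singleton_le_span_singleton.1 h2
    have hx0 : x ≠ 0 := by
      rintro rfl
      rw [mul_zero] at hx
      exact (mul_ne_zero hβ hγ0) hx
    have h3 : a * b = Ideal.span {x} := by
      rw [hx, ← Ideal.span_singleton_mul_span_singleton] at h1
      have h0 : Ideal.span {α} ≠ ⊥ := by rwa [ne_eq, Ideal.span_singleton_eq_bot]
      exact mul_left_cancel₀ h0 h1
    have hxb : x ∈ b := by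
      have h : x ∈ a * b := by
        rw [h3]
        exact Ideal.mem_span_singleton_self x
      exact Ideal.mul_le_right h
    have hx1 : x - 1 ∈ m := by
      have h4 : x - 1 = (β * (γ - 1) + (β - 1)) - x * (α - 1) := by
        linear_combination -hx
      rw [h4]
      exact m.sub_mem (m.add_mem (m.mul_mem_left _ hγ) hβ1) (m.mul_mem_left _ hα1)
    refine ⟨x, hx0, (sub_mem_mul_iff hcb hγb hγ x).2 ⟨hxb, hx1⟩, fun σ hσ => ?_, h3⟩
    have h5 := hT σ hσ
    have h6 := hγT σ hσ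
    have h7 : σ ((β : F)) * σ (γ : F) = σ (α : F) * σ (x : F) := by
      have h11 : (β : F) * (γ : F) = (α : F) * (x : F) := by
        have h12 := congrArg (fun y : 𝓞 F => (y : F)) hx
        simpa using h12
      rw [← RingHom.map_mul σ, ← RingHom.map_mul σ, h11]
    have h8 : ((α * β : 𝓞 F) : F) = (α : F) * (β : F) := by push_cast; rfl
    rw [h8, map_mul] at h5
    have h9 : 0 < (σ (α : F) * σ (β : F)) * σ (γ : F) := mul_pos h5 h6
    have h10 : (σ (α : F) * σ (β : F)) * σ (γ : F) = σ (α : F) ^ 2 * σ (x : F) := by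
      rw [mul_assoc, h7]
      ring
    rw [h10] at h9
    by_contra hle
    push Not at hle
    have := mul_nonpos_of_nonneg_of_nonpos (sq_nonneg (σ (α : F))) hle
    linarith
  · rintro ⟨x, hx0, hx, hxT, h⟩
    obtain ⟨hxb, hx1⟩ := (sub_mem_mul_iff hcb hγb hγ x).1 hx
    refine ⟨?_, ?_, γ, x, hγ0, hx0, hγ, hx1, fun σ hσ => ?_, ?_⟩
    · rintro rfl
      rw [Ideal.bot_mul, eq_comm, Ideal.span_singleton_eq_bot] at h
      exact hx0 h
    · have h1 : IsCoprime (Ideal.span {x}) m := by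
        rw [Ideal.isCoprime_iff_exists]
        exact ⟨x, Ideal.mem_span_singleton_self x, 1 - x, by
          rw [← neg_sub]; exact m.neg_mem hx1, by ring⟩
      rw [← h] at h1
      exact IsCoprime.of_mul_left_left h1
    · have h8 : ((γ * x : 𝓞 F) : F) = (γ : F) * (x : F) := by push_cast; rfl
      rw [h8, map_mul]
      exact mul_pos (hγT σ hσ) (hxT σ hσ)
    · have h2 : (Ideal.span {γ} * a) * b = (Ideal.span {x} * a₁) * b := by
        rw [mul_assoc, h, mul_assoc, hab, mul_comm]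
      exact mul_right_cancel₀ hb h2

/-- Two generators of the same ideal which are `≡ 1 mod m` and positive at `T` differ by a
unit with the same properties. -/
theorem exists_rayUnit {m : Ideal (𝓞 F)} {T : Finset (F →+* ℝ)} {x y : 𝓞 F}
    (hx : x - 1 ∈ m) (hy : y - 1 ∈ m) (hxT : ∀ σ ∈ T, 0 < σ (x : F))
    (hyT : ∀ σ ∈ T, 0 < σ (y : F)) (h : Ideal.span {x} = Ideal.span {y}) :
    ∃ u ∈ rayUnits m T, (u : 𝓞 F) * x = y := by
  obtain ⟨u, hu⟩ := Ideal.span_singleton_eq_span_singleton.1 h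
  refine ⟨u, ⟨?_, fun σ hσ => ?_⟩, by rw [mul_comm]; exact hu⟩
  · have h1 : (u : 𝓞 F) - 1 = (y - 1) - (u : 𝓞 F) * (x - 1) := by
      linear_combination hu
    rw [h1]
    exact m.sub_mem hy (m.mul_mem_left _ hx)
  · have h2 : σ (x : F) * σ ((u : 𝓞 F) : F) = σ (y : F) := by
      rw [← map_mul]
      congr 1
      have h11 := congrArg (fun y : 𝓞 F => (y : F)) hu
      simpa using h11
    have h3 := hxT σ hσ
    have h4 := hyT σ hσ
    rw [← h2] at h4
    exact (pos_iff_pos_of_mul_pos h4).1 h3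

end H37.HK
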