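import Pool.Agent.H37.HK.ArDefs

/-!
A torsion free subgroup of finite index of the unit group, consisting of totally positive units
congruent to `1` modulo `m`: the `N`-th powers, `N = 2 * #torsion * #(𝓞 F / m)ˣ`.
-/

open NumberField

namespace H37.HK

variable {F : Type*} [Field F] [NumberField F]

theorem exists_unitGroup (m : Ideal (𝓞 F)) (hm : m ≠ ⊥) :
    ∃ U : Subgroup (𝓞 F)ˣ, U.FiniteIndex ∧ (∀ u ∈ U, IsOfFinOrder u → u = 1) ∧
      (∀ u ∈ U, ∀ σ : F →+* ℝ, 0 < σ ((u : 𝓞 F) : F)) ∧ ∀ u ∈ U, (u : 𝓞 F) - 1 ∈ m := by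
  have hfinq : Finite (𝓞 F ⧸ m) := Ideal.finiteQuotientOfFreeOfNeBot m hm
  have hfg : Group.FG (𝓞 F)ˣ := Group.fg_iff_monoid_fg.2 inferInstance
  let N : ℕ := 2 * (Nat.card (Units.torsion F)) * Nat.card (𝓞 F ⧸ m)ˣ
  have hN : N ≠ 0 := by
    have h1 : Nat.card (Units.torsion F) ≠ 0 := Nat.card_pos.ne'
    have h2 : Nat.card (𝓞 F ⧸ m)ˣ ≠ 0 := Nat.card_pos.ne'
    positivity
  refine ⟨(powMonoidHom (α := (𝓞 F)ˣ) N).range,
    Subgroup.finiteIndex_range_powMonoidHom_of_fg _ hN, ?_, ?_, ?_⟩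
  · rintro _ ⟨v, rfl⟩ hv
    rw [powMonoidHom_apply] at hv ⊢
    have hv' : IsOfFinOrder v := by
      rw [isOfFinOrder_iff_pow_eq_one] at hv ⊢
      obtain ⟨n, hn, hn'⟩ := hv
      exact ⟨N * n, Nat.mul_pos (Nat.pos_of_ne_zero hN) hn, by rw [pow_mul, hn']⟩
    have hv2 : v ∈ Units.torsion F := hv'
    have h3 : (⟨v, hv2⟩ : Units.torsion F) ^ Nat.card (Units.torsion F) = 1 := pow_card_eq_one'
    have h4 : v ^ Nat.card (Units.torsion F) = 1 := by
      have := congrArg Subtype.val h3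
      exact this
    have h5 : N = Nat.card (Units.torsion F) * (2 * Nat.card (𝓞 F ⧸ m)ˣ) := by
      simp only [N]
      ring
    rw [h5, pow_mul, h4, one_pow]
  · rintro _ ⟨v, rfl⟩ σ
    rw [powMonoidHom_apply]
    have h5 : N = 2 * (Nat.card (Units.torsion F) * Nat.card (𝓞 F ⧸ m)ˣ) := by
      simp only [N]
      ring
    have h6 : (((v ^ N : (𝓞 F)ˣ) : 𝓞 F) : F) = ((v : 𝓞 F) : F) ^ N := by
      push_cast
      rfl
    rw [h6, map_pow, h5, pow_mul]
    apply pow_pos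
    have h9 : σ ((v : 𝓞 F) : F) ≠ 0 := by
      rw [ne_eq, map_eq_zero]
      exact_mod_cast v.ne_zero
    positivity
  · rintro _ ⟨v, rfl⟩
    rw [powMonoidHom_apply]
    have h7 : (Units.map (Ideal.Quotient.mk m : 𝓞 F →* 𝓞 F ⧸ m) v) ^ N = 1 := by
      simp only [N]
      rw [mul_comm, pow_mul, pow_card_eq_one', one_pow]
    rw [← Ideal.Quotient.eq]
    have h8 := congrArg (Units.val) h7
    simpa using h8

end H37.HK
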