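import Pool.Agent.H37.HK.Defs

/-!
# PhiBd: elementary bounds for `phi`

`phi_bd`: `|phi S t v| ≤ exp (-(π/2) ∑ t_j v_j²)` for `t ≥ 0`: for each `j ∈ S`,
`|√t_j v_j| ≤ exp ((π/2) t_j v_j²)` because `y ≤ exp (π y²/2)` for `y ≥ 0`
(`exp z ≥ 1 + z` and `1 + π y²/2 ≥ 1 + y²/4·... ≥ y`; e.g. `1 + π y²/2 ≥ 1 + y²/2·... `, use
`π > 3` and `1 + 3y²/2 ≥ y`), and for `j ∉ S` the factor `exp ((π/2) t_j v_j²) ≥ 1`.

`phi_half`: the same with `phi ∅ (t/2)`: `phi ∅ (fun j => t j / 2) v = exp (-(π/2) ∑ t_j v_j²)`.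

`phi_zero`: the value at `v = 0` is `1` if `S = ∅` and `0` otherwise.

`phi_cont`: joint continuity; `phi_pos_empty`: positivity for `S = ∅`.
-/

open NumberField Complex

namespace H37.HK

variable {J : Type*} [Fintype J] [DecidableEq J]

private theorem phiBd_one (t v : ℝ) (ht : 0 ≤ t) :
    |√t * v| ≤ Real.exp (Real.pi / 2 * (t * v ^ 2)) := by
  have h1 : t * v ^ 2 = |√t * v| ^ 2 := by
    rw [sq_abs, mul_pow, Real.sq_sqrt ht]
  rw [h1]
  set y := |√t * v| with hy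
  have hpi := Real.pi_gt_three
  have h2 := Real.add_one_le_exp (Real.pi / 2 * y ^ 2)
  have h3 : y ≤ Real.pi / 2 * y ^ 2 + 1 := by nlinarith [sq_nonneg (y - 1), sq_nonneg y]
  exact h3.trans h2

theorem phi_bd (S : Finset J) (t v : J → ℝ) (ht : ∀ j, 0 ≤ t j) :
    |phi S t v| ≤ Real.exp (-(Real.pi / 2) * ∑ j, t j * v j ^ 2) := by
  unfold phi
  rw [abs_mul, Real.abs_exp, Finset.abs_prod]
  have h1 : ∏ j ∈ S, |√(t j) * v j| ≤ ∏ j ∈ S, Real.exp (Real.pi / 2 * (t j * v j ^ 2)) :=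
    Finset.prod_le_prod (fun _ _ => abs_nonneg _) (fun j _ => phiBd_one _ _ (ht j))
  have h2 : ∏ j ∈ S, Real.exp (Real.pi / 2 * (t j * v j ^ 2)) ≤
      Real.exp (Real.pi / 2 * ∑ j, t j * v j ^ 2) := by
    rw [← Real.exp_sum, ← Finset.mul_sum]
    apply Real.exp_le_exp.2
    apply mul_le_mul_of_nonneg_left _ (by positivity)
    exact Finset.sum_le_sum_of_subset_of_nonneg (Finset.subset_univ _)
      (fun j _ _ => mul_nonneg (ht j) (sq_nonneg _))
  calc (∏ j ∈ S, |√(t j) * v j|) * Real.exp (-Real.pi * ∑ j, t j * v j ^ 2)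
      ≤ Real.exp (Real.pi / 2 * ∑ j, t j * v j ^ 2) * Real.exp (-Real.pi * ∑ j, t j * v j ^ 2) :=
        mul_le_mul_of_nonneg_right (h1.trans h2) (Real.exp_pos _).le
    _ = Real.exp (-(Real.pi / 2) * ∑ j, t j * v j ^ 2) := by
        rw [← Real.exp_add]
        congr 1
        ring

theorem phi_half (S : Finset J) (t v : J → ℝ) (ht : ∀ j, 0 ≤ t j) :
    |phi S t v| ≤ phi ∅ (fun j => t j / 2) v := by
  refine (phi_bd S t v ht).trans (le_of_eq ?_)
  unfold phi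
  rw [Finset.prod_empty, one_mul]
  congr 1
  rw [Finset.mul_sum, Finset.mul_sum]
  apply Finset.sum_congr rfl
  intro j _
  ring

/-- If all `t_j ≥ ε` then `|phi S t v| ≤ exp (-(π/2) ε ∑ v_j²)`. -/
theorem phi_bd_eps (S : Finset J) (t v : J → ℝ) (ε : ℝ) (hε : 0 ≤ ε) (ht : ∀ j, ε ≤ t j) :
    |phi S t v| ≤ Real.exp (-(Real.pi / 2 * ε) * ∑ j, v j ^ 2) := by
  refine (phi_bd S t v (fun j => hε.trans (ht j))).trans ?_
  apply Real.exp_le_exp.2
  have h1 : ε * ∑ j, v j ^ 2 ≤ ∑ j, t j * v j ^ 2 := by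
    rw [Finset.mul_sum]
    exact Finset.sum_le_sum fun j _ => mul_le_mul_of_nonneg_right (ht j) (sq_nonneg _)
  have hpi := Real.pi_pos
  nlinarith

theorem phi_zero (S : Finset J) (t : J → ℝ) : phi S t 0 = if S = ∅ then 1 else 0 := by
  unfold phi
  split_ifs with h
  · subst h
    simp
  · obtain ⟨j, hj⟩ := Finset.nonempty_iff_ne_empty.2 h
    rw [Finset.prod_eq_zero hj (by simp), zero_mul]

theorem phi_cont (S : Finset J) : Continuous fun p : (J → ℝ) × (J → ℝ) => phi S p.1 p.2 := by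
  unfold phi
  fun_prop

end H37.HK
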