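import Pool.Agent.H37.HK.GaussSum
import Pool.Agent.H37.HK.PhiBd

/-!
# ThetaSum: convergence, continuity and decay of theta series

`theta_summable`: `phi_bd_eps` with `ε = min_j t_j` (any positive lower bound; if `J` is empty take
`ε = 1`) and `gauss_affine`.

`theta_contOn`: on `{t | ∀ j, ε < t j}` (open sets which cover `{t | ∀ j, 0 < t j}`) the terms are
bounded by `exp (-(π/2) ε |B m + b|²)`, summable; `continuousOn_tsum`, `phi_cont`.

`theta_decay`: the term of the (at most one) `m` with `B m + b = 0` is `c m * phi S _ 0`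
(`phi_zero`), i.e. the constant term `th0`; the other vectors satisfy `|B m + b|² ≥ d` for some
`d > 0` (only finitely many `m` have `|B m + b|² ≤ 1` by `gauss_affine`/`sq_lower`; or: the terms
`exp (-|B m + b|²)` are summable so only finitely many exceed `exp (-1)`), so for `t_j ≥ ε`, `x ≥ 1`
their terms are at most `exp (-(π/2) ε x |v|²) ≤ exp (-(π/4) ε x d) exp (-(π/4) ε |v|²)`
(as `x |v|² ≥ x d / 2 + |v|² / 2`).
-/

open NumberField Complex

namespace H37.HK

variable {J : Type*} [Fintype J] [DecidableEq J]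

private theorem thetaSum_eps (t : J → ℝ) (ht : ∀ j, 0 < t j) : ∃ ε : ℝ, 0 < ε ∧ ∀ j, ε < t j := by
  rcases isEmpty_or_nonempty J with hJ | hJ
  · exact ⟨1, one_pos, fun j => (hJ.false j).elim⟩
  · obtain ⟨j0, hj0⟩ := Finite.exists_min t
    refine ⟨t j0 / 2, half_pos (ht j0), fun j => ?_⟩
    have h1 := hj0 j
    have h2 := ht j0
    linarith

private theorem thetaSum_norm_le (c : (J → ℤ) → ℂ) (hc : ∀ m, ‖c m‖ ≤ 1) (S : Finset J)
    (t v : J → ℝ) (ε : ℝ) (hε : 0 ≤ ε) (ht : ∀ j, ε ≤ t j) (m : J → ℤ) :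
    ‖c m * (phi S t v : ℂ)‖ ≤ Real.exp (-(Real.pi / 2 * ε) * ∑ j, v j ^ 2) := by
  rw [norm_mul, Complex.norm_real, Real.norm_eq_abs]
  calc ‖c m‖ * |phi S t v| ≤ 1 * |phi S t v| :=
        mul_le_mul_of_nonneg_right (hc m) (abs_nonneg _)
    _ = |phi S t v| := one_mul _
    _ ≤ _ := phi_bd_eps S t v ε hε ht

theorem theta_summable (c : (J → ℤ) → ℂ) (hc : ∀ m, ‖c m‖ ≤ 1) (S : Finset J) (B : Matrix J J ℝ)
    (hB : IsUnit B.det) (b t : J → ℝ) (ht : ∀ j, 0 < t j) :
    Summable fun m : J → ℤ => c m * (phi S t (B.mulVec (icast m) + b) : ℂ) := by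
  obtain ⟨ε, hε, h⟩ := thetaSum_eps t ht
  refine Summable.of_norm_bounded
    (gauss_affine B hB b (Real.pi / 2 * ε) (mul_pos (half_pos Real.pi_pos) hε)) fun m => ?_
  exact thetaSum_norm_le c hc S t _ ε hε.le (fun j => (h j).le) m

theorem theta_contOn (c : (J → ℤ) → ℂ) (hc : ∀ m, ‖c m‖ ≤ 1) (S : Finset J) (B : Matrix J J ℝ)
    (hB : IsUnit B.det) (b : J → ℝ) :
    ContinuousOn (theta c S B b) {t : J → ℝ | ∀ j, 0 < t j} := by
  intro t0 ht0
  obtain ⟨ε, hε, h⟩ := thetaSum_eps t0 ht0
  have hopen : IsOpen {t : J → ℝ | ∀ j, ε < t j} := by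
    rw [Set.setOf_forall]
    exact isOpen_iInter_of_finite fun j => isOpen_lt continuous_const (continuous_apply j)
  have hcont : ContinuousOn (theta c S B b) {t : J → ℝ | ∀ j, ε < t j} := by
    unfold theta
    refine continuousOn_tsum (u := fun m : J → ℤ =>
      Real.exp (-(Real.pi / 2 * ε) * ∑ j, (B.mulVec (icast m) + b) j ^ 2)) ?_
      (gauss_affine B hB b (Real.pi / 2 * ε) (mul_pos (half_pos Real.pi_pos) hε)) ?_
    · intro m
      refine Continuous.continuousOn (continuous_const.mul ?_)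
      refine Complex.continuous_ofReal.comp ?_
      exact (phi_cont S).comp (continuous_id.prodMk continuous_const)
    · intro m t ht
      exact thetaSum_norm_le c hc S t _ ε hε.le (fun j => (ht j).le) m
  exact (hcont.continuousAt (hopen.mem_nhds h)).continuousWithinAt

private theorem thetaSum_gap (B : Matrix J J ℝ) (hB : IsUnit B.det) (b : J → ℝ) :
    ∃ d : ℝ, 0 < d ∧ ∀ m : J → ℤ, B.mulVec (icast m) + b ≠ 0 →
      d ≤ ∑ j, (B.mulVec (icast m) + b) j ^ 2 := by
  have hsum := gauss_affine B hB b 1 one_pos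
  have htend := hsum.tendsto_cofinite_zero
  have hev := htend.eventually (gt_mem_nhds (Real.exp_pos (-1)))
  have hfin : {m : J → ℤ | ¬ Real.exp (-1 * ∑ j, (B.mulVec (icast m) + b) j ^ 2)
      < Real.exp (-1)}.Finite := hev
  let F := hfin.toFinset
  have hpos : ∀ m : J → ℤ, B.mulVec (icast m) + b ≠ 0 →
      0 < ∑ j, (B.mulVec (icast m) + b) j ^ 2 := by
    intro m hm
    obtain ⟨j, hj⟩ := Function.ne_iff.mp hm
    refine Finset.sum_pos' (fun i _ => sq_nonneg _) ⟨j, Finset.mem_univ j, ?_⟩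
    have hj' : (B.mulVec (icast m) + b) j ≠ 0 := by simpa using hj
    positivity
  have key : ∀ G : Finset (J → ℤ), ∃ d : ℝ, 0 < d ∧ ∀ m ∈ G, B.mulVec (icast m) + b ≠ 0 →
      d ≤ ∑ j, (B.mulVec (icast m) + b) j ^ 2 := by
    intro G
    classical
    induction G using Finset.induction_on with
    | empty => exact ⟨1, one_pos, fun m hm => absurd hm (Finset.notMem_empty m)⟩
    | insert a G ha ih =>
      obtain ⟨d, hd, hG⟩ := ih
      by_cases h0 : B.mulVec (icast a) + b = 0
      · refine ⟨d, hd, fun m hm hne => ?_⟩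
        rcases Finset.mem_insert.mp hm with rfl | hm
        · exact absurd h0 hne
        · exact hG m hm hne
      · refine ⟨min d (∑ j, (B.mulVec (icast a) + b) j ^ 2), lt_min hd (hpos a h0),
          fun m hm hne => ?_⟩
        rcases Finset.mem_insert.mp hm with rfl | hm
        · exact min_le_right _ _
        · exact (min_le_left _ _).trans (hG m hm hne)
  obtain ⟨d, hd, hF⟩ := key F
  refine ⟨min d 1, lt_min hd one_pos, fun m hne => ?_⟩
  by_cases hm : m ∈ F
  · exact (min_le_left _ _).trans (hF m hm hne)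
  · have hm' : Real.exp (-1 * ∑ j, (B.mulVec (icast m) + b) j ^ 2) < Real.exp (-1) := by
      by_contra hcon
      exact hm (hfin.mem_toFinset.mpr hcon)
    have h1 := Real.exp_lt_exp.mp hm'
    exact (min_le_right _ _).trans (by linarith)

theorem theta_decay (c : (J → ℤ) → ℂ) (hc : ∀ m, ‖c m‖ ≤ 1) (S : Finset J) (B : Matrix J J ℝ)
    (hB : IsUnit B.det) (b : J → ℝ) (ε : ℝ) (hε : 0 < ε) :
    ∃ C δ : ℝ, 0 ≤ C ∧ 0 < δ ∧ ∀ t : J → ℝ, (∀ j, ε ≤ t j) → ∀ x : ℝ, 1 ≤ x →
      ‖theta c S B b (fun j => x * t j) - th0 c S B b‖ ≤ C * Real.exp (-δ * x) := by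
  obtain ⟨d, hd, hgap⟩ := thetaSum_gap B hB b
  have hg := gauss_affine B hB b (Real.pi / 4 * ε)
    (mul_pos (div_pos Real.pi_pos (by norm_num)) hε)
  refine ⟨∑' m : J → ℤ, Real.exp (-(Real.pi / 4 * ε) * ∑ j, (B.mulVec (icast m) + b) j ^ 2),
    Real.pi / 4 * ε * d, tsum_nonneg fun m => (Real.exp_pos _).le, by positivity, ?_⟩
  intro t ht x hx
  have hx0 : 0 < x := lt_of_lt_of_le one_pos hx
  have htx : ∀ j, ε * x ≤ x * t j := fun j => by
    rw [mul_comm ε x]
    exact mul_le_mul_of_nonneg_left (ht j) hx0.le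
  have htx0 : ∀ j, 0 < x * t j := fun j => lt_of_lt_of_le (mul_pos hε hx0) (htx j)
  have hs := theta_summable c hc S B hB b (fun j => x * t j) htx0
  have hth0 : th0 c S B b = ∑' m : J → ℤ, (if B.mulVec (icast m) + b = 0 then
      c m * (phi S (fun j => x * t j) (B.mulVec (icast m) + b) : ℂ) else 0) := by
    unfold th0
    by_cases hS : S = ∅
    · rw [if_pos hS]
      refine tsum_congr fun m => ?_
      by_cases h0 : B.mulVec (icast m) + b = 0
      · rw [if_pos h0, if_pos h0, h0, phi_zero, if_pos hS]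
        simp
      · rw [if_neg h0, if_neg h0]
    · rw [if_neg hS]
      symm
      have : ∀ m : J → ℤ, (if B.mulVec (icast m) + b = 0 then
          c m * (phi S (fun j => x * t j) (B.mulVec (icast m) + b) : ℂ) else 0) = 0 := by
        intro m
        by_cases h0 : B.mulVec (icast m) + b = 0
        · rw [if_pos h0, h0, phi_zero, if_neg hS]
          simp
        · rw [if_neg h0]
      simp [this]
  have hs0 : Summable fun m : J → ℤ => (if B.mulVec (icast m) + b = 0 then
      c m * (phi S (fun j => x * t j) (B.mulVec (icast m) + b) : ℂ) else 0) := by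
    refine Summable.of_norm_bounded hs.norm fun m => ?_
    split_ifs
    · exact le_rfl
    · rw [norm_zero]
      exact norm_nonneg _
  rw [hth0]
  unfold theta
  rw [← hs.tsum_sub hs0, ← tsum_mul_right]
  refine tsum_of_norm_bounded (hg.mul_right _).hasSum fun m => ?_
  by_cases h0 : B.mulVec (icast m) + b = 0
  · rw [if_pos h0, sub_self, norm_zero]
    positivity
  · rw [if_neg h0, sub_zero]
    refine (thetaSum_norm_le c hc S (fun j => x * t j) _ (ε * x) (by positivity) htx m).trans ?_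
    rw [← Real.exp_add]
    refine Real.exp_le_exp.mpr ?_
    have hq := hgap m h0
    set q := ∑ j, (B.mulVec (icast m) + b) j ^ 2 with hqdef
    have hq0 : 0 ≤ q := hd.le.trans hq
    have h1 : 0 ≤ Real.pi / 4 * ε := by positivity
    have h2 : x * d ≤ x * q := mul_le_mul_of_nonneg_left hq hx0.le
    have h3 : q ≤ x * q := by nlinarith
    have h4 : Real.pi / 4 * ε * (x * d + q) ≤ Real.pi / 4 * ε * (2 * (x * q)) :=
      mul_le_mul_of_nonneg_left (by linarith) h1
    nlinarith [h4]

end H37.HK
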