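import Pool.Agent.H37.HK.AvgDefs
import Pool.Agent.H37.HK.ThetaSum

/-!
# Avg: continuity and decay of the averaged theta function

`T` is bounded, so its closure is compact and `volume T < ∞`; `τ` is continuous and positive, so
there are `0 < ε ≤ M` with `ε ≤ τ h j ≤ M` for `h ∈ T` (`IsCompact.exists_isMinOn`; if `T` or `J` is
empty any `ε` works).

`avg_integrable`: for `x > 0` the function `h ↦ theta (x τ h)` is continuous on `ℝ^κ`
(`theta_contOn`) and bounded on `T`, hence integrable on `T`
(`Continuous.integrableOn`-type lemma on the compact closure, then `mono_set`).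

`avg_contOn`: `continuousOn` of a parametric integral: near `x₀ > 0` (`x ∈ [x₀/2, 2 x₀]`) the
integrand is jointly continuous on the compact set `[x₀/2, 2x₀] × closure T`, hence bounded;
`MeasureTheory.continuousWithinAt_of_dominated` or `intervalIntegral`-free
`continuousOn_of_dominated`.

`avg_decay`: from `theta_decay`: `‖avg x - avg0‖ ≤ volume(T) C exp (-δ x)` for `x ≥ 1`, and
`exp (-δ x) = O(x^r)` (`isLittleO_exp_neg_mul_rpow_atTop`).
-/

open NumberField Complex MeasureTheory Filter Asymptotics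

namespace H37.HK

variable {J : Type*} [Fintype J] [DecidableEq J] {κ : Type*} [Fintype κ]

omit [DecidableEq J] in
theorem TD.lower (D : TD J κ) : ∃ ε : ℝ, 0 < ε ∧ ∀ h ∈ D.T, ∀ j, ε ≤ D.τ h j := by
  have hK : IsCompact (closure D.T) := D.bdd.isCompact_closure
  have h1 : ∀ j : J, ∃ C : ℝ, ∀ h ∈ closure D.T, ‖(D.τ h j)⁻¹‖ ≤ C := fun j =>
    hK.exists_bound_of_continuousOn
      (Continuous.inv₀ ((continuous_apply j).comp D.cont) fun h => (D.pos h j).ne').continuousOn
  choose C hC using h1
  have hpos : 0 < 1 + ∑ j, |C j| := by positivity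
  refine ⟨(1 + ∑ j, |C j|)⁻¹, inv_pos.mpr hpos, fun h hh j => ?_⟩
  have h2 := hC j h (subset_closure hh)
  rw [Real.norm_of_nonneg (inv_pos.mpr (D.pos h j)).le] at h2
  have h3 : (D.τ h j)⁻¹ ≤ 1 + ∑ j, |C j| := by
    have : |C j| ≤ ∑ j, |C j| :=
      Finset.single_le_sum (f := fun j => |C j|) (fun _ _ => abs_nonneg _) (Finset.mem_univ j)
    have h4 := le_abs_self (C j)
    linarith
  exact inv_le_of_inv_le₀ (D.pos h j) h3

theorem theta_jointCont (D : TD J κ) (c : (J → ℤ) → ℂ) (hc : ∀ m, ‖c m‖ ≤ 1) (S : Finset J)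
    (B : Matrix J J ℝ) (hB : IsUnit B.det) (b : J → ℝ) :
    Continuous (Function.uncurry fun (x : Set.Ioi (0 : ℝ)) (h : κ → ℝ) =>
      theta c S B b (fun j => (x : ℝ) * D.τ h j)) := by
  have h0 := theta_contOn c hc S B hB b
  have h1 : Continuous (fun p : Set.Ioi (0 : ℝ) × (κ → ℝ) => fun j => (p.1 : ℝ) * D.τ p.2 j) := by
    refine continuous_pi fun j => ?_
    exact (continuous_subtype_val.comp continuous_fst).mul
      ((continuous_apply j).comp (D.cont.comp continuous_snd))
  exact h0.comp_continuous h1 fun p j => mul_pos p.1.2 (D.pos p.2 j)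

theorem avg_integrable (D : TD J κ) (c : (J → ℤ) → ℂ) (hc : ∀ m, ‖c m‖ ≤ 1) (S : Finset J)
    (B : Matrix J J ℝ) (hB : IsUnit B.det) (b : J → ℝ) (x : ℝ) (hx : 0 < x) :
    IntegrableOn (fun h => theta c S B b (fun j => x * D.τ h j)) D.T := by
  have h1 : Continuous (fun h : κ → ℝ => theta c S B b (fun j => x * D.τ h j)) :=
    (theta_jointCont D c hc S B hB b).comp
      (Continuous.prodMk (continuous_const (y := (⟨x, hx⟩ : Set.Ioi (0 : ℝ)))) continuous_id)
  exact (h1.continuousOn.integrableOn_compact D.bdd.isCompact_closure).mono_set subset_closure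

theorem avg_contOn (D : TD J κ) (c : (J → ℤ) → ℂ) (hc : ∀ m, ‖c m‖ ≤ 1) (S : Finset J)
    (B : Matrix J J ℝ) (hB : IsUnit B.det) (b : J → ℝ) :
    ContinuousOn (avg D c S B b) (Set.Ioi 0) := by
  rw [continuousOn_iff_continuous_domRestrict]
  have : LocallyCompactSpace (Set.Ioi (0 : ℝ)) := isOpen_Ioi.locallyCompactSpace
  have h1 := continuous_parametric_integral_of_continuous (μ := volume.restrict D.T)
    (theta_jointCont D c hc S B hB b) D.bdd.isCompact_closure
  refine h1.congr fun x => ?_
  rw [Measure.restrict_restrict isClosed_closure.measurableSet,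
    Set.inter_eq_right.mpr subset_closure]
  rfl

theorem avg_decay (D : TD J κ) (c : (J → ℤ) → ℂ) (hc : ∀ m, ‖c m‖ ≤ 1) (S : Finset J)
    (B : Matrix J J ℝ) (hB : IsUnit B.det) (b : J → ℝ) (r : ℝ) :
    (fun x => avg D c S B b x - avg0 D c S B b) =O[atTop] (fun x : ℝ => x ^ r) := by
  obtain ⟨ε, hε, hlow⟩ := D.lower
  obtain ⟨C, δ, hC, hδ, hdec⟩ := theta_decay c hc S B hB b ε hε
  have hfin : volume D.T < ⊤ := D.bdd.measure_lt_top
  have hb : ∀ x : ℝ, 1 ≤ x → ‖avg D c S B b x - avg0 D c S B b‖ ≤
      (C * (volume D.T).toReal) * ‖Real.exp (-δ * x)‖ := by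
    intro x hx
    have hx0 : 0 < x := by linarith
    have hi := avg_integrable D c hc S B hB b x hx0
    have hconst : IntegrableOn (fun _ : κ → ℝ => th0 c S B b) D.T :=
      integrableOn_const hfin.ne
    have heq : avg D c S B b x - avg0 D c S B b =
        ∫ h in D.T, (theta c S B b (fun j => x * D.τ h j) - th0 c S B b) := by
      rw [integral_sub hi hconst, setIntegral_const]
      rw [avg, avg0]
      congr 1
    rw [heq]
    have h1 := norm_setIntegral_le_of_norm_le_const (μ := volume) (s := D.T)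
      (f := fun h => theta c S B b (fun j => x * D.τ h j) - th0 c S B b)
      (C := C * Real.exp (-δ * x)) hfin (fun h hh => hdec (D.τ h) (hlow h hh) x hx)
    refine h1.trans ?_
    rw [Real.norm_of_nonneg (Real.exp_pos _).le]
    have : volume.real D.T = (volume D.T).toReal := rfl
    rw [this]
    apply le_of_eq
    ring
  have h2 : (fun x => avg D c S B b x - avg0 D c S B b) =O[atTop]
      (fun x : ℝ => Real.exp (-δ * x)) :=
    IsBigO.of_bound (C * (volume D.T).toReal)
      ((eventually_ge_atTop 1).mono fun x hx => hb x hx)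
  exact h2.trans (isLittleO_exp_neg_mul_rpow_atTop hδ r).isBigO

end H37.HK
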