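import Pool.Agent.H37.HK.Defs

/-!
# AvgDefs: average of a theta series over a bounded set of parameters
-/

open NumberField Complex MeasureTheory

namespace H37.HK

variable {J : Type*} [Fintype J] [DecidableEq J] {κ : Type*} [Fintype κ]

/-- A bounded measurable set `T` of parameters `h ∈ ℝ^κ`, and positive weights `τ h j`, continuous
in `h`, with product one. -/
structure TD (J κ : Type*) [Fintype J] [Fintype κ] where
  T : Set (κ → ℝ)
  τ : (κ → ℝ) → J → ℝ
  meas : MeasurableSet T
  bdd : Bornology.IsBounded T
  cont : Continuous τ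
  pos : ∀ h j, 0 < τ h j
  prod_one : ∀ h, ∏ j, τ h j = 1

/-- The dual data: inverse weights. -/
noncomputable def TD.inv (D : TD J κ) : TD J κ where
  T := D.T
  τ := fun h j => (D.τ h j)⁻¹
  meas := D.meas
  bdd := D.bdd
  cont := by
    refine continuous_pi fun j => ?_
    exact Continuous.inv₀ ((continuous_apply j).comp D.cont) fun h => (D.pos h j).ne'
  pos := fun h j => inv_pos.mpr (D.pos h j)
  prod_one := fun h => by rw [Finset.prod_inv_distrib, D.prod_one, inv_one]

/-- The averaged theta function. -/
noncomputable def avg (D : TD J κ) (c : (J → ℤ) → ℂ) (S : Finset J) (B : Matrix J J ℝ) (b : J → ℝ)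
    (x : ℝ) : ℂ :=
  ∫ h in D.T, theta c S B b (fun j => x * D.τ h j)

/-- The constant term of the averaged theta function. -/
noncomputable def avg0 (D : TD J κ) (c : (J → ℤ) → ℂ) (S : Finset J) (B : Matrix J J ℝ)
    (b : J → ℝ) : ℂ :=
  ((volume D.T).toReal : ℂ) * th0 c S B b

end H37.HK
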