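import Pool.Agent.H37.HK.PoisB

/-!
# ChVar: affine change of variables in a Fourier transform

`v = B x + b`: `∫ g (B x + b) exp (-2πi k·x) dx = |det B|⁻¹ exp (2πi k·B⁻¹b) ∫ g (v) exp (-2πi (B⁻ᵀ k)·v) dv`.
Proof: `MeasureTheory.integral_comp_mul_left`-type lemma for matrices
(`Real.map_matrix_volume_pi_eq_smul_volume_pi`, `MeasureTheory.Measure.addHaar_preimage_linearMap`,
or `MeasureTheory.integral_image_eq_integral_abs_det_fderiv_smul`) and translation invariance;
`k·x = k·B⁻¹(v - b) = (B⁻ᵀ k)·v - k·B⁻¹ b`.  No integrability is needed (both sides are Bochner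
integrals related by a measurable isomorphism).
-/

open NumberField Complex MeasureTheory

namespace H37.HK

variable {J : Type*} [Fintype J] [DecidableEq J]

theorem ch_var (B : Matrix J J ℝ) (hB : IsUnit B.det) (b : J → ℝ) (g : (J → ℝ) → ℂ) (k : J → ℝ) :
    ∫ x : J → ℝ, g (B.mulVec x + b) * en k x =
      ((|B.det|⁻¹ : ℝ) : ℂ) * cexp (2 * Real.pi * I * ((k ⬝ᵥ (B⁻¹.mulVec b) : ℝ) : ℂ)) *
        ∫ v : J → ℝ, g v * en ((B⁻¹).transpose.mulVec k) v := by
  set h : (J → ℝ) → ℂ := fun v => g (v + b) * en ((B⁻¹).transpose.mulVec k) v with hh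
  have hk : ∀ x : J → ℝ, ((B⁻¹).transpose.mulVec k) ⬝ᵥ (B.mulVec x) = k ⬝ᵥ x := by
    intro x
    rw [Matrix.mulVec_transpose, ← Matrix.dotProduct_mulVec, Matrix.mulVec_mulVec,
      Matrix.nonsing_inv_mul _ hB, Matrix.one_mulVec]
  have h1 : (fun x : J → ℝ => g (B.mulVec x + b) * en k x) = fun x => h (Matrix.toLin' B x) := by
    funext x
    simp only [hh, Matrix.toLin'_apply, en, hk]
  rw [h1]
  have h2 : ∫ x : J → ℝ, h (Matrix.toLin' B x) = (|B.det|⁻¹ : ℝ) • ∫ v, h v := by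
    have e : MeasurableEmbedding (Matrix.toLin' B) := by
      have : (Matrix.toLin' B : (J → ℝ) → (J → ℝ)) =
          (LinearEquiv.ofIsUnitDet (f := Matrix.toLin' B) (v := Pi.basisFun ℝ J)
            (v' := Pi.basisFun ℝ J) (by simpa using hB)).toContinuousLinearEquiv.toHomeomorph := by
        rfl
      rw [this]
      exact Homeomorph.measurableEmbedding _
    rw [← e.integral_map, Real.map_matrix_volume_pi_eq_smul_volume_pi hB.ne_zero,
      integral_smul_measure, ENNReal.toReal_ofReal (abs_nonneg _), abs_inv]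
  rw [h2]
  have h3 : ∫ v, h v = cexp (2 * Real.pi * I * ((k ⬝ᵥ (B⁻¹.mulVec b) : ℝ) : ℂ)) *
        ∫ v : J → ℝ, g v * en ((B⁻¹).transpose.mulVec k) v := by
    rw [← integral_const_mul, ← integral_add_right_eq_self (fun v => cexp (2 * Real.pi * I *
      ((k ⬝ᵥ (B⁻¹.mulVec b) : ℝ) : ℂ)) * (g v * en ((B⁻¹).transpose.mulVec k) v)) b]
    refine integral_congr_ae (Filter.Eventually.of_forall fun v => ?_)
    simp only [hh, en]
    have e1 : (k ⬝ᵥ (B⁻¹.mulVec b) : ℝ) = ((B⁻¹).transpose.mulVec k) ⬝ᵥ b := by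
      rw [Matrix.mulVec_transpose, Matrix.dotProduct_mulVec]
    rw [e1, dotProduct_add]
    push_cast
    rw [mul_add, neg_add, Complex.exp_add, ]
    have e2 : cexp (2 * Real.pi * I * ((((B⁻¹).transpose.mulVec k) ⬝ᵥ b : ℝ) : ℂ)) *
      cexp (-(2 * Real.pi * I * ((((B⁻¹).transpose.mulVec k) ⬝ᵥ b : ℝ) : ℂ))) = 1 := by
      rw [← Complex.exp_add, add_neg_cancel, Complex.exp_zero]
    linear_combination (-(g (v + b) * cexp (-(2 * Real.pi * I * ((((B⁻¹).transpose.mulVec k) ⬝ᵥ v : ℝ) : ℂ))))) * e2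
  rw [h3, Complex.real_smul]
  ring

end H37.HK
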