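import Pool.Agent.H37.HK.PoisA

/-!
# PoisB: Fourier coefficients of the periodisation

`gauss_integrable`: a continuous function bounded by a Gaussian is integrable on `ℝ^J`
(`Real.exp (-c ∑ x_j²) = ∏ exp (-c x_j²)`, `MeasureTheory.Integrable.fintype_prod`,
`integrable_exp_neg_mul_sq`).

`unfold_box`: for `g` integrable on `ℝ^J`: `∑_m ∫_{box} g (x + m) dx = ∫ g`, and the double sum /
integral of `‖g‖` converges, so `∫_{box} ∑_m g (x + m) dx = ∫ g`, where
`box = {x | ∀ i, x i ∈ Set.Ioc 0 1}`.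
Proof: the translates `box + m`, `m ∈ ℤ^J`, are a measurable partition of `ℝ^J`
(`m_i = ⌈x_i⌉ - 1`): `MeasureTheory.hasSum_integral_iUnion`, `integral_add_right_eq_self` /
`MeasurePreserving.setIntegral_preimage_emb` for translations; then
`MeasureTheory.integral_tsum`-type exchange `MeasureTheory.hasSum_integral_of_summable_integral_norm`
(in the form with `μ = volume.restrict box`), the summability of `∫_{box} ‖g (x + m)‖` by the same
partition applied to `‖g‖`.

`coeff`: with `g x = f x * exp (-2πi k·x)`: `mFourierCoeff G k = ∫_{box} mFourier (-k) x • G x`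
(`UnitAddTorus.mFourierCoeff_eq_integral` with `a = 0`) and
`mFourier (-k) (x) = exp (-2πi k·x)` is invariant under `x ↦ x + m`.
-/

open NumberField Complex MeasureTheory

namespace H37.HK

variable {J : Type*} [Fintype J] [DecidableEq J]

/-- The additive character `exp (-2πi k·x)`. -/
noncomputable def en (k : J → ℝ) (x : J → ℝ) : ℂ := cexp (-(2 * Real.pi * I * ((k ⬝ᵥ x : ℝ) : ℂ)))

theorem gauss_integrable (f : (J → ℝ) → ℂ) (hf : Continuous f) (C c : ℝ) (hc : 0 < c)
    (hb : ∀ x, ‖f x‖ ≤ C * Real.exp (-c * ∑ j, x j ^ 2)) : Integrable f := by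
  have h1 : Integrable (fun x : J → ℝ => ∏ j, Real.exp (-c * x j ^ 2)) :=
    Integrable.fintype_prod (μ := fun _ => (volume : Measure ℝ))
      (f := fun _ t => Real.exp (-c * t ^ 2)) (fun _ => integrable_exp_neg_mul_sq hc)
  refine (h1.const_mul C).mono' hf.aestronglyMeasurable (Filter.Eventually.of_forall fun x => ?_)
  rw [← Real.exp_sum, ← Finset.mul_sum]
  exact hb x

/-- the translated unit boxes -/
private def bx (m : J → ℤ) : Set (J → ℝ) := {x | ∀ i, x i ∈ Set.Ioc (m i : ℝ) (m i + 1)}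

private lemma bx_meas (m : J → ℤ) : MeasurableSet (bx m) := by
  have : bx m = ⋂ i, (fun x : J → ℝ => x i) ⁻¹' Set.Ioc (m i : ℝ) (m i + 1) := by
    ext x; simp [bx]
  rw [this]
  exact MeasurableSet.iInter fun i => measurable_pi_apply i measurableSet_Ioc

private lemma bx_disj : Pairwise (Function.onFun Disjoint (bx (J := J))) := by
  intro m n hmn
  rw [Function.onFun, Set.disjoint_left]
  intro x hx hy
  apply hmn
  funext i
  have h1 := hx i
  have h2 := hy i
  have e1 : ⌈x i⌉ = m i + 1 := by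
    rw [Int.ceil_eq_iff]; push_cast; exact ⟨by linarith [h1.1], h1.2⟩
  have e2 : ⌈x i⌉ = n i + 1 := by
    rw [Int.ceil_eq_iff]; push_cast; exact ⟨by linarith [h2.1], h2.2⟩
  omega

private lemma bx_union : (⋃ m : J → ℤ, bx m) = Set.univ := by
  refine Set.eq_univ_of_forall fun x => Set.mem_iUnion.2 ⟨fun i => ⌈x i⌉ - 1, fun i => ?_⟩
  have h1 := Int.ceil_lt_add_one (x i)
  have h2 := Int.le_ceil (x i)
  push_cast
  exact ⟨by linarith, by linarith⟩

private lemma bx_pre (m : J → ℤ) : (fun x : J → ℝ => x + icast m) ⁻¹' bx m =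
    {x : J → ℝ | ∀ i, x i ∈ Set.Ioc ((0 : J → ℝ) i) ((0 : J → ℝ) i + 1)} := by
  ext x
  simp only [bx, icast, Set.mem_preimage, Set.mem_setOf_eq, Pi.add_apply, Pi.zero_apply, Set.mem_Ioc]
  refine forall_congr' fun i => ?_
  constructor
  · rintro ⟨h1, h2⟩; exact ⟨by linarith, by linarith⟩
  · rintro ⟨h1, h2⟩; exact ⟨by linarith, by linarith⟩

private lemma bx_int {E : Type*} [NormedAddCommGroup E] [NormedSpace ℝ E] (g : (J → ℝ) → E)
    (m : J → ℤ) :
    ∫ x in {x : J → ℝ | ∀ i, x i ∈ Set.Ioc ((0 : J → ℝ) i) ((0 : J → ℝ) i + 1)}, g (x + icast m) =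
      ∫ x in bx m, g x := by
  rw [← bx_pre m]
  exact (measurePreserving_add_right (volume : Measure (J → ℝ)) (icast m)).setIntegral_preimage_emb
    (measurableEmbedding_addRight (icast m)) g (bx m)

theorem unfold_box (g : (J → ℝ) → ℂ) (hg : Integrable g) :
    ∫ x in {x : J → ℝ | ∀ i, x i ∈ Set.Ioc ((0 : J → ℝ) i) ((0 : J → ℝ) i + 1)},
      ∑' m : J → ℤ, g (x + icast m) = ∫ x, g x := by
  have hn : HasSum (fun m : J → ℤ => ∫ x in bx m, ‖g x‖) (∫ x in ⋃ m : J → ℤ, bx m, ‖g x‖) :=
    hasSum_integral_iUnion bx_meas bx_disj hg.norm.integrableOn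
  have hs : HasSum (fun m : J → ℤ => ∫ x in bx m, g x) (∫ x in ⋃ m : J → ℤ, bx m, g x) :=
    hasSum_integral_iUnion bx_meas bx_disj hg.integrableOn
  have h1 := integral_tsum_of_summable_integral_norm (F := fun (m : J → ℤ) (x : J → ℝ) =>
      g (x + icast m)) (μ := (volume : Measure (J → ℝ)).restrict
      {x : J → ℝ | ∀ i, x i ∈ Set.Ioc ((0 : J → ℝ) i) ((0 : J → ℝ) i + 1)})
    (fun m => (hg.comp_add_right (icast m)).integrableOn) (by
      have : (fun m : J → ℤ => ∫ x in {x : J → ℝ | ∀ i, x i ∈ Set.Ioc ((0 : J → ℝ) i)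
          ((0 : J → ℝ) i + 1)}, ‖g (x + icast m)‖) = fun m => ∫ x in bx m, ‖g x‖ := by
        funext m
        exact bx_int (fun x => ‖g x‖) m
      rw [this]
      exact hn.summable)
  rw [← h1]
  simp_rw [bx_int g]
  rw [hs.tsum_eq, bx_union, Measure.restrict_univ]

private lemma mf_eq (k : J → ℤ) (x : J → ℝ) :
    UnitAddTorus.mFourier (-k) (fun i => (x i : UnitAddCircle)) = en (icast k) x := by
  simp only [UnitAddTorus.mFourier, ContinuousMap.coe_mk, Pi.neg_apply]
  have : ∀ i, fourier (-k i) (x i : UnitAddCircle) =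
      cexp (-(2 * Real.pi * I * ((k i : ℝ) * x i : ℝ))) := by
    intro i
    rw [fourier_coe_apply]
    congr 1
    push_cast
    ring
  simp_rw [this]
  rw [← Complex.exp_sum, en]
  congr 1
  simp only [dotProduct, icast, Finset.sum_neg_distrib]
  rw [Complex.ofReal_sum, Finset.mul_sum]

private lemma en_shift (k m : J → ℤ) (x : J → ℝ) :
    en (icast k) (x + icast m) = en (icast k) x := by
  rw [← mf_eq, ← mf_eq]
  congr 1
  funext i
  simp [icast]

private lemma en_norm (k x : J → ℝ) : ‖en k x‖ = 1 := by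
  have : en k x = cexp (((-(2 * Real.pi * (k ⬝ᵥ x)) : ℝ) : ℂ) * I) := by
    unfold en; congr 1; push_cast; ring
  rw [this, Complex.norm_exp_ofReal_mul_I]

private lemma en_cont (k : J → ℝ) : Continuous (en k) := by
  unfold en dotProduct
  fun_prop

theorem coeff (f : (J → ℝ) → ℂ) (hf : Continuous f) (C c : ℝ) (hc : 0 < c)
    (hb : ∀ x, ‖f x‖ ≤ C * Real.exp (-c * ∑ j, x j ^ 2)) (G : C(UnitAddTorus J, ℂ))
    (hG : ∀ x : J → ℝ, G (fun j => (x j : UnitAddCircle)) = ∑' m : J → ℤ, f (x + icast m))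
    (k : J → ℤ) :
    UnitAddTorus.mFourierCoeff G k = ∫ x, f x * en (icast k) x := by
  have hg : Integrable (fun x => f x * en (icast k) x) := by
    refine gauss_integrable _ (hf.mul (en_cont _)) C c hc fun x => ?_
    rw [norm_mul, en_norm, mul_one]
    exact hb x
  rw [← unfold_box _ hg, UnitAddTorus.mFourierCoeff_eq_integral G k 0]
  refine integral_congr_ae (Filter.Eventually.of_forall fun x => ?_)
  simp only
  rw [hG x, mf_eq, smul_eq_mul]
  simp_rw [en_shift]
  rw [tsum_mul_right, mul_comm]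

end H37.HK
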