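import Pool.Agent.H37.HK.FTOne
import Pool.Agent.H37.HK.PoisB

/-!
# FTn: Fourier transform of `phi` on `ℝ^J`

`phi S t v * en y v = ∏_j h_j (v_j)` with
`h_j (x) = (if j ∈ S then √t_j x else 1) exp (-π t_j x²) exp (-2πi y_j x)`;
`MeasureTheory.integral_fintype_prod_volume_eq_prod` and `ft_even`, `ft_odd`.
-/

open NumberField Complex MeasureTheory

namespace H37.HK

variable {J : Type*} [Fintype J] [DecidableEq J]

theorem ft_phi (S : Finset J) (t : J → ℝ) (ht : ∀ j, 0 < t j) (y : J → ℝ) :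
    ∫ v : J → ℝ, (phi S t v : ℂ) * en y v =
      (-I) ^ S.card * ((∏ j, (√(t j))⁻¹ : ℝ) : ℂ) * (phi S (fun j => (t j)⁻¹) y : ℂ) := by
  have h1 : ∀ v : J → ℝ, (phi S t v : ℂ) * en y v =
      ∏ j, ((if j ∈ S then
        ((√(t j) * v j * Real.exp (-Real.pi * (t j * v j ^ 2)) : ℝ) : ℂ) *
          cexp (-(2 * Real.pi * I * ((y j * v j : ℝ) : ℂ)))
        else (Real.exp (-Real.pi * (t j * v j ^ 2)) : ℂ) *
          cexp (-(2 * Real.pi * I * ((y j * v j : ℝ) : ℂ))))) := by
    intro v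
    have e1 : en y v = ∏ j, cexp (-(2 * Real.pi * I * ((y j * v j : ℝ) : ℂ))) := by
      rw [en, ← Complex.exp_sum]
      congr 1
      simp only [dotProduct, Complex.ofReal_sum, Finset.mul_sum, Finset.sum_neg_distrib]
    have e2 : (phi S t v : ℂ) = ∏ j, ((if j ∈ S then ((√(t j) * v j : ℝ) : ℂ) else 1) *
        (Real.exp (-Real.pi * (t j * v j ^ 2)) : ℂ)) := by
      rw [Finset.prod_mul_distrib, Finset.prod_ite_mem, Finset.univ_inter, phi, Finset.mul_sum,
        Real.exp_sum]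
      simp only [Complex.ofReal_mul, Complex.ofReal_prod]
    rw [e1, e2, ← Finset.prod_mul_distrib]
    refine Finset.prod_congr rfl fun j _ => ?_
    split_ifs
    · push_cast; ring
    · rw [one_mul]
  simp_rw [h1]
  have h2 := MeasureTheory.integral_fintype_prod_volume_eq_prod (𝕜 := ℂ) (ι := J) (E := fun _ => ℝ)
    (fun j (x : ℝ) => (if j ∈ S then
        ((√(t j) * x * Real.exp (-Real.pi * (t j * x ^ 2)) : ℝ) : ℂ) *
          cexp (-(2 * Real.pi * I * ((y j * x : ℝ) : ℂ)))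
        else (Real.exp (-Real.pi * (t j * x ^ 2)) : ℂ) *
          cexp (-(2 * Real.pi * I * ((y j * x : ℝ) : ℂ)))))
  rw [h2]
  have h3 : ∀ j, (∫ x : ℝ, (if j ∈ S then
        ((√(t j) * x * Real.exp (-Real.pi * (t j * x ^ 2)) : ℝ) : ℂ) *
          cexp (-(2 * Real.pi * I * ((y j * x : ℝ) : ℂ)))
        else (Real.exp (-Real.pi * (t j * x ^ 2)) : ℂ) *
          cexp (-(2 * Real.pi * I * ((y j * x : ℝ) : ℂ))))) =
      (if j ∈ S then -I else 1) * (((√(t j))⁻¹ : ℝ) : ℂ) *
        ((if j ∈ S then ((√((t j)⁻¹) * y j : ℝ) : ℂ) else 1) *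
          (Real.exp (-Real.pi * ((t j)⁻¹ * y j ^ 2)) : ℂ)) := by
    intro j
    by_cases hj : j ∈ S
    · simp only [if_pos hj]
      rw [ft_odd (t j) (ht j) (y j)]
      push_cast
      ring
    · simp only [if_neg hj]
      rw [ft_even (t j) (ht j) (y j)]
      push_cast
      ring
  simp_rw [h3]
  rw [Finset.prod_mul_distrib, Finset.prod_mul_distrib, Finset.prod_mul_distrib,
    Finset.prod_ite_mem, Finset.univ_inter, Finset.prod_const, Finset.prod_ite_mem,
    Finset.univ_inter, phi, Finset.mul_sum, Real.exp_sum]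
  simp only [Complex.ofReal_mul, Complex.ofReal_prod]

end H37.HK
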