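import Pool.Agent.H37.HK.Pois
import Pool.Agent.H37.HK.PhiBd
import Pool.Agent.H37.HK.FTn
import Pool.Agent.H37.HK.ChVar

/-!
# ThetaFE: functional equation of the theta series

`poisson` for `f x = phi S t (B x + b)`: Gaussian bound from `phi_bd_eps` (`ε = min t_j`, if `J` is
empty take `ε = 1`) and `sq_lower`; Fourier transform from `ch_var` and `ft_phi`; its summability in
`k` from `phi_bd_eps` and `gauss_affine` for the matrix `(B⁻¹)ᵀ`.
-/

open NumberField Complex MeasureTheory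

namespace H37.HK

variable {J : Type*} [Fintype J] [DecidableEq J]

omit [DecidableEq J] in
private theorem exists_eps (t : J → ℝ) (ht : ∀ j, 0 < t j) : ∃ ε : ℝ, 0 < ε ∧ ∀ j, ε ≤ t j := by
  by_cases hJ : Nonempty J
  · obtain ⟨j0, hj0⟩ := Finite.exists_min t
    exact ⟨t j0, ht j0, hj0⟩
  · exact ⟨1, one_pos, fun j => (hJ ⟨j⟩).elim⟩

private theorem norm_phase (B : Matrix J J ℝ) (b : J → ℝ) (k : J → ℤ) : ‖phase B b k‖ = 1 := by
  unfold phase
  rw [show 2 * (Real.pi : ℂ) * I * ((icast k ⬝ᵥ (B⁻¹.mulVec b) : ℝ) : ℂ) =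
    ((2 * Real.pi * (icast k ⬝ᵥ (B⁻¹.mulVec b)) : ℝ) : ℂ) * I by push_cast; ring]
  exact Complex.norm_exp_ofReal_mul_I _

theorem theta_fe (S : Finset J) (B : Matrix J J ℝ) (hB : IsUnit B.det) (b t : J → ℝ)
    (ht : ∀ j, 0 < t j) :
    theta (fun _ => 1) S B b t =
      (-I) ^ S.card * ((|B.det|⁻¹ : ℝ) : ℂ) * ((∏ j, (√(t j))⁻¹ : ℝ) : ℂ) *
        theta (phase B b) S (B⁻¹).transpose 0 (fun j => (t j)⁻¹) := by
  obtain ⟨ε, hε, hεt⟩ := exists_eps t ht
  obtain ⟨δ, D, hδ, hD⟩ := sq_lower B hB b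
  have ht' : ∀ j, 0 < (t j)⁻¹ := fun j => inv_pos.2 (ht j)
  obtain ⟨ε', hε', hεt'⟩ := exists_eps (fun j => (t j)⁻¹) ht'
  have hBt : IsUnit (B⁻¹).transpose.det := by
    rw [Matrix.det_transpose]
    exact (Matrix.isUnit_nonsing_inv_det_iff).2 hB
  set f : (J → ℝ) → ℂ := fun x => (phi S t (B.mulVec x + b) : ℂ) with hfdef
  have hcont : Continuous f := by
    have h1 : Continuous fun x : J → ℝ => phi S t (B.mulVec x + b) :=
      (phi_cont S).comp (Continuous.prodMk continuous_const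
        (((Continuous.matrix_mulVec continuous_const continuous_id)).add continuous_const))
    exact Complex.continuous_ofReal.comp h1
  have hbd : ∀ x, ‖f x‖ ≤ Real.exp (Real.pi / 2 * ε * D) *
      Real.exp (-(Real.pi / 2 * ε * δ) * ∑ j, x j ^ 2) := by
    intro x
    have h1 := phi_bd_eps S t (B.mulVec x + b) ε hε.le hεt
    have h2 := hD x
    rw [hfdef]
    simp only [Complex.norm_real, Real.norm_eq_abs]
    refine h1.trans ?_
    rw [← Real.exp_add]
    apply Real.exp_le_exp.2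
    have h3 : 0 < Real.pi / 2 * ε := by positivity
    nlinarith [mul_le_mul_of_nonneg_left h2 h3.le]
  have hint : ∀ k : J → ℤ, ∫ x, f x * en (icast k) x =
      ((-I) ^ S.card * ((|B.det|⁻¹ : ℝ) : ℂ) * ((∏ j, (√(t j))⁻¹ : ℝ) : ℂ)) *
        (phase B b k * (phi S (fun j => (t j)⁻¹) ((B⁻¹).transpose.mulVec (icast k) + 0) : ℂ)) := by
    intro k
    rw [hfdef]
    rw [ch_var B hB b (fun v => (phi S t v : ℂ)) (icast k)]
    rw [ft_phi S t ht]
    unfold phase
    rw [add_zero]
    ring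
  have hsum0 : Summable fun k : J → ℤ =>
      (phase B b k * (phi S (fun j => (t j)⁻¹) ((B⁻¹).transpose.mulVec (icast k) + 0) : ℂ)) := by
    have hg := gauss_affine (B⁻¹).transpose hBt 0 (Real.pi / 2 * ε') (by positivity)
    refine Summable.of_norm_bounded hg ?_
    intro k
    rw [norm_mul, norm_phase, one_mul, Complex.norm_real, Real.norm_eq_abs]
    exact phi_bd_eps S (fun j => (t j)⁻¹) _ ε' hε'.le hεt'
  have hF : Summable fun k : J → ℤ => ∫ x, f x * en (icast k) x := by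
    rw [show (fun k : J → ℤ => ∫ x, f x * en (icast k) x) = _ from funext hint]
    exact hsum0.mul_left _
  have hp := poisson f hcont _ _ (by positivity) hbd hF
  unfold theta
  simp only [one_mul]
  rw [show (∑' m : J → ℤ, (phi S t (B.mulVec (icast m) + b) : ℂ)) = ∑' m : J → ℤ, f (icast m) from
    rfl, hp, tsum_congr hint, tsum_mul_left]

end H37.HK
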