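import Pool.Agent.H37.HK.AvgDefs
import Pool.Agent.H37.HK.ThetaFE

/-!
# AvgFE: functional equation of the averaged theta function

`theta_fe` with `t = τ h / x`: `∏_j (√(τ_j/x))⁻¹ = x^{n/2}` because `∏ τ_j = 1`, and
`(τ_j / x)⁻¹ = x τ_j⁻¹`; then integrate over `T` (`integral_const_mul`).
-/

open NumberField Complex MeasureTheory

namespace H37.HK

variable {J : Type*} [Fintype J] [DecidableEq J] {κ : Type*} [Fintype κ]

omit [DecidableEq J] in
private theorem prod_sqrt_inv (D : TD J κ) (h : κ → ℝ) (x : ℝ) (hx : 0 < x) :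
    ∏ j, (√(1 / x * D.τ h j))⁻¹ = x ^ ((Fintype.card J : ℝ) / 2) := by
  have h1 : ∀ j, (√(1 / x * D.τ h j))⁻¹ = x ^ ((1 : ℝ) / 2) * (√(D.τ h j))⁻¹ := by
    intro j
    rw [Real.sqrt_mul (by positivity), mul_inv, one_div, Real.sqrt_inv, inv_inv,
      Real.sqrt_eq_rpow]
  rw [Finset.prod_congr rfl fun j _ => h1 j, Finset.prod_mul_distrib, Finset.prod_const,
    Finset.card_univ, Finset.prod_inv_distrib]
  have h2 : ∏ j, √(D.τ h j) = 1 := by
    rw [← Real.sqrt_prod _ fun j _ => (D.pos h j).le, D.prod_one, Real.sqrt_one]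
  rw [h2, inv_one, mul_one, ← Real.rpow_natCast, ← Real.rpow_mul hx.le]
  congr 1
  ring

theorem avg_fe (D : TD J κ) (S : Finset J) (B : Matrix J J ℝ) (hB : IsUnit B.det) (b : J → ℝ)
    (x : ℝ) (hx : 0 < x) :
    avg D (fun _ => 1) S B b (1 / x) =
      ((-I) ^ S.card * ((|B.det|⁻¹ : ℝ) : ℂ) * ((x ^ ((Fintype.card J : ℝ) / 2) : ℝ) : ℂ)) *
        avg D.inv (phase B b) S (B⁻¹).transpose 0 x := by
  unfold avg
  rw [show (D.inv).T = D.T from rfl, ← integral_const_mul]
  refine integral_congr_ae (Filter.Eventually.of_forall fun h => ?_)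
  simp only
  rw [theta_fe S B hB b (fun j => 1 / x * D.τ h j)
    (fun j => mul_pos (by positivity) (D.pos h j)), prod_sqrt_inv D h x hx]
  have h3 : (fun j => (1 / x * D.τ h j)⁻¹) = fun j => x * (D.inv).τ h j := by
    funext j
    rw [mul_inv, one_div, inv_inv]
    rfl
  rw [h3]

end H37.HK
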