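import Pool.Agent.H37.HK.RealPl

/-!
# PhiFP: properties of `phiF`

`phi_emb`: `phi (realSet S) (t ∘ pl) (emb x) = phiF S t x` (`Finset.prod_image` with `plR_bij`
injective, `emb_real`, `emb_sq`).
`phiF_unit`: for a totally positive unit `u`: `√((w u)² t) σ x = √t (σ u) (σ x)` at the real places
(`plR_abs`, `σ u > 0`), and `(w u)² t (w x)² = t (w (u x))²`.
`phiF_sgn`: `phiF S t x = (sign product) * |phiF S t x|` for `t > 0`, `x ≠ 0`, in the form used for
norms: `|phiF S t x| = phiF S t x * (sgnS S x).re`, `sgnS` is real with values `±1` for `x ≠ 0`.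
-/

open NumberField Complex

namespace H37.HK

variable {F : Type*} [Field F] [NumberField F]

open scoped Classical in
theorem phi_emb (S : Finset (F →+* ℝ)) (t : InfinitePlace F → ℝ) (x : F) :
    phi (realSet S) (fun j => t (pl j)) (emb x) = phiF S t x := by
  unfold phi phiF
  rw [emb_sq t x]
  congr 1
  unfold realSet
  have hinj : Set.InjOn (fun σ : F →+* ℝ => (Sum.inl (plR σ) : mixedEmbedding.index F)) (S : Set (F →+* ℝ)) := by
    intro σ _ τ _ h
    exact plR_bij.injective (Sum.inl_injective h)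
  rw [Finset.prod_image hinj]
  refine Finset.prod_congr rfl fun σ _ => ?_
  rw [emb_real]
  rfl

theorem realSet_eq_empty (S : Finset (F →+* ℝ)) : realSet S = ∅ ↔ S = ∅ := by
  classical
  unfold realSet
  exact Finset.image_eq_empty

theorem phiF_unit (S : Finset (F →+* ℝ)) (t : InfinitePlace F → ℝ) (ht : ∀ w, 0 ≤ t w)
    (u : (𝓞 F)ˣ) (hu : ∀ σ : F →+* ℝ, 0 < σ ((u : 𝓞 F) : F)) (x : F) :
    phiF S (fun w => (w ((u : 𝓞 F) : F)) ^ 2 * t w) x = phiF S t (((u : 𝓞 F) : F) * x) := by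
  unfold phiF
  congr 1
  · refine Finset.prod_congr rfl fun σ _ => ?_
    dsimp only
    rw [plR_abs, abs_of_pos (hu σ), Real.sqrt_mul (sq_nonneg _), Real.sqrt_sq (hu σ).le, map_mul]
    ring
  · congr 2
    refine Finset.sum_congr rfl fun w _ => ?_
    rw [map_mul]
    ring

theorem phiF_sgn (S : Finset (F →+* ℝ)) (t : InfinitePlace F → ℝ) (ht : ∀ w, 0 < t w)
    (x : 𝓞 F) (hx : x ≠ 0) :
    ((|phiF S t (x : F)| : ℝ) : ℂ) = (phiF S t (x : F) : ℂ) * sgnS S x := by
  have hs : sgnS S x = ((∏ σ ∈ S, ((SignType.sign (σ (x : F)) : ℤ) : ℝ) : ℝ) : ℂ) := by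
    unfold sgnS
    rw [ofReal_prod]
    refine Finset.prod_congr rfl fun σ _ => ?_
    rw [ofReal_intCast]
  rw [hs, ← ofReal_mul]
  congr 1
  unfold phiF
  rw [abs_mul, Real.abs_exp, Finset.abs_prod, mul_right_comm, ← Finset.prod_mul_distrib]
  congr 1
  refine Finset.prod_congr rfl fun σ _ => ?_
  have hx' : σ (x : F) ≠ 0 := by
    rw [map_ne_zero]
    simpa using hx
  have ht' : 0 < √(t (plR σ).1) := Real.sqrt_pos.2 (ht _)
  rw [abs_mul, abs_of_pos ht', mul_assoc]
  congr 1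
  rcases lt_or_gt_of_ne hx' with h | h
  · rw [sign_neg h, abs_of_neg h]
    simp
  · rw [sign_pos h, abs_of_pos h]
    simp

theorem sgnS_sq (S : Finset (F →+* ℝ)) (x : 𝓞 F) (hx : x ≠ 0) : sgnS S x * sgnS S x = 1 := by
  unfold sgnS
  rw [← Finset.prod_mul_distrib]
  refine Finset.prod_eq_one fun σ _ => ?_
  have hx' : σ (x : F) ≠ 0 := by
    rw [map_ne_zero]
    simpa using hx
  rcases lt_or_gt_of_ne hx' with h | h
  · rw [sign_neg h]
    simp
  · rw [sign_pos h]
    simp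

theorem sgnS_norm (S : Finset (F →+* ℝ)) (x : 𝓞 F) (hx : x ≠ 0) : ‖sgnS S x‖ = 1 := by
  have h := sgnS_sq S x hx
  have h1 : ‖sgnS S x‖ * ‖sgnS S x‖ = 1 := by
    rw [← norm_mul, h, norm_one]
  nlinarith [norm_nonneg (sgnS S x), mul_self_nonneg (‖sgnS S x‖ - 1)]

end H37.HK
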