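import Pool.Agent.H37.HK.Lat
import Pool.Agent.H37.HK.PhiFP
import Pool.Agent.H37.HK.ThetaSum

/-!
# LatSum: the sum over the nonzero elements of a coset is theta minus the constant term

The map `m ↦ a0 + e m` is a bijection from `index F → ℤ` to the coset `a0 + Lam`, and
`emb (a0 + e m) = B m + emb a0` (`emb_add`), so with `theta_summable` and `phi_emb`
`∑_{y ∈ a0 + Lam} phiF S t y = theta 1 (realSet S) B (emb a0) (t ∘ pl)`; the term of `y = 0`
(present iff `-a0 ∈ Lam`, iff some `m` has `B m + emb a0 = 0`, `emb_eq_zero`) is `phiF S t 0`, which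
is `1` if `S = ∅` and `0` otherwise (`phi_zero`, `realSet_eq_empty`), that is the constant term
`th0`.  (`HasSum` on the subtype of nonzero elements: `hasSum_subtype_iff_indicator`,
`HasSum.sub` with `hasSum_ite_eq`, or `Equiv` and `Function.Injective.hasSum_iff`.)
-/

open NumberField Complex Module

namespace H37.HK

variable {F : Type*} [Field F] [NumberField F]

private theorem latSum_hasSum {J : Type*} [Fintype J] [DecidableEq J] (S : Finset J)
    (B : Matrix J J ℝ) (hB : IsUnit B.det) (b t : J → ℝ) (ht : ∀ j, 0 < t j) :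
    HasSum (fun m : J → ℤ => if B.mulVec (icast m) + b = 0 then (0 : ℂ) else
      (phi S t (B.mulVec (icast m) + b) : ℂ)) (theta (fun _ => 1) S B b t -
        th0 (fun _ => 1) S B b) := by
  have hs := theta_summable (fun _ => 1) (fun _ => by simp) S B hB b t ht
  have hth0 : th0 (fun _ => 1) S B b = ∑' m : J → ℤ, (if B.mulVec (icast m) + b = 0 then
      1 * (phi S t (B.mulVec (icast m) + b) : ℂ) else 0) := by
    unfold th0
    by_cases hS : S = ∅
    · rw [if_pos hS]
      refine tsum_congr fun m => ?_
      by_cases h0 : B.mulVec (icast m) + b = 0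
      · rw [if_pos h0, if_pos h0, h0, phi_zero, if_pos hS]
        simp
      · rw [if_neg h0, if_neg h0]
    · rw [if_neg hS]
      symm
      have : ∀ m : J → ℤ, (if B.mulVec (icast m) + b = 0 then
          1 * (phi S t (B.mulVec (icast m) + b) : ℂ) else 0) = 0 := by
        intro m
        by_cases h0 : B.mulVec (icast m) + b = 0
        · rw [if_pos h0, h0, phi_zero, if_neg hS]
          simp
        · rw [if_neg h0]
      rw [tsum_congr this, tsum_zero]
  have hs0 : Summable fun m : J → ℤ => (if B.mulVec (icast m) + b = 0 then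
      1 * (phi S t (B.mulVec (icast m) + b) : ℂ) else 0) := by
    refine Summable.of_norm_bounded hs.norm fun m => ?_
    split_ifs
    · exact le_rfl
    · rw [norm_zero]
      exact norm_nonneg _
  rw [hth0]
  unfold theta
  refine (hs.hasSum.sub hs0.hasSum).congr_fun ?_
  intro m
  by_cases h0 : B.mulVec (icast m) + b = 0
  · simp [h0]
  · simp [h0]

open scoped Classical in
theorem lat_sum (Lam : Ideal (𝓞 F)) (a0 : 𝓞 F)
    (B : Matrix (mixedEmbedding.index F) (mixedEmbedding.index F) ℝ) (hB : IsUnit B.det)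
    (e : (mixedEmbedding.index F → ℤ) ≃ Lam)
    (he : ∀ m, emb (((e m : Lam) : 𝓞 F) : F) = B.mulVec (icast m))
    (S : Finset (F →+* ℝ)) (t : InfinitePlace F → ℝ) (ht : ∀ w, 0 < t w) :
    HasSum (fun y : cosetNZ Lam a0 => (phiF S t ((y : 𝓞 F) : F) : ℂ))
      (theta (fun _ => 1) (realSet S) B (emb (a0 : F)) (fun j => t (pl j)) -
        th0 (fun _ => 1) (realSet S) B (emb (a0 : F))) := by
  have hmain := latSum_hasSum (realSet S) B hB (emb (a0 : F)) (fun j => t (pl j))
    (fun j => ht _)
  set i : cosetNZ Lam a0 → (mixedEmbedding.index F → ℤ) :=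
    fun y => e.symm ⟨(y : 𝓞 F) - a0, y.2.2⟩ with hi
  have hv : ∀ y : cosetNZ Lam a0, B.mulVec (icast (i y)) + emb (a0 : F) = emb ((y : 𝓞 F) : F) := by
    intro y
    rw [← he, hi]
    simp only [Equiv.apply_symm_apply]
    rw [← emb_add]
    congr 1
    push_cast
    ring
  have hinj : Function.Injective i := by
    intro y y' h
    have h1 := e.symm.injective h
    have h2 : (y : 𝓞 F) - a0 = (y' : 𝓞 F) - a0 := congrArg Subtype.val h1
    exact Subtype.ext (sub_left_injective h2)
  have hout : ∀ m, m ∉ Set.range i →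
      (if B.mulVec (icast m) + emb (a0 : F) = 0 then (0 : ℂ) else
      (phi (realSet S) (fun j => t (pl j)) (B.mulVec (icast m) + emb (a0 : F)) : ℂ)) = 0 := by
    intro m hm
    by_cases h0 : B.mulVec (icast m) + emb (a0 : F) = 0
    · rw [if_pos h0]
    · exfalso
      apply hm
      have hne : ((e m : Lam) : 𝓞 F) + a0 ≠ 0 := by
        intro hz
        apply h0
        rw [← he, ← emb_add, emb_eq_zero]
        have := congrArg (algebraMap (𝓞 F) F) hz
        simpa using this
      refine ⟨⟨((e m : Lam) : 𝓞 F) + a0, hne, by simp⟩, ?_⟩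
      rw [hi]
      simp
  have h1 := (hinj.hasSum_iff hout).mpr hmain
  refine h1.congr_fun ?_
  intro y
  have hy0 : emb ((y : 𝓞 F) : F) ≠ 0 := by
    rw [Ne, emb_eq_zero]
    exact_mod_cast y.2.1
  simp only [Function.comp]
  rw [hv y, if_neg hy0, phi_emb]

end H37.HK
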