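import Pool.Agent.H37.HK.Defs

/-!
# TauP: properties of `tau`, `lgl`, `lg`

All by unfolding the definitions; `w₀` is the distinguished place, `mult w ∈ {1,2}`.
`tau_lg` at `w ≠ w₀`: `lg u w = mult w * log (w u)` (`logEmbedding_component`); at `w₀`:
`sum_logEmbedding_component`.  `Units.pos_at_place` gives `0 < w u`.
`tau_prod`: group the indices by places: a real place has one index, a complex place two, so the
product is `∏_w tau h w ^ mult w`; then `Fintype.prod_eq_mul_prod_subtype_ne`-type splitting at
`w₀` (see `Fintype.sum_eq_add_sum_subtype_ne`), exponents `2 h_w` and `-2 ∑ h`.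
`sum_lgl`: same splitting and `∑_w mult w = finrank` (`InfinitePlace.sum_mult_eq`).
`card_index`: `finrank ℝ (mixedSpace F) = finrank ℚ F` (`mixedEmbedding.finrank`,
`Module.finrank_eq_card_basis (stdBasis F)`).
-/

open NumberField Complex Units Units.dirichletUnitTheorem Module

namespace H37.HK

variable {F : Type*} [Field F] [NumberField F]

theorem tau_pos (h : logSpace F) (w : InfinitePlace F) : 0 < tau h w := by
  unfold tau
  split_ifs <;> exact Real.exp_pos _

theorem tau_cont : Continuous (fun h : logSpace F => tau h) := by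
  refine continuous_pi fun w => ?_
  unfold tau
  split_ifs with hw
  · fun_prop
  · have : Continuous (fun h : logSpace F => h ⟨w, hw⟩) := continuous_apply _
    fun_prop

theorem lgl_cont : Continuous (fun p : ℝ × logSpace F => lgl p) := by
  classical
  refine continuous_pi fun w => ?_
  unfold lgl
  split_ifs with hw
  · have : Continuous (fun p : ℝ × logSpace F => ∑ v, p.2 v) :=
      continuous_finsetSum _ fun v _ => (continuous_apply v).comp continuous_snd
    exact continuous_fst.add ((continuous_const.mul this).div_const _)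
  · have : Continuous (fun p : ℝ × logSpace F => p.2 ⟨w, hw⟩) :=
      (continuous_apply _).comp continuous_snd
    exact continuous_fst.add ((continuous_const.mul this).div_const _)

omit [NumberField F] in
private theorem tauP_multpos (w : InfinitePlace F) : (w.mult : ℝ) ≠ 0 := by
  have := InfinitePlace.mult_pos (w := w)
  positivity

theorem tau_lg (h : logSpace F) (u : (𝓞 F)ˣ) (w : InfinitePlace F) :
    tau (h + lg u) w = (w ((u : 𝓞 F) : F)) ^ 2 * tau h w := by
  classical
  have hpos : ∀ v : InfinitePlace F, 0 < v ((u : 𝓞 F) : F) := fun v => Units.pos_at_place u v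
  have key : ∀ v : InfinitePlace F, (v ((u : 𝓞 F) : F)) ^ 2 =
      Real.exp (2 * Real.log (v ((u : 𝓞 F) : F))) := by
    intro v
    rw [two_mul, Real.exp_add, Real.exp_log (hpos v), sq]
  by_cases hw : w = w₀
  · subst hw
    unfold tau
    rw [dif_pos rfl, dif_pos rfl, key, ← Real.exp_add]
    congr 1
    have hs : ∑ v, lg u v = -(w₀ : InfinitePlace F).mult *
        Real.log ((w₀ : InfinitePlace F) ((u : 𝓞 F) : F)) :=
      sum_logEmbedding_component u
    have hm := tauP_multpos (w₀ : InfinitePlace F)
    simp only [Pi.add_apply, Finset.sum_add_distrib]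
    rw [hs]
    field_simp
    ring
  · unfold tau
    rw [dif_neg hw, dif_neg hw, key, ← Real.exp_add]
    congr 1
    have hs : lg u ⟨w, hw⟩ = w.mult * Real.log (w ((u : 𝓞 F) : F)) :=
      logEmbedding_component u ⟨w, hw⟩
    have hm := tauP_multpos w
    simp only [Pi.add_apply]
    rw [hs]
    field_simp
    ring

theorem exp_lgl (p : ℝ × logSpace F) (w : InfinitePlace F) :
    Real.exp (lgl p w) = Real.exp p.1 * tau p.2 w := by
  unfold lgl tau
  split_ifs <;> rw [Real.exp_add]

open scoped Classical in
theorem prod_pl (f : InfinitePlace F → ℝ) :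
    ∏ j : mixedEmbedding.index F, f (pl j) = ∏ w : InfinitePlace F, f w ^ w.mult := by
  rw [InfinitePlace.prod_eq_prod_mul_prod, Fintype.prod_sum_type, Fintype.prod_prod_type]
  congr 1
  · refine Finset.prod_congr rfl fun w _ => ?_
    simp [pl, InfinitePlace.mult, w.2]
  · refine Finset.prod_congr rfl fun w _ => ?_
    have : ¬ w.1.IsReal := InfinitePlace.not_isReal_iff_isComplex.2 w.2
    simp [pl, InfinitePlace.mult, this, sq]

open scoped Classical in
theorem tau_prod (h : logSpace F) : ∏ j : mixedEmbedding.index F, tau h (pl j) = 1 := by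
  rw [prod_pl, Fintype.prod_eq_mul_prod_subtype_ne _ w₀]
  have h1 : tau h w₀ ^ (w₀ : InfinitePlace F).mult = Real.exp (-2 * ∑ v, h v) := by
    unfold tau
    rw [dif_pos rfl, ← Real.exp_nat_mul]
    congr 1
    have hm := tauP_multpos (w₀ : InfinitePlace F)
    field_simp
  have h2 : ∀ v : {w : InfinitePlace F // w ≠ w₀}, tau h v.1 ^ v.1.mult =
      Real.exp (2 * h v) := by
    intro v
    unfold tau
    rw [dif_neg v.2, ← Real.exp_nat_mul]
    congr 1
    have hm := tauP_multpos v.1
    field_simp
  rw [h1, Finset.prod_congr rfl fun v _ => h2 v, ← Real.exp_sum, ← Real.exp_add,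
    ← Finset.mul_sum]
  rw [show -2 * ∑ v, h v + 2 * ∑ v, h v = 0 by ring, Real.exp_zero]

theorem sum_lgl (p : ℝ × logSpace F) :
    ∑ w : InfinitePlace F, (w.mult : ℝ) * lgl p w = (finrank ℚ F : ℝ) * p.1 := by
  classical
  unfold lgl
  simp_rw [mul_add]
  rw [Finset.sum_add_distrib, ← Finset.sum_mul, ← Nat.cast_sum, InfinitePlace.sum_mult_eq]
  rw [add_eq_left]
  rw [Fintype.sum_eq_add_sum_subtype_ne _ w₀, dif_pos rfl]
  have h2 : ∀ v : {w : InfinitePlace F // w ≠ w₀},
      ((v.1.mult : ℝ) * (if hw : v.1 = w₀ then -2 * (∑ v, p.2 v) / (w₀ : InfinitePlace F).mult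
        else 2 * p.2 ⟨v.1, hw⟩ / v.1.mult)) = 2 * p.2 v := by
    intro v
    rw [dif_neg v.2]
    have hm := tauP_multpos v.1
    field_simp
  rw [Finset.sum_congr rfl fun v _ => h2 v, ← Finset.mul_sum]
  have hm := tauP_multpos (w₀ : InfinitePlace F)
  field_simp
  ring

open scoped Classical in
theorem card_index : Fintype.card (mixedEmbedding.index F) = finrank ℚ F := by
  rw [← mixedEmbedding.finrank, finrank_eq_card_basis (mixedEmbedding.stdBasis F)]

end H37.HK
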