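import Pool.Agent.H37.HK.Avg
import Pool.Agent.H37.HK.TauP

/-!
# MelEq: the Mellin transform in logarithmic coordinates

`mellin_exp`: `mellin f s = ∫_ℝ exp (s ξ) f (exp ξ) dξ` (substitution `x = exp ξ`; see
`MeasureTheory.integral_image_eq_integral_abs_deriv_smul`, or `mellin_eq_fourier` in Mathlib,
`x^{s-1} · exp ξ = exp (s ξ)`).
`mel_eq`: `avg (exp ξ) - avg0 = ∫_{h ∈ T} (theta (exp ξ τ h) - th0)` (`avg_integrable`,
`integral_sub`, `setIntegral_const`) and Fubini (`integral_prod`, `Measure.volume_eq_prod`,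
`Measure.prod_restrict`), using the integrability hypothesis.
-/

open NumberField Complex Units Units.dirichletUnitTheorem MeasureTheory Module

namespace H37.HK

theorem mellin_exp (f : ℝ → ℂ) (s : ℂ) :
    mellin f s = ∫ ξ : ℝ, cexp (s * ξ) * f (Real.exp ξ) := by
  have himg : Real.exp '' Set.univ = Set.Ioi 0 := by
    rw [Set.image_univ, Real.range_exp]
  rw [mellin, ← himg, integral_image_eq_integral_abs_deriv_smul MeasurableSet.univ
    (fun x _ => (Real.hasDerivAt_exp x).hasDerivWithinAt) Real.exp_injective.injOn,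
    setIntegral_univ]
  congr 1
  funext ξ
  rw [abs_of_pos (Real.exp_pos ξ), _root_.smul_eq_mul, Complex.real_smul]
  have h1 : ((Real.exp ξ : ℝ) : ℂ) = cexp ξ := by push_cast; rfl
  have h2 : ((Real.exp ξ : ℝ) : ℂ) ^ (s - 1) = cexp (ξ * (s - 1)) := by
    rw [Complex.cpow_def_of_ne_zero (by rw [h1]; exact Complex.exp_ne_zero _),
      ← Complex.ofReal_log (Real.exp_pos ξ).le, Real.log_exp]
  rw [h2, h1, ← mul_assoc, ← Complex.exp_add]
  congr 2
  ring

variable {J : Type*} [Fintype J] [DecidableEq J] {κ : Type*} [Fintype κ]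

theorem mel_eq (D : TD J κ) (c : (J → ℤ) → ℂ) (hc : ∀ m, ‖c m‖ ≤ 1) (S : Finset J)
    (B : Matrix J J ℝ) (hB : IsUnit B.det) (b : J → ℝ) (s : ℂ)
    (hint : IntegrableOn (fun p : ℝ × (κ → ℝ) => cexp (s * p.1) *
      (theta c S B b (fun j => Real.exp p.1 * D.τ p.2 j) - th0 c S B b))
        ((Set.univ : Set ℝ) ×ˢ D.T)) :
    mellin (fun x => avg D c S B b x - avg0 D c S B b) s =
      ∫ p in (Set.univ : Set ℝ) ×ˢ D.T, cexp (s * p.1) *
        (theta c S B b (fun j => Real.exp p.1 * D.τ p.2 j) - th0 c S B b) := by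
  rw [mellin_exp, Measure.volume_eq_prod, setIntegral_prod _ (by
    rw [← Measure.volume_eq_prod]; exact hint), setIntegral_univ]
  congr 1
  funext ξ
  have hfin : volume D.T < ⊤ := D.bdd.measure_lt_top
  have hi := avg_integrable D c hc S B hB b (Real.exp ξ) (Real.exp_pos ξ)
  have hconst : IntegrableOn (fun _ : κ → ℝ => th0 c S B b) D.T :=
    integrableOn_const hfin.ne
  have heq : avg D c S B b (Real.exp ξ) - avg0 D c S B b =
      ∫ h in D.T, (theta c S B b (fun j => Real.exp ξ * D.τ h j) - th0 c S B b) := by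
    rw [integral_sub hi hconst, setIntegral_const]
    rw [avg, avg0]
    congr 1
  rw [heq, ← integral_const_mul]

end H37.HK
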