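import Pool.Agent.H37.HK.PhiFP

/-!
# GamF: the product of the local Gamma factors

Let `n = finrank ℚ F`, `zz S s w = mult w * s / n + (1/2 if w is the place of some σ ∈ S)`.
`gam_fin`: for `x ≠ 0`, `Re s > 0`
`∏_w Γ(z_w) (π (w x)²)^{-z_w} · ∏_{σ ∈ S} σ x = gammaF S (2s/n) · sgnS S x · nrm x ^ (-2s/n)`.
Proof: real `w`, no `σ`: `π^{-s/n} Γ(s/n) (w x)^{-2s/n}`, and `Gammaℝ (2s/n) = π^{-s/n} Γ(s/n)`;
real `w = plR σ`, `σ ∈ S`: `π^{-(s/n+1/2)} Γ(s/n+1/2) |σ x|^{-2s/n-1}`, times
`σ x = sign (σ x) |σ x|`, and `Gammaℝ (2s/n + 1) = π^{-(s/n+1/2)} Γ(s/n+1/2)`;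
complex `w`: `π^{-2s/n} Γ(2s/n) (w x)^{-4s/n}`, `Gammaℝ (2·2s/n)`.  The number of real places not in
the image of `S` is `nrRealPlaces - card S` (`plR_bij`).  Finally
`∏_w (w x)^{mult w} = |N x|` (`InfinitePlace.prod_eq_abs_norm`), and powers of positive reals
(`Complex.ofReal_cpow`, `Complex.mul_cpow_ofReal_nonneg`, `Complex.cpow_nat_mul`, `finset product`).
-/

open NumberField Complex Module

namespace H37.HK

variable {F : Type*} [Field F] [NumberField F]

/-- The local exponents. -/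
noncomputable def zz (S : Finset (F →+* ℝ)) (s : ℂ) (w : InfinitePlace F) : ℂ :=
  open Classical in
  (w.mult : ℂ) * s / (finrank ℚ F : ℂ) + (if ∃ σ ∈ S, (plR σ).1 = w then 1 / 2 else 0)

private theorem GamF_n_pos : (0 : ℝ) < (finrank ℚ F : ℝ) := by
  exact_mod_cast finrank_pos

theorem zz_re (S : Finset (F →+* ℝ)) (s : ℂ) (hs : 0 < s.re) (w : InfinitePlace F) :
    0 < (zz S s w).re := by
  classical
  have hn : (0 : ℝ) < (finrank ℚ F : ℝ) := GamF_n_pos
  have hm : (0 : ℝ) < (w.mult : ℝ) := by exact_mod_cast InfinitePlace.mult_pos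
  have h1 : ((w.mult : ℂ) * s / (finrank ℚ F : ℂ)).re = (w.mult : ℝ) * s.re / (finrank ℚ F : ℝ) := by
    have : ((w.mult : ℂ) * s / (finrank ℚ F : ℂ)) =
        (((w.mult : ℝ) / (finrank ℚ F : ℝ) : ℝ) : ℂ) * s := by
      push_cast
      ring
    rw [this, Complex.re_ofReal_mul]
    ring
  have h2 : 0 < (w.mult : ℝ) * s.re / (finrank ℚ F : ℝ) := by positivity
  unfold zz
  rw [Complex.add_re, h1]
  split_ifs
  · have : ((1 / 2 : ℂ)).re = 1 / 2 := by norm_num
    rw [this]
    linarith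
  · simpa using h2

open scoped Classical in
private theorem GamF_prod (S : Finset (F →+* ℝ)) (A B C : ℂ) :
    ∏ w : InfinitePlace F, (if w.IsReal then (if ∃ σ ∈ S, (plR σ).1 = w then B else A) else C) =
      A ^ (InfinitePlace.nrRealPlaces F - S.card) * B ^ S.card *
        C ^ InfinitePlace.nrComplexPlaces F := by
  rw [Finset.prod_ite]
  congr 1
  · rw [Finset.prod_ite, Finset.prod_const, Finset.prod_const]
    have hB : (Finset.filter (fun w : InfinitePlace F => ∃ σ ∈ S, (plR σ).1 = w)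
        (Finset.filter (fun w : InfinitePlace F => w.IsReal) Finset.univ)).card = S.card := by
      have h1 : (Finset.filter (fun w : InfinitePlace F => ∃ σ ∈ S, (plR σ).1 = w)
        (Finset.filter (fun w : InfinitePlace F => w.IsReal) Finset.univ)) =
          S.image (fun σ => (plR σ).1) := by
        ext w
        simp only [Finset.mem_filter, Finset.mem_univ, true_and, Finset.mem_image]
        constructor
        · rintro ⟨_, σ, hσ, rfl⟩
          exact ⟨σ, hσ, rfl⟩
        · rintro ⟨σ, hσ, rfl⟩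
          exact ⟨(plR σ).2, σ, hσ, rfl⟩
      rw [h1, Finset.card_image_of_injective]
      exact Subtype.val_injective.comp plR_bij.1
    have hT : (Finset.filter (fun w : InfinitePlace F => w.IsReal) Finset.univ).card =
        InfinitePlace.nrRealPlaces F := by
      rw [InfinitePlace.nrRealPlaces, Fintype.card_subtype]
    have hA := Finset.card_filter_add_card_filter_not
      (s := Finset.filter (fun w : InfinitePlace F => w.IsReal) Finset.univ)
      (fun w : InfinitePlace F => ∃ σ ∈ S, (plR σ).1 = w)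
    rw [hB, hT] at hA
    rw [hB, mul_comm]
    congr 2
    omega
  · rw [Finset.prod_const]
    congr 1
    rw [InfinitePlace.nrComplexPlaces, Fintype.card_subtype]
    congr 1
    ext w
    simp [InfinitePlace.not_isReal_iff_isComplex]

/-- one local factor -/
private theorem GamF_local (z : ℂ) (y : ℝ) (hy : 0 < y) :
    Complex.Gamma z * ((Real.pi * y ^ 2 : ℝ) : ℂ) ^ (-z) =
      Gammaℝ (2 * z) * (y : ℂ) ^ (-(2 * z)) := by
  rw [Gammaℝ_def, Complex.ofReal_mul,
    Complex.mul_cpow_ofReal_nonneg Real.pi_pos.le (by positivity)]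
  have h1 : ((y ^ 2 : ℝ) : ℂ) ^ (-z) = (y : ℂ) ^ (-(2 * z)) := by
    have h2 : -(2 * z) = ((2 : ℕ) : ℂ) * (-z) := by push_cast; ring
    rw [h2, Complex.cpow_nat_mul, pow_two, pow_two, Complex.ofReal_mul,
      Complex.mul_cpow_ofReal_nonneg hy.le hy.le]
  rw [h1]
  have h3 : -(2 * z) / 2 = -z := by ring
  have h4 : 2 * z / 2 = z := by ring
  rw [h3, h4]
  ring

theorem gam_fin (S : Finset (F →+* ℝ)) (s : ℂ) (hs : 0 < s.re) (x : 𝓞 F) (hx : x ≠ 0) :
    (∏ w : InfinitePlace F, (Complex.Gamma (zz S s w) *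
        ((Real.pi * (w (x : F)) ^ 2 : ℝ) : ℂ) ^ (-(zz S s w)))) * (∏ σ ∈ S, ((σ (x : F) : ℝ) : ℂ)) =
      gammaF F S (2 * s / (finrank ℚ F : ℂ)) * sgnS S x *
        (nrm x : ℂ) ^ (-(2 * s / (finrank ℚ F : ℂ))) := by
  classical
  set c : ℂ := 2 * s / (finrank ℚ F : ℂ) with hc
  have hxF : (x : F) ≠ 0 := by
    simpa using hx
  have hw : ∀ w : InfinitePlace F, 0 < w (x : F) := fun w => InfinitePlace.pos_iff.2 hxF
  have hz : ∀ w : InfinitePlace F, 2 * zz S s w =
      (w.mult : ℂ) * c + (if ∃ σ ∈ S, (plR σ).1 = w then 1 else 0) := by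
    intro w
    unfold zz
    rw [hc]
    split_ifs <;> ring
  have hloc : ∀ w : InfinitePlace F, Complex.Gamma (zz S s w) *
        ((Real.pi * (w (x : F)) ^ 2 : ℝ) : ℂ) ^ (-(zz S s w)) =
      (if w.IsReal then (if ∃ σ ∈ S, (plR σ).1 = w then Gammaℝ (c + 1) else Gammaℝ c)
        else Gammaℝ (2 * c)) *
      (((w (x : F) ^ w.mult : ℝ) : ℂ) ^ (-c) *
        (if ∃ σ ∈ S, (plR σ).1 = w then ((w (x : F) : ℝ) : ℂ)⁻¹ else 1)) := by
    intro w
    rw [GamF_local _ _ (hw w), hz w]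
    have hne : ((w (x : F) : ℝ) : ℂ) ≠ 0 := by exact_mod_cast (hw w).ne'
    have h1 : (((w (x : F) ^ w.mult : ℝ) : ℂ) ^ (-c)) =
        ((w (x : F) : ℝ) : ℂ) ^ (-((w.mult : ℂ) * c)) := by
      have h2 : -((w.mult : ℂ) * c) = (w.mult : ℂ) * (-c) := by ring
      rw [h2, Complex.cpow_nat_mul]
      generalize w.mult = k
      induction k with
      | zero => simp
      | succ k ih =>
        rw [pow_succ, pow_succ, Complex.ofReal_mul,
          Complex.mul_cpow_ofReal_nonneg (pow_nonneg (hw w).le _) (hw w).le, ih]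
    by_cases hreal : w.IsReal
    · rw [if_pos hreal, h1, InfinitePlace.mult, if_pos hreal]
      by_cases hS : ∃ σ ∈ S, (plR σ).1 = w
      · simp only [if_pos hS, Nat.cast_one, one_mul]
        rw [neg_add, Complex.cpow_add _ _ hne, Complex.cpow_neg_one]
      · simp only [if_neg hS, Nat.cast_one, one_mul, add_zero, mul_one]
    · have hS : ¬ ∃ σ ∈ S, (plR σ).1 = w := by
        rintro ⟨σ, _, rfl⟩
        exact hreal (plR σ).2
      rw [if_neg hreal, h1, InfinitePlace.mult, if_neg hreal]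
      simp only [if_neg hS, Nat.cast_ofNat, add_zero, mul_one]
  rw [Finset.prod_congr rfl fun w _ => hloc w, Finset.prod_mul_distrib, Finset.prod_mul_distrib,
    GamF_prod]
  have hnorm : ∏ w : InfinitePlace F, (((w (x : F) ^ w.mult : ℝ) : ℂ) ^ (-c)) =
      (nrm x : ℂ) ^ (-c) := by
    have h1 : ∀ t : Finset (InfinitePlace F), ∏ w ∈ t, (((w (x : F) ^ w.mult : ℝ) : ℂ) ^ (-c)) =
        ((∏ w ∈ t, w (x : F) ^ w.mult : ℝ) : ℂ) ^ (-c) := by
      intro t
      induction t using Finset.induction_on with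
      | empty => simp
      | insert a t ha ih =>
        rw [Finset.prod_insert ha, ih, Finset.prod_insert ha, Complex.ofReal_mul,
          Complex.mul_cpow_ofReal_nonneg (pow_nonneg (hw a).le _)
            (Finset.prod_nonneg fun w _ => pow_nonneg (hw w).le _)]
    rw [h1, InfinitePlace.prod_eq_abs_norm]
    congr 2
    unfold nrm
    rw [← Algebra.coe_norm_int]
    push_cast
    rfl
  have hsgn : (∏ w : InfinitePlace F,
      (if ∃ σ ∈ S, (plR σ).1 = w then ((w (x : F) : ℝ) : ℂ)⁻¹ else 1)) *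
        (∏ σ ∈ S, ((σ (x : F) : ℝ) : ℂ)) = sgnS S x := by
    have h1 : (∏ w : InfinitePlace F,
      (if ∃ σ ∈ S, (plR σ).1 = w then ((w (x : F) : ℝ) : ℂ)⁻¹ else 1)) =
        ∏ σ ∈ S, ((|σ (x : F)| : ℝ) : ℂ)⁻¹ := by
      rw [Finset.prod_ite, Finset.prod_const_one, mul_one]
      have h2 : Finset.filter (fun w : InfinitePlace F => ∃ σ ∈ S, (plR σ).1 = w) Finset.univ =
          S.image (fun σ => (plR σ).1) := by
        ext w
        simp
      rw [h2, Finset.prod_image (fun a _ b _ h => plR_bij.1 (Subtype.val_injective h))]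
      exact Finset.prod_congr rfl fun σ _ => by rw [plR_abs]
    rw [h1, ← Finset.prod_mul_distrib]
    unfold sgnS
    refine Finset.prod_congr rfl fun σ _ => ?_
    have h3 : σ (x : F) ≠ 0 := by
      rw [Ne, map_eq_zero]
      exact hxF
    have h4 : ((SignType.sign (σ (x : F)) : ℤ) : ℝ) * |σ (x : F)| = σ (x : F) := by
      rcases lt_or_gt_of_ne h3 with h | h
      · rw [sign_neg h, abs_of_neg h]
        simp
      · rw [sign_pos h, abs_of_pos h]
        simp
    have h5 : ((|σ (x : F)| : ℝ) : ℂ) ≠ 0 := by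
      exact_mod_cast (abs_pos.2 h3).ne'
    rw [inv_mul_eq_iff_eq_mul₀ h5]
    rw [mul_comm]
    have := congrArg (fun t : ℝ => (t : ℂ)) h4
    simp only [Complex.ofReal_mul, Complex.ofReal_intCast] at this
    exact this.symm
  rw [hnorm]
  unfold gammaF
  rw [← hsgn]
  ring

/-- For real positive arguments the Gamma factor is a positive real number. -/
theorem gammaF_pos (S : Finset (F →+* ℝ)) (x : ℝ) (hx : 0 < x) :
    ∃ r : ℝ, 0 < r ∧ gammaF F S (x : ℂ) = r := by
  have h1 : ∀ y : ℝ, 0 < y → ∃ r : ℝ, 0 < r ∧ Gammaℝ (y : ℂ) = r := by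
    intro y hy
    refine ⟨Real.pi ^ (-y / 2) * Real.Gamma (y / 2),
      mul_pos (Real.rpow_pos_of_pos Real.pi_pos _) (Real.Gamma_pos_of_pos (by positivity)), ?_⟩
    rw [Gammaℝ_def, Complex.ofReal_mul, Complex.ofReal_cpow Real.pi_pos.le, ← Complex.Gamma_ofReal]
    push_cast
    rfl
  obtain ⟨a, ha, ha'⟩ := h1 x hx
  obtain ⟨b, hb, hb'⟩ := h1 (x + 1) (by linarith)
  obtain ⟨d, hd, hd'⟩ := h1 (2 * x) (by linarith)
  refine ⟨a ^ (InfinitePlace.nrRealPlaces F - S.card) * b ^ S.card *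
    d ^ InfinitePlace.nrComplexPlaces F, by positivity, ?_⟩
  unfold gammaF
  push_cast at ha' hb' hd' ⊢
  rw [ha', hb', hd']

end H37.HK
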