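import Pool.Agent.H37.HK.TauP

/-!
# LogVol: the linear change of variables `(ξ, h) ↦ lgl (ξ, h)`

`lgl : ℝ × logSpace F → (InfinitePlace F → ℝ)` is linear and bijective: from `y = lgl (ξ, h)` one
recovers `ξ = (∑ mult w y_w) / n` (`sum_lgl`) and `h_w = mult w (y_w - ξ) / 2` for `w ≠ w₀`;
conversely for any `y` these `ξ, h` satisfy `lgl (ξ, h) = y` (at `w₀` by the definition of `ξ`).
So it is a continuous linear equivalence, the push-forward of Lebesgue measure is an additive Haar
measure on `InfinitePlace F → ℝ`, hence `cF` times Lebesgue measure, `0 < cF < ∞`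
(`MeasureTheory.Measure.isAddHaarMeasure_map`-type instance for `ContinuousLinearEquiv`,
`MeasureTheory.Measure.isAddHaarMeasure_eq_smul`; or `addHaarScalarFactor`).
Then `integral_map_equiv`, `integrable_map_equiv` (a measurable equivalence).
-/

open NumberField Complex Units Units.dirichletUnitTheorem MeasureTheory

open scoped Classical

namespace H37.HK

variable {F : Type*} [Field F] [NumberField F]

variable (F) in
/-- `lgl` as a linear map. -/
private noncomputable def lglL : (ℝ × logSpace F) →ₗ[ℝ] (InfinitePlace F → ℝ) where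
  toFun p := lgl p
  map_add' p q := by
    funext w
    simp only [lgl, Prod.fst_add, Prod.snd_add, Pi.add_apply]
    split_ifs
    · rw [Finset.sum_add_distrib]; ring
    · ring
  map_smul' a p := by
    funext w
    simp only [lgl, Prod.smul_fst, Prod.smul_snd, Pi.smul_apply, _root_.smul_eq_mul,
      RingHom.id_apply]
    split_ifs
    · rw [← Finset.mul_sum]; ring
    · ring

private theorem lgl_of_ne (p : ℝ × logSpace F) (w : InfinitePlace F) (hw : w ≠ w₀) :
    lgl p w = p.1 + 2 * p.2 ⟨w, hw⟩ / w.mult := by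
  simp only [lgl, dif_neg hw]

private theorem fin_ne : (Module.finrank ℚ F : ℝ) ≠ 0 := by
  exact_mod_cast (Module.finrank_pos (R := ℚ) (M := F)).ne'

omit [NumberField F] in
private theorem mult_ne (w : InfinitePlace F) : (w.mult : ℝ) ≠ 0 := by
  exact_mod_cast (InfinitePlace.mult_pos (w := w)).ne'

private theorem lgl_inj : Function.Injective (lglL F) := by
  intro p q hpq
  have h1 : lgl p = lgl q := hpq
  have hx : p.1 = q.1 := by
    have hp := sum_lgl p
    have hq := sum_lgl q
    rw [h1, hq] at hp
    exact (mul_left_cancel₀ fin_ne hp).symm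
  refine Prod.ext hx ?_
  funext ⟨w, hw⟩
  have h2 := congrFun h1 w
  rw [lgl_of_ne p w hw, lgl_of_ne q w hw, hx] at h2
  have h3 := add_left_cancel h2
  have hm := mult_ne w
  field_simp at h3
  exact h3

private theorem lgl_surj : Function.Surjective (lglL F) := by
  intro y
  set ξ : ℝ := (∑ w : InfinitePlace F, (w.mult : ℝ) * y w) / (Module.finrank ℚ F : ℝ) with hξ
  refine ⟨(ξ, fun v => (v.1.mult : ℝ) * (y v.1 - ξ) / 2), ?_⟩
  set p : ℝ × logSpace F := (ξ, fun v => (v.1.mult : ℝ) * (y v.1 - ξ) / 2) with hp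
  change lgl p = y
  have hne : ∀ w : InfinitePlace F, w ≠ w₀ → lgl p w = y w := by
    intro w hw
    rw [lgl_of_ne p w hw]
    have hm := mult_ne w
    simp only [hp]
    field_simp
    ring
  have hs := sum_lgl p
  have hs' : (Module.finrank ℚ F : ℝ) * p.1 = ∑ w : InfinitePlace F, (w.mult : ℝ) * y w := by
    simp only [hp, hξ]
    have := fin_ne (F := F)
    field_simp
  rw [hs'] at hs
  funext w
  by_cases hw : w = w₀
  · subst hw
    rw [← Finset.add_sum_erase _ _ (Finset.mem_univ (w₀ : InfinitePlace F)),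
      ← Finset.add_sum_erase _ (fun w : InfinitePlace F => (w.mult : ℝ) * y w)
        (Finset.mem_univ (w₀ : InfinitePlace F))] at hs
    have h4 : ∑ x ∈ Finset.univ.erase (w₀ : InfinitePlace F), (x.mult : ℝ) * lgl p x =
        ∑ x ∈ Finset.univ.erase (w₀ : InfinitePlace F), (x.mult : ℝ) * y x := by
      refine Finset.sum_congr rfl fun x hx => ?_
      rw [hne x (Finset.ne_of_mem_erase hx)]
    rw [h4] at hs
    exact mul_left_cancel₀ (mult_ne _) (add_right_cancel hs)
  · exact hne w hw

variable (F) in
theorem log_vol : ∃ cF : ℝ, 0 < cF ∧ ∀ g : (InfinitePlace F → ℝ) → ℂ, Integrable g →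
    Integrable (fun p : ℝ × logSpace F => g (lgl p)) ∧
      ∫ p : ℝ × logSpace F, g (lgl p) = (cF : ℂ) * ∫ y : InfinitePlace F → ℝ, g y := by
  let e : (ℝ × logSpace F) ≃L[ℝ] (InfinitePlace F → ℝ) :=
    (LinearEquiv.ofBijective (lglL F) ⟨lgl_inj, lgl_surj⟩).toContinuousLinearEquiv
  have he : ∀ p, e p = lgl p := fun p => rfl
  let μ : Measure (InfinitePlace F → ℝ) := (volume : Measure (ℝ × logSpace F)).map e
  have hvol : (volume : Measure (ℝ × logSpace F)).IsAddHaarMeasure :=
    Measure.prod.instIsAddHaarMeasure volume volume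
  have : μ.IsAddHaarMeasure := ContinuousLinearEquiv.isAddHaarMeasure_map e volume
  let c : NNReal := Measure.addHaarScalarFactor μ (volume : Measure (InfinitePlace F → ℝ))
  have hc : 0 < c := Measure.addHaarScalarFactor_pos_of_isAddHaarMeasure _ _
  have hμ : μ = c • (volume : Measure (InfinitePlace F → ℝ)) :=
    Measure.isAddLeftInvariant_eq_smul μ volume
  refine ⟨(c : ℝ), by exact_mod_cast hc, fun g hg => ?_⟩
  let em : (ℝ × logSpace F) ≃ᵐ (InfinitePlace F → ℝ) := e.toHomeomorph.toMeasurableEquiv
  have hem : ∀ p, em p = lgl p := fun p => rfl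
  have hmap : (volume : Measure (ℝ × logSpace F)).map em = μ := rfl
  have hgμ : Integrable g μ := by
    rw [hμ]
    exact hg.smul_measure_nnreal
  constructor
  · have h := (integrable_map_equiv em g (μ := volume)).1 (by rw [hmap]; exact hgμ)
    exact h
  · have h := integral_map_equiv (μ := (volume : Measure (ℝ × logSpace F))) em g
    rw [hmap, hμ] at h
    rw [integral_smul_nnreal_measure] at h
    have h2 : ∫ p : ℝ × logSpace F, g (lgl p) = ∫ x : ℝ × logSpace F, g (em x) := rfl
    rw [h2, ← h]
    rw [NNReal.smul_def, Complex.real_smul]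

end H37.HK
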