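import Pool.Agent.H37.HK.GamN
import Pool.Agent.H37.HK.GamF
import Pool.Agent.H37.HK.LogVol

/-!
# OrbInt: the orbital integral

`KK S s x (ξ, h) = exp (s ξ) · phiF S (exp ∘ lgl (ξ, h)) x`.  With `y = lgl (ξ, h)`:
`exp (s ξ) = ∏_w exp (s mult w y_w / n)` (`sum_lgl`), `√(exp y_w) = exp (y_w / 2)`, so
`KK = (∏_{σ ∈ S} σ x) · ∏_w exp (zz S s w · y_w) exp (-π e^{y_w} (w x)²)`;
`log_vol`, `gam_prod`, `gam_fin`.
Norm: `‖KK S s x p‖ = exp (Re s ξ) |phiF ..|`, and by `phiF_sgn` this is `KK S (Re s) x p · sgnS S x`.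
-/

open NumberField Complex Units Units.dirichletUnitTheorem MeasureTheory Module

open scoped Classical

namespace H37.HK

variable {F : Type*} [Field F] [NumberField F]

/-- The integrand of the unfolded Mellin transform, in logarithmic coordinates. -/
noncomputable def KK (S : Finset (F →+* ℝ)) (s : ℂ) (x : F) (p : ℝ × logSpace F) : ℂ :=
  cexp (s * p.1) * (phiF S (fun w => Real.exp (lgl p w)) x : ℂ)

private theorem sqrt_prod (S : Finset (F →+* ℝ)) (y : InfinitePlace F → ℝ) :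
    ((∏ σ ∈ S, √(Real.exp (y (plR σ).1)) : ℝ) : ℂ) =
      cexp (∑ w, (if ∃ σ ∈ S, (plR σ).1 = w then (1 / 2 : ℂ) else 0) * (y w : ℂ)) := by
  have h1 : ∀ σ : F →+* ℝ, √(Real.exp (y (plR σ).1)) = Real.exp (y (plR σ).1 / 2) := by
    intro σ
    rw [Real.sqrt_eq_rpow, ← Real.exp_mul]
    congr 1
    ring
  simp_rw [h1]
  rw [← Real.exp_sum, Complex.ofReal_exp]
  congr 1
  have hinj : Set.InjOn (fun σ : F →+* ℝ => ((plR σ).1 : InfinitePlace F)) S := by
    intro a _ b _ hab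
    exact plR_bij.1 (Subtype.ext hab)
  have h2 : ∀ w : InfinitePlace F, (∃ σ ∈ S, (plR σ).1 = w) ↔
      w ∈ S.image (fun σ : F →+* ℝ => ((plR σ).1 : InfinitePlace F)) := by
    intro w
    simp
  simp_rw [h2]
  have h3 : ∑ w, (if w ∈ S.image (fun σ : F →+* ℝ => ((plR σ).1 : InfinitePlace F))
      then (1 / 2 : ℂ) else 0) * (y w : ℂ) =
      ∑ w ∈ S.image (fun σ : F →+* ℝ => ((plR σ).1 : InfinitePlace F)), (y w : ℂ) / 2 := by
    rw [← Finset.sum_filter_add_sum_filter_not Finset.univ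
      (fun w => w ∈ S.image (fun σ : F →+* ℝ => ((plR σ).1 : InfinitePlace F)))]
    rw [Finset.filter_univ_mem, Finset.sum_eq_zero (s := Finset.univ.filter _), add_zero]
    · refine Finset.sum_congr rfl fun w hw => ?_
      rw [if_pos hw]
      ring
    · intro w hw
      rw [if_neg (Finset.mem_filter.1 hw).2, zero_mul]
  rw [h3, Finset.sum_image hinj]
  push_cast
  rfl

private theorem fin_neC : (finrank ℚ F : ℂ) ≠ 0 := by
  exact_mod_cast (Module.finrank_pos (R := ℚ) (M := F)).ne'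

private theorem KK_eq (S : Finset (F →+* ℝ)) (s : ℂ) (x : F) (p : ℝ × logSpace F) :
    KK S s x p = (∏ σ ∈ S, ((σ x : ℝ) : ℂ)) * ∏ w, (cexp (zz S s w * (lgl p w : ℂ)) *
      (Real.exp (-Real.pi * (Real.exp (lgl p w) * (w x) ^ 2)) : ℂ)) := by
  have hs : s * p.1 = ∑ w : InfinitePlace F,
      ((w.mult : ℂ) * s / (finrank ℚ F : ℂ)) * (lgl p w : ℂ) := by
    have h := sum_lgl p
    have h' : ∑ w : InfinitePlace F, (w.mult : ℂ) * (lgl p w : ℂ) = (finrank ℚ F : ℂ) * (p.1 : ℂ) := by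
      exact_mod_cast h
    have hn := fin_neC (F := F)
    have h2 : ∀ w : InfinitePlace F, ((w.mult : ℂ) * s / (finrank ℚ F : ℂ)) * (lgl p w : ℂ) =
        (s / (finrank ℚ F : ℂ)) * ((w.mult : ℂ) * (lgl p w : ℂ)) := by
      intro w; ring
    simp_rw [h2]
    rw [← Finset.mul_sum, h']
    field_simp
  unfold KK phiF
  rw [Finset.prod_mul_distrib]
  rw [Finset.prod_mul_distrib (f := fun w => cexp (zz S s w * (lgl p w : ℂ)))]
  rw [← Complex.exp_sum]
  have hz : ∑ w, zz S s w * (lgl p w : ℂ) = s * p.1 +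
      ∑ w, (if ∃ σ ∈ S, (plR σ).1 = w then (1 / 2 : ℂ) else 0) * (lgl p w : ℂ) := by
    rw [hs, ← Finset.sum_add_distrib]
    refine Finset.sum_congr rfl fun w _ => ?_
    unfold zz
    ring
  rw [hz, Complex.exp_add, ← sqrt_prod S (lgl p)]
  have he : ((Real.exp (-Real.pi * ∑ w : InfinitePlace F, Real.exp (lgl p w) * (w x) ^ 2) : ℝ) : ℂ)
      = ∏ w : InfinitePlace F,
        (Real.exp (-Real.pi * (Real.exp (lgl p w) * (w x) ^ 2)) : ℂ) := by
    rw [Finset.mul_sum, Real.exp_sum]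
    push_cast
    rfl
  rw [← he]
  push_cast
  ring

omit [NumberField F] in
private theorem place_pos (x : 𝓞 F) (hx : x ≠ 0) (w : InfinitePlace F) : 0 < (w (x : F)) ^ 2 := by
  have : (x : F) ≠ 0 := by
    simpa using hx
  exact pow_pos (InfinitePlace.pos_iff.2 this) 2

private theorem KK_norm (S : Finset (F →+* ℝ)) (s : ℂ) (x : 𝓞 F) (hx : x ≠ 0)
    (p : ℝ × logSpace F) :
    ((‖KK S s (x : F) p‖ : ℝ) : ℂ) = KK S (s.re : ℂ) (x : F) p * sgnS S x := by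
  unfold KK
  rw [norm_mul, Complex.norm_exp, Complex.norm_real, Real.norm_eq_abs]
  have h1 : (s * (p.1 : ℂ)).re = s.re * p.1 := by simp
  rw [h1]
  push_cast
  rw [phiF_sgn S _ (fun w => Real.exp_pos _) x hx]
  ring

variable (F) in
theorem orb_int : ∃ cF : ℝ, 0 < cF ∧ ∀ (S : Finset (F →+* ℝ)) (s : ℂ), 0 < s.re →
    ∀ x : 𝓞 F, x ≠ 0 →
    Integrable (KK S s (x : F)) ∧
    ∫ p, KK S s (x : F) p = (cF : ℂ) * (gammaF F S (2 * s / (finrank ℚ F : ℂ)) * sgnS S x *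
        (nrm x : ℂ) ^ (-(2 * s / (finrank ℚ F : ℂ)))) ∧
    ∫ p, ‖KK S s (x : F) p‖ = cF * (‖gammaF F S ((2 * s.re / (finrank ℚ F : ℝ) : ℝ) : ℂ)‖ *
        nrm x ^ (-(2 * s.re / (finrank ℚ F : ℝ)))) := by
  obtain ⟨cF, hcF, hvol⟩ := log_vol F
  have key : ∀ (S : Finset (F →+* ℝ)) (s : ℂ), 0 < s.re → ∀ x : 𝓞 F, x ≠ 0 →
      Integrable (KK S s (x : F)) ∧
      ∫ p, KK S s (x : F) p = (cF : ℂ) * (gammaF F S (2 * s / (finrank ℚ F : ℂ)) * sgnS S x *
        (nrm x : ℂ) ^ (-(2 * s / (finrank ℚ F : ℂ)))) := by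
    intro S s hs x hx
    obtain ⟨hi, hv⟩ := gam_prod (zz S s) (zz_re S s hs) (fun w => (w (x : F)) ^ 2)
      (place_pos x hx)
    have hi2 := hi.const_mul (∏ σ ∈ S, ((σ (x : F) : ℝ) : ℂ))
    obtain ⟨hj, hw⟩ := hvol _ hi2
    have hfun : (fun p : ℝ × logSpace F => (∏ σ ∈ S, ((σ (x : F) : ℝ) : ℂ)) *
        ∏ w, (cexp (zz S s w * (lgl p w : ℂ)) *
          (Real.exp (-Real.pi * (Real.exp (lgl p w) * (w (x : F)) ^ 2)) : ℂ))) =
        KK S s (x : F) := by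
      funext p
      exact (KK_eq S s (x : F) p).symm
    rw [hfun] at hj hw
    refine ⟨hj, ?_⟩
    rw [hw, integral_const_mul, hv, ← gam_fin S s hs x hx]
    ring
  refine ⟨cF, hcF, fun S s hs x hx => ⟨(key S s hs x hx).1, (key S s hs x hx).2, ?_⟩⟩
  have hsr : 0 < ((s.re : ℂ)).re := by simpa using hs
  have h1 := (key S (s.re : ℂ) hsr x hx).2
  have hnn : 0 ≤ nrm x := abs_nonneg _
  have hxpos : 0 < 2 * s.re / (finrank ℚ F : ℝ) := by
    have : (0 : ℝ) < (finrank ℚ F : ℝ) := by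
      exact_mod_cast (Module.finrank_pos (R := ℚ) (M := F))
    positivity
  obtain ⟨r, hr, hgr⟩ := gammaF_pos (F := F) S (2 * s.re / (finrank ℚ F : ℝ)) hxpos
  have hcast : (2 * (s.re : ℂ) / (finrank ℚ F : ℂ)) =
      ((2 * s.re / (finrank ℚ F : ℝ) : ℝ) : ℂ) := by push_cast; ring
  have h2 : ((∫ p, ‖KK S s (x : F) p‖ : ℝ) : ℂ) =
      ((cF * (r * nrm x ^ (-(2 * s.re / (finrank ℚ F : ℝ)))) : ℝ) : ℂ) := by
    rw [← integral_complex_ofReal]
    simp_rw [KK_norm S s x hx]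
    rw [integral_mul_const, h1, hcast, hgr]
    rw [← Complex.ofReal_neg, ← Complex.ofReal_cpow hnn]
    push_cast
    have := sgnS_sq S x hx
    linear_combination (cF : ℂ) * r * ((nrm x ^ (-(2 * s.re / (finrank ℚ F : ℝ))) : ℝ) : ℂ) * this
  rw [hgr, Complex.norm_real, Real.norm_eq_abs, abs_of_pos hr]
  exact_mod_cast h2

end H37.HK
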