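import Pool.Agent.H37.HK.PhiFP
import Pool.Agent.H37.HK.TauP
import Pool.Agent.H37.HK.OrbInt

/-!
# UnitAct: translation by the logarithm of a unit

`exp (lgl (ξ, h + lg u) w) = (w u)² exp (lgl (ξ, h) w)` (`exp_lgl`, `tau_lg`) and `phiF_unit`.
-/

open NumberField Complex Units Units.dirichletUnitTheorem MeasureTheory Module

open scoped Classical

namespace H37.HK

variable {F : Type*} [Field F] [NumberField F]

theorem KK_unit (S : Finset (F →+* ℝ)) (s : ℂ) (x : F) (p : ℝ × logSpace F) (u : (𝓞 F)ˣ)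
    (hu : ∀ σ : F →+* ℝ, 0 < σ ((u : 𝓞 F) : F)) :
    KK S s x (p.1, p.2 + lg u) = KK S s (((u : 𝓞 F) : F) * x) p := by
  unfold KK
  have h1 : (fun w => Real.exp (lgl (p.1, p.2 + lg u) w)) =
      fun w => (w ((u : 𝓞 F) : F)) ^ 2 * Real.exp (lgl p w) := by
    funext w
    rw [exp_lgl, exp_lgl, tau_lg]
    ring
  rw [h1, phiF_unit S _ (fun w => (Real.exp_pos _).le) u hu x]

end H37.HK
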