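import Pool.Agent.H37.HK.UnfoldU
import Pool.Agent.H37.HK.UnitAct

/-!
# SumEx: exchange of the sum over the coset and the integral over `ℝ × T`

Let `n/2 < Re s` and `σ = Re s`, so `2σ/n > 1`.  `E : R × U ≃ cosetNZ Lam a0`, `(x, u) ↦ u x`, from
`hR.exu` and `hU` (for `u ∈ U`, `x ∈ R`: `u x - a0 = u (x - a0) + (u - 1) a0 ∈ Lam`).
For `y = u x`: `∫_{ℝ×T} ‖KK S s y‖ = ∫_{ℝ×T} ‖KK S s x (ξ, h + lg u)‖` (`KK_unit`), so by
`unfold_u_norm` the sum over `u` is `∫ ‖KK S s x‖ = cF ‖gammaF (2σ/n)‖ nrm x^{-2σ/n}` (`orb_int`),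
summable over `x ∈ R` by `hsum`.  Hence `∑_{y} ∫_{ℝ×T} ‖KK S s y‖ < ∞`
(`summable_prod_of_nonneg`), so `MeasureTheory.hasSum_integral_of_summable_integral_norm` gives
`∫_{ℝ×T} ∑_y KK = ∑_y ∫_{ℝ×T} KK = ∑_x ∑_u ... = ∑_x ∫ KK S s x` (`unfold_u`,
`Summable.tsum_prod`).  Countability: `R`, `U`, `cosetNZ` are countable
(`𝓞 F` is countable: it is a countable union / a free `ℤ`-module of finite rank).
`sum_ex_int`: the sum function is integrable on `ℝ × T` (`integrable_of_summable_integral_norm`-type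
lemma, or `MeasureTheory.integrable_of_tsum...`, or Tonelli).
-/

open NumberField Complex Units Units.dirichletUnitTheorem MeasureTheory Module

open scoped Classical

namespace H37.HK

variable {F : Type*} [Field F] [NumberField F]

open Filter in
open scoped ENNReal in
private theorem sumEx_integrable_tsum {α E ι : Type*} [MeasurableSpace α] {μ : Measure α}
    [NormedAddCommGroup E] [NormedSpace ℝ E]
    [CompleteSpace E] [Countable ι] {f : ι → α → E} (hf : ∀ i, Integrable (f i) μ)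
    (hs : Summable fun i => ∫ a, ‖f i a‖ ∂μ) : Integrable (fun a => ∑' i, f i a) μ := by
  have h0 : ∑' i, ∫⁻ a, ‖f i a‖ₑ ∂μ ≠ ∞ := by
    have (i : ι) : ∫⁻ a, ‖f i a‖ₑ ∂μ = ‖∫ a, ‖f i a‖ ∂μ‖ₑ := by
      dsimp [enorm]
      rw [lintegral_coe_eq_integral _ (hf i).norm, ENNReal.coe_nnreal_eq, coe_nnnorm,
        Real.norm_of_nonneg (integral_nonneg (fun a ↦ norm_nonneg (f i a)))]
      simp only [coe_nnnorm]
    rw [funext this]
    exact ENNReal.tsum_coe_ne_top_iff_summable.2 <| NNReal.summable_coe.1 hs.abs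
  have h1 : ∫⁻ a, ∑' i, ‖f i a‖ₑ ∂μ ≠ ∞ := by
    rw [lintegral_tsum (fun i => (hf i).1.enorm)]
    exact h0
  have h2 : ∀ᵐ a ∂μ, ∑' i, ‖f i a‖ₑ < ∞ :=
    ae_lt_top' (AEMeasurable.tsum (fun i => (hf i).1.enorm)) h1
  have h3 : ∀ᵐ a ∂μ, Summable fun i => f i a := by
    filter_upwards [h2] with a ha
    have h4 : Summable fun i => ‖f i a‖ := by
      have h5 : ∑' i, ((‖f i a‖₊ : NNReal) : ℝ≥0∞) ≠ ∞ := ha.ne
      have h6 := ENNReal.tsum_coe_ne_top_iff_summable.1 h5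
      exact NNReal.summable_coe.2 h6
    exact h4.of_norm
  constructor
  · refine aestronglyMeasurable_of_tendsto_ae (atTop : Filter (Finset ι))
      (f := fun s a => ∑ i ∈ s, f i a) (fun s => ?_) ?_
    · exact Finset.aestronglyMeasurable_fun_sum _ (fun i _ => (hf i).1)
    · filter_upwards [h3] with a ha
      exact ha.hasSum
  · refine lt_of_le_of_lt (lintegral_mono_ae ?_) (lt_top_iff_ne_top.2 h1)
    filter_upwards [h2] with a ha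
    exact enorm_tsum_le_tsum_enorm

private theorem sumEx_countable : Countable (𝓞 F) := by
  have e := (Module.Free.chooseBasis ℤ (𝓞 F)).equivFun
  exact e.injective.countable

/-- The bijection `(x, u) ↦ u x`. -/
private noncomputable def sumExE {U : Subgroup (𝓞 F)ˣ} {Lam : Ideal (𝓞 F)} {a0 : 𝓞 F}
    (hU : ∀ u ∈ U, ((u : 𝓞 F) - 1) * a0 ∈ Lam) {R : Set (𝓞 F)} (hR : IsReps Lam a0 U R) :
    R × U ≃ cosetNZ Lam a0 :=
  Equiv.ofBijective (fun p => ⟨((p.2 : (𝓞 F)ˣ) : 𝓞 F) * (p.1 : 𝓞 F), by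
      refine ⟨mul_ne_zero (Units.ne_zero _) (hR.sub _ p.1.2).1, ?_⟩
      have h1 := Lam.mul_mem_left ((p.2 : (𝓞 F)ˣ) : 𝓞 F) (hR.sub _ p.1.2).2
      have h2 := Lam.add_mem h1 (hU _ p.2.2)
      have h3 : ((p.2 : (𝓞 F)ˣ) : 𝓞 F) * (p.1 : 𝓞 F) - a0 =
          ((p.2 : (𝓞 F)ˣ) : 𝓞 F) * ((p.1 : 𝓞 F) - a0) + (((p.2 : (𝓞 F)ˣ) : 𝓞 F) - 1) * a0 := by
        ring
      rw [h3]
      exact h2⟩) (by
    constructor
    · intro p q hpq
      have h1 : ((p.2 : (𝓞 F)ˣ) : 𝓞 F) * (p.1 : 𝓞 F) = ((q.2 : (𝓞 F)ˣ) : 𝓞 F) * (q.1 : 𝓞 F) :=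
        congrArg Subtype.val hpq
      have h2 : ((p.2 : (𝓞 F)ˣ) : 𝓞 F) * (p.1 : 𝓞 F) ≠ 0 :=
        mul_ne_zero (Units.ne_zero _) (hR.sub _ p.1.2).1
      have h3 : ((p.2 : (𝓞 F)ˣ) : 𝓞 F) * (p.1 : 𝓞 F) - a0 ∈ Lam := by
        have h4 := Lam.mul_mem_left ((p.2 : (𝓞 F)ˣ) : 𝓞 F) (hR.sub _ p.1.2).2
        have h5 := Lam.add_mem h4 (hU _ p.2.2)
        have h6 : ((p.2 : (𝓞 F)ˣ) : 𝓞 F) * (p.1 : 𝓞 F) - a0 =
            ((p.2 : (𝓞 F)ˣ) : 𝓞 F) * ((p.1 : 𝓞 F) - a0) +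
              (((p.2 : (𝓞 F)ˣ) : 𝓞 F) - 1) * a0 := by
          ring
        rw [h6]
        exact h5
      exact (hR.exu _ h2 h3).unique rfl h1.symm
    · rintro ⟨y, hy0, hyL⟩
      obtain ⟨p, hp, _⟩ := hR.exu y hy0 hyL
      exact ⟨p, Subtype.ext hp⟩)

private theorem sumEx_main (U : Subgroup (𝓞 F)ˣ) (htf : ∀ u ∈ U, IsOfFinOrder u → u = 1)
    (hpos : ∀ u ∈ U, ∀ σ : F →+* ℝ, 0 < σ ((u : 𝓞 F) : F))
    (T : Set (logSpace F)) (hTm : MeasurableSet T) (hT : IsAddFundamentalDomain (lgU U) T volume)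
    (Lam : Ideal (𝓞 F)) (a0 : 𝓞 F) (S : Finset (F →+* ℝ))
    (hU : ∀ u ∈ U, ((u : 𝓞 F) - 1) * a0 ∈ Lam) (R : Set (𝓞 F)) (hR : IsReps Lam a0 U R)
    (hsum : ∀ σ : ℝ, 1 < σ → Summable fun x : R => (nrm (x : 𝓞 F)) ^ (-σ))
    (s : ℂ) (hs : (finrank ℚ F : ℝ) / 2 < s.re) :
    (∀ y : cosetNZ Lam a0, Integrable (KK S s ((y : 𝓞 F) : F))
      (volume.restrict ((Set.univ : Set ℝ) ×ˢ T))) ∧
    (Summable fun y : cosetNZ Lam a0 =>
      ∫ p in (Set.univ : Set ℝ) ×ˢ T, ‖KK S s ((y : 𝓞 F) : F) p‖) ∧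
    ∑' y : cosetNZ Lam a0, (∫ p in (Set.univ : Set ℝ) ×ˢ T, KK S s ((y : 𝓞 F) : F) p) =
      ∑' x : R, ∫ p, KK S s ((x : 𝓞 F) : F) p := by
  have hn : (0 : ℝ) < finrank ℚ F := by
    exact_mod_cast Module.finrank_pos
  have hs0 : 0 < s.re := lt_trans (by positivity) hs
  obtain ⟨cF, hcF, horb⟩ := orb_int F
  have hint : ∀ y : cosetNZ Lam a0, Integrable (KK S s ((y : 𝓞 F) : F))
      (volume.restrict ((Set.univ : Set ℝ) ×ˢ T)) := by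
    intro y
    exact ((horb S s hs0 y y.2.1).1).integrableOn
  -- translation
  have htr : ∀ (x : R) (u : U) (p : ℝ × logSpace F),
      KK S s ((((sumExE hU hR (x, u) : cosetNZ Lam a0) : 𝓞 F)) : F) p =
        KK S s ((x : 𝓞 F) : F) (p.1, p.2 + lg (u : (𝓞 F)ˣ)) := by
    intro x u p
    rw [KK_unit S s _ p _ (hpos _ u.2)]
    have h1 : ((((sumExE hU hR (x, u) : cosetNZ Lam a0) : 𝓞 F)) : F) =
        (((u : (𝓞 F)ˣ) : 𝓞 F) : F) * ((x : 𝓞 F) : F) := by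
      have h2 : ((sumExE hU hR (x, u) : cosetNZ Lam a0) : 𝓞 F) =
          ((u : (𝓞 F)ˣ) : 𝓞 F) * (x : 𝓞 F) := rfl
      rw [h2]
      rfl
    rw [h1]
  have hnorm : ∀ x : R, HasSum (fun u : U => ∫ p in (Set.univ : Set ℝ) ×ˢ T,
      ‖KK S s ((((sumExE hU hR (x, u) : cosetNZ Lam a0) : 𝓞 F)) : F) p‖)
      (∫ p, ‖KK S s ((x : 𝓞 F) : F) p‖) := by
    intro x
    have h1 := unfold_u_norm U htf T hTm hT (KK S s ((x : 𝓞 F) : F))
      (horb S s hs0 x (hR.sub _ x.2).1).1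
    have h2 : (fun u : U => ∫ p in (Set.univ : Set ℝ) ×ˢ T,
      ‖KK S s ((((sumExE hU hR (x, u) : cosetNZ Lam a0) : 𝓞 F)) : F) p‖) =
      (fun u : U => ∫ p in (Set.univ : Set ℝ) ×ˢ T,
        ‖KK S s ((x : 𝓞 F) : F) (p.1, p.2 + lg (u : (𝓞 F)ˣ))‖) := by
      funext u
      simp_rw [htr x u]
    rw [h2]
    exact h1
  have hval : ∀ x : R, HasSum (fun u : U => ∫ p in (Set.univ : Set ℝ) ×ˢ T,
      KK S s ((((sumExE hU hR (x, u) : cosetNZ Lam a0) : 𝓞 F)) : F) p)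
      (∫ p, KK S s ((x : 𝓞 F) : F) p) := by
    intro x
    have h1 := unfold_u U htf T hTm hT (KK S s ((x : 𝓞 F) : F))
      (horb S s hs0 x (hR.sub _ x.2).1).1
    have h2 : (fun u : U => ∫ p in (Set.univ : Set ℝ) ×ˢ T,
      KK S s ((((sumExE hU hR (x, u) : cosetNZ Lam a0) : 𝓞 F)) : F) p) =
      (fun u : U => ∫ p in (Set.univ : Set ℝ) ×ˢ T,
        KK S s ((x : 𝓞 F) : F) (p.1, p.2 + lg (u : (𝓞 F)ˣ))) := by
      funext u
      simp_rw [htr x u]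
    rw [h2]
    exact h1
  have hsumN : Summable (fun q : R × U => ∫ p in (Set.univ : Set ℝ) ×ˢ T,
      ‖KK S s ((((sumExE hU hR q : cosetNZ Lam a0) : 𝓞 F)) : F) p‖) := by
    rw [summable_prod_of_nonneg (fun q => integral_nonneg (fun p => norm_nonneg _))]
    refine ⟨fun x => (hnorm x).summable, ?_⟩
    have h1 : (fun x : R => ∑' u : U, ∫ p in (Set.univ : Set ℝ) ×ˢ T,
        ‖KK S s ((((sumExE hU hR (x, u) : cosetNZ Lam a0) : 𝓞 F)) : F) p‖) =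
        (fun x : R => cF * (‖gammaF F S ((2 * s.re / (finrank ℚ F : ℝ) : ℝ) : ℂ)‖ *
          nrm (x : 𝓞 F) ^ (-(2 * s.re / (finrank ℚ F : ℝ))))) := by
      funext x
      rw [(hnorm x).tsum_eq]
      exact (horb S s hs0 x (hR.sub _ x.2).1).2.2
    rw [h1]
    have h2 : 1 < 2 * s.re / (finrank ℚ F : ℝ) := by
      rw [lt_div_iff₀ hn]
      linarith
    exact ((hsum _ h2).mul_left _).mul_left _
  have hsumY : Summable fun y : cosetNZ Lam a0 =>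
      ∫ p in (Set.univ : Set ℝ) ×ˢ T, ‖KK S s ((y : 𝓞 F) : F) p‖ :=
    (Equiv.summable_iff (sumExE hU hR)).1 hsumN
  refine ⟨hint, hsumY, ?_⟩
  have hsumV : Summable fun q : R × U => ∫ p in (Set.univ : Set ℝ) ×ˢ T,
      KK S s ((((sumExE hU hR q : cosetNZ Lam a0) : 𝓞 F)) : F) p :=
    hsumN.of_norm_bounded (fun q => norm_integral_le_integral_norm _)
  rw [← (sumExE hU hR).tsum_eq (fun y : cosetNZ Lam a0 =>
    ∫ p in (Set.univ : Set ℝ) ×ˢ T, KK S s ((y : 𝓞 F) : F) p)]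
  rw [hsumV.tsum_prod' (fun x => (hval x).summable)]
  exact tsum_congr (fun x => (hval x).tsum_eq)

theorem sum_ex (U : Subgroup (𝓞 F)ˣ) (htf : ∀ u ∈ U, IsOfFinOrder u → u = 1)
    (hpos : ∀ u ∈ U, ∀ σ : F →+* ℝ, 0 < σ ((u : 𝓞 F) : F))
    (T : Set (logSpace F)) (hTm : MeasurableSet T) (hT : IsAddFundamentalDomain (lgU U) T volume)
    (Lam : Ideal (𝓞 F)) (a0 : 𝓞 F) (S : Finset (F →+* ℝ))
    (hU : ∀ u ∈ U, ((u : 𝓞 F) - 1) * a0 ∈ Lam) (R : Set (𝓞 F)) (hR : IsReps Lam a0 U R)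
    (hsum : ∀ σ : ℝ, 1 < σ → Summable fun x : R => (nrm (x : 𝓞 F)) ^ (-σ))
    (s : ℂ) (hs : (finrank ℚ F : ℝ) / 2 < s.re) :
    ∫ p in (Set.univ : Set ℝ) ×ˢ T, ∑' y : cosetNZ Lam a0, KK S s ((y : 𝓞 F) : F) p =
      ∑' x : R, ∫ p, KK S s ((x : 𝓞 F) : F) p := by
  have hc : Countable (𝓞 F) := sumEx_countable
  obtain ⟨h1, h2, h3⟩ := sumEx_main U htf hpos T hTm hT Lam a0 S hU R hR hsum s hs
  rw [← integral_tsum_of_summable_integral_norm h1 h2]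
  exact h3

theorem sum_ex_int (U : Subgroup (𝓞 F)ˣ) (htf : ∀ u ∈ U, IsOfFinOrder u → u = 1)
    (hpos : ∀ u ∈ U, ∀ σ : F →+* ℝ, 0 < σ ((u : 𝓞 F) : F))
    (T : Set (logSpace F)) (hTm : MeasurableSet T) (hT : IsAddFundamentalDomain (lgU U) T volume)
    (Lam : Ideal (𝓞 F)) (a0 : 𝓞 F) (S : Finset (F →+* ℝ))
    (hU : ∀ u ∈ U, ((u : 𝓞 F) - 1) * a0 ∈ Lam) (R : Set (𝓞 F)) (hR : IsReps Lam a0 U R)
    (hsum : ∀ σ : ℝ, 1 < σ → Summable fun x : R => (nrm (x : 𝓞 F)) ^ (-σ))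
    (s : ℂ) (hs : (finrank ℚ F : ℝ) / 2 < s.re) :
    IntegrableOn (fun p => ∑' y : cosetNZ Lam a0, KK S s ((y : 𝓞 F) : F) p)
      ((Set.univ : Set ℝ) ×ˢ T) := by
  have hc : Countable (𝓞 F) := sumEx_countable
  obtain ⟨h1, h2, _⟩ := sumEx_main U htf hpos T hTm hT Lam a0 S hU R hR hsum s hs
  exact sumEx_integrable_tsum h1 h2

end H37.HK
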