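import Pool.Agent.H37.HK.Pair
import Pool.Agent.H37.HK.SumEx
import Pool.Agent.H37.HK.LatSum
import Pool.Agent.H37.HK.MelEq

/-!
# Core: continuation of the signed zeta function of a coset of an ideal modulo units
-/

open NumberField Complex Units Units.dirichletUnitTheorem MeasureTheory Module

open scoped Classical

namespace H37.HK

variable {F : Type*} [Field F] [NumberField F]

/-- The averaging data of a bounded set of logarithmic parameters. -/
noncomputable def tdF (T : Set (logSpace F)) (hTm : MeasurableSet T)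
    (hTb : Bornology.IsBounded T) : TD (mixedEmbedding.index F) {w : InfinitePlace F // w ≠ w₀} where
  T := T
  τ := fun h j => tau h (pl j)
  meas := hTm
  bdd := hTb
  cont := continuous_pi fun j => (continuous_apply (pl j)).comp tau_cont
  pos := fun h j => tau_pos h (pl j)
  prod_one := fun h => tau_prod h

theorem core (U : Subgroup (𝓞 F)ˣ) (hfin : U.FiniteIndex) (htf : ∀ u ∈ U, IsOfFinOrder u → u = 1)
    (hpos : ∀ u ∈ U, ∀ σ : F →+* ℝ, 0 < σ ((u : 𝓞 F) : F)) :
    ∃ K : ℝ, 0 < K ∧ ∀ Lam : Ideal (𝓞 F), Lam ≠ ⊥ → ∀ (a0 : 𝓞 F) (S : Finset (F →+* ℝ)),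
      (∀ u ∈ U, ((u : 𝓞 F) - 1) * a0 ∈ Lam) → ∀ R : Set (𝓞 F), IsReps Lam a0 U R →
      (∀ σ : ℝ, 1 < σ → Summable fun x : R => (nrm (x : 𝓞 F)) ^ (-σ)) →
      ∃ (P : ℂ → ℂ) (c0 c1 : ℂ), Differentiable ℂ P ∧ (S.Nonempty → c0 = 0 ∧ c1 = 0) ∧
        (S = ∅ → c1 = (K : ℂ) / (Ideal.absNorm Lam : ℂ)) ∧
        ∀ s : ℂ, 1 < s.re →
          gammaF F S s * ∑' x : R, sgnS S (x : 𝓞 F) * (nrm (x : 𝓞 F) : ℂ) ^ (-s) =
            P s + c0 / s + c1 / (s - 1) := by
  obtain ⟨cF, hcF, horb⟩ := orb_int F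
  obtain ⟨cL, hcL, hlat⟩ := lat F
  obtain ⟨T, hTm, hTb, hTv, hTf⟩ := log_dom U hfin
  have hn : 0 < (finrank ℚ F : ℝ) := by exact_mod_cast Module.finrank_pos
  have hnC : (finrank ℚ F : ℂ) ≠ 0 := by exact_mod_cast hn.ne'
  have hcFC : (cF : ℂ) ≠ 0 := by exact_mod_cast hcF.ne'
  refine ⟨2 * (volume T).toReal / (finrank ℚ F * cF * cL), by positivity, ?_⟩
  intro Lam hLam a0 S hU R hR hsum
  obtain ⟨B, hB, hdet, e, he⟩ := hlat Lam hLam
  haveI : Nonempty (mixedEmbedding.index F) := by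
    rw [← Fintype.card_pos_iff, card_index]
    exact Module.finrank_pos
  obtain ⟨P0, hP0, hmel⟩ := pair_out (tdF T hTm hTb) (realSet S) B hB (emb (a0 : F))
  set A0 : ℂ := avg0 (tdF T hTm hTb) (fun _ => 1) (realSet S) B (emb (a0 : F)) with hA0
  have hN : (0 : ℝ) < (Ideal.absNorm Lam : ℝ) := by
    have : Ideal.absNorm Lam ≠ 0 := by
      rw [Ne, Ideal.absNorm_eq_zero_iff]; exact hLam
    exact_mod_cast Nat.pos_of_ne_zero this
  refine ⟨fun z => P0 ((finrank ℚ F : ℂ) * z / 2) / cF,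
    -(A0 * 2 / (finrank ℚ F * cF)),
    (if realSet S = ∅ then ((|B.det|⁻¹ * (volume T).toReal : ℝ) : ℂ) else 0) * 2 /
      (finrank ℚ F * cF), ?_, ?_, ?_, ?_⟩
  · exact (hP0.comp (by fun_prop)).div_const _
  · intro hS
    have h1 : realSet S ≠ ∅ := by
      rw [Ne, realSet_eq_empty]; exact hS.ne_empty
    constructor
    · rw [hA0, avg0, th0, if_neg h1]; simp
    · rw [if_neg h1]; simp
  · intro hS
    have h1 : realSet S = ∅ := (realSet_eq_empty S).mpr hS
    rw [if_pos h1, hdet]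
    have h2 : (Ideal.absNorm Lam : ℂ) ≠ 0 := by exact_mod_cast hN.ne'
    have h3 : (cL : ℂ) ≠ 0 := by exact_mod_cast hcL.ne'
    push_cast
    field_simp
  · intro s hs
    set s' : ℂ := (finrank ℚ F : ℂ) * s / 2 with hs'
    have hre : (finrank ℚ F : ℝ) / 2 < s'.re := by
      have : s'.re = (finrank ℚ F : ℝ) * s.re / 2 := by
        rw [hs', show ((finrank ℚ F : ℂ) * s / 2) = (((finrank ℚ F : ℝ) / 2 : ℝ) : ℂ) * s by
          push_cast; ring, Complex.re_ofReal_mul]
        ring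
      rw [this]
      have := mul_lt_mul_of_pos_left hs hn
      linarith
    have hs0 : 0 < s'.re := lt_trans (by positivity) hre
    have h2s : 2 * s' / (finrank ℚ F : ℂ) = s := by
      rw [hs']; field_simp
    -- pointwise identity
    have hpt : ∀ p : ℝ × logSpace F, cexp (s' * p.1) *
        (theta (fun _ => 1) (realSet S) B (emb (a0 : F))
            (fun j => Real.exp p.1 * (tdF T hTm hTb).τ p.2 j) -
          th0 (fun _ => 1) (realSet S) B (emb (a0 : F))) =
        ∑' y : cosetNZ Lam a0, KK S s' ((y : 𝓞 F) : F) p := by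
      intro p
      have h := lat_sum Lam a0 B hB e he S (fun w => Real.exp (lgl p w))
        (fun w => Real.exp_pos _)
      have h2 : (fun j : mixedEmbedding.index F => Real.exp p.1 * (tdF T hTm hTb).τ p.2 j) =
          fun j => Real.exp (lgl p (pl j)) := by
        funext j; rw [exp_lgl]; rfl
      rw [h2, ← h.tsum_eq, ← tsum_mul_left]
      rfl
    have hint : IntegrableOn (fun p : ℝ × logSpace F => cexp (s' * p.1) *
        (theta (fun _ => 1) (realSet S) B (emb (a0 : F))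
            (fun j => Real.exp p.1 * (tdF T hTm hTb).τ p.2 j) -
          th0 (fun _ => 1) (realSet S) B (emb (a0 : F)))) ((Set.univ : Set ℝ) ×ˢ T) := by
      simp_rw [hpt]
      exact sum_ex_int U htf hpos T hTm hTf Lam a0 S hU R hR hsum s' hre
    have h1 := mel_eq (tdF T hTm hTb) (fun _ => 1) (by simp) (realSet S) B hB (emb (a0 : F)) s' hint
    have hTT : (tdF T hTm hTb).T = T := rfl
    rw [hTT] at h1
    simp_rw [hpt] at h1
    rw [sum_ex U htf hpos T hTm hTf Lam a0 S hU R hR hsum s' hre] at h1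
    have h3 : ∀ x : R, ∫ p, KK S s' ((x : 𝓞 F) : F) p =
        (cF : ℂ) * (gammaF F S s * (sgnS S (x : 𝓞 F) * (nrm (x : 𝓞 F) : ℂ) ^ (-s))) := by
      intro x
      rw [(horb S s' hs0 x (hR.sub x x.2).1).2.1, h2s]
      ring
    simp_rw [h3] at h1
    rw [tsum_mul_left, tsum_mul_left] at h1
    have hcard : (Fintype.card (mixedEmbedding.index F) : ℝ) / 2 < s'.re := by
      rw [card_index]; exact hre
    have h4 := (hmel s' hcard).2
    rw [h1, card_index, hTT] at h4
    have h5 : gammaF F S s * ∑' x : R, sgnS S (x : 𝓞 F) * (nrm (x : 𝓞 F) : ℂ) ^ (-s) =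
        (P0 s' - A0 / s' + (if realSet S = ∅ then ((|B.det|⁻¹ * (volume T).toReal : ℝ) : ℂ) else 0)
          / (s' - (finrank ℚ F : ℂ) / 2)) / cF := by
      rw [← h4]; field_simp
    rw [h5]
    have e1 : s' - (finrank ℚ F : ℂ) / 2 = (finrank ℚ F : ℂ) / 2 * (s - 1) := by
      rw [hs']; ring
    rw [e1]
    have hs1 : s - 1 ≠ 0 := by
      intro h0
      have := congrArg Complex.re h0
      simp at this; linarith
    have hsn : s ≠ 0 := by
      intro h0; rw [h0] at hs; simp at hs; linarith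
    rw [hs']
    field_simp
    ring

end H37.HK
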