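import Pool.Agent.H37.HK.Iface

/-!
# Definitions for the analytic core of part B

Pure analysis over a finite index type `J`; then the coordinates of a number field.
-/

open NumberField Complex

namespace H37.HK

section Analysis

variable {J : Type*} [Fintype J] [DecidableEq J]

/-- An integer vector as a real vector. -/
def icast (m : J → ℤ) : J → ℝ := fun j => (m j : ℝ)

/-- The Gaussian with linear factors: `∏_{j ∈ S} (√t_j v_j) · exp (-π ∑ t_j v_j²)`. -/
noncomputable def phi (S : Finset J) (t v : J → ℝ) : ℝ :=
  (∏ j ∈ S, (√(t j) * v j)) * Real.exp (-Real.pi * ∑ j, t j * v j ^ 2)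

/-- The theta series with coefficients `c` over the affine lattice `B ℤ^J + b`. -/
noncomputable def theta (c : (J → ℤ) → ℂ) (S : Finset J) (B : Matrix J J ℝ) (b t : J → ℝ) : ℂ :=
  ∑' m : J → ℤ, c m * (phi S t (B.mulVec (icast m) + b) : ℂ)

/-- The constant term of the theta series. -/
noncomputable def th0 (c : (J → ℤ) → ℂ) (S : Finset J) (B : Matrix J J ℝ) (b : J → ℝ) : ℂ :=
  if S = ∅ then ∑' m : J → ℤ, (if B.mulVec (icast m) + b = 0 then c m else 0) else 0

/-- The phases `exp (2 π i k · B⁻¹ b)` of the dual theta series. -/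
noncomputable def phase (B : Matrix J J ℝ) (b : J → ℝ) (k : J → ℤ) : ℂ :=
  cexp (2 * Real.pi * I * ((icast k ⬝ᵥ (B⁻¹.mulVec b) : ℝ) : ℂ))

end Analysis

section Field

variable {F : Type*} [Field F] [NumberField F]

/-- The real infinite place of a real embedding. -/
noncomputable def plR (σ : F →+* ℝ) : {w : InfinitePlace F // w.IsReal} :=
  ⟨InfinitePlace.mk (Complex.ofRealHom.comp σ), by
    rw [InfinitePlace.isReal_iff]
    have h : ComplexEmbedding.IsReal (Complex.ofRealHom.comp σ) := by
      rw [ComplexEmbedding.isReal_iff]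
      ext x
      simp [ComplexEmbedding.conjugate_coe_eq]
    rw [InfinitePlace.embedding_mk_eq_of_isReal h]
    exact h⟩

/-- The place under an index. -/
def pl (j : mixedEmbedding.index F) : InfinitePlace F :=
  Sum.elim (fun w => w.1) (fun p => p.1.1) j

/-- Coordinates of an element of `F` in the standard basis of the mixed space. -/
noncomputable def emb (x : F) : mixedEmbedding.index F → ℝ :=
  fun j => (mixedEmbedding.stdBasis F).repr (mixedEmbedding F x) j

/-- The indices of the real embeddings in `S`. -/
noncomputable def realSet (S : Finset (F →+* ℝ)) : Finset (mixedEmbedding.index F) :=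
  open Classical in S.image (fun σ => Sum.inl (plR σ))

/-- The Gaussian with linear factors as a function on the field. -/
noncomputable def phiF (S : Finset (F →+* ℝ)) (t : InfinitePlace F → ℝ) (x : F) : ℝ :=
  (∏ σ ∈ S, (√(t (plR σ).1) * σ x)) * Real.exp (-Real.pi * ∑ w : InfinitePlace F, t w * (w x) ^ 2)

open Units Units.dirichletUnitTheorem in
/-- The point of the norm one surface with logarithmic coordinates `h` (times two). -/
noncomputable def tau (h : logSpace F) (w : InfinitePlace F) : ℝ :=
  open Classical in
  if hw : w = w₀ then Real.exp (-2 * (∑ v, h v) / (w₀ : InfinitePlace F).mult)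
  else Real.exp (2 * h ⟨w, hw⟩ / w.mult)

open Units Units.dirichletUnitTheorem in
/-- Logarithm of a unit in `logSpace`. -/
noncomputable def lg (u : (𝓞 F)ˣ) : logSpace F := logEmbedding F (Additive.ofMul u)

open Units Units.dirichletUnitTheorem in
/-- Logarithmic coordinates: `exp (lgl (ξ, h) w) = exp ξ * tau h w`. -/
noncomputable def lgl (p : ℝ × logSpace F) (w : InfinitePlace F) : ℝ :=
  open Classical in
  p.1 + (if hw : w = w₀ then -2 * (∑ v, p.2 v) / (w₀ : InfinitePlace F).mult
    else 2 * p.2 ⟨w, hw⟩ / w.mult)

/-- The nonzero elements of the coset `a0 + Lam`. -/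
def cosetNZ (Lam : Ideal (𝓞 F)) (a0 : 𝓞 F) : Set (𝓞 F) := {x | x ≠ 0 ∧ x - a0 ∈ Lam}

end Field

end H37.HK
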