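import Pool.Agent.H37.HK.Defs

/-!
# FTOne: one dimensional Fourier transforms

For `t > 0` and real `y`:
(1) `∫ exp (-π t x²) exp (-2πi y x) dx = t^{-1/2} exp (-π y²/t)`;
(2) `∫ √t x exp (-π t x²) exp (-2πi y x) dx = (-i) t^{-1/2} (y/√t) exp (-π y²/t)`.
(1): Mathlib `fourierIntegral_gaussian_pi`, `integral_cexp_quadratic` or
`fourier_gaussian_pi`; (2): complete the square: `x = (x + i y/t) - i y/t`; or integration by parts:
`d/dx [exp (-π t x² - 2πi y x)] = (-2π t x - 2πi y) exp (...)`, whose integral over `ℝ` is `0`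
(`MeasureTheory.integral_of_hasDerivAt_of_tendsto` or
`integral_eq_zero_of_hasDerivAt_of_integrable`), so `∫ x exp(...) = -(i y/t) ∫ exp (...)`.
Here `√t · (-i y/t) · t^{-1/2} = (-i) t^{-1/2} (y/√t)`.
Both integrands are integrable (`integrable_exp_neg_mul_sq`, `integrable_mul_exp_neg_mul_sq`).
-/

open NumberField Complex MeasureTheory

namespace H37.HK

/-- The common integrand as an exponential of a quadratic polynomial. -/
private theorem exp_form (t y x : ℝ) :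
    (Real.exp (-Real.pi * (t * x ^ 2)) : ℂ) * cexp (-(2 * Real.pi * I * ((y * x : ℝ) : ℂ)))
      = cexp ((-(Real.pi * t : ℝ) : ℂ) * (x : ℂ) ^ 2 + (-(2 * Real.pi * I * y)) * x + 0) := by
  rw [Complex.ofReal_exp, ← Complex.exp_add]
  congr 1
  push_cast
  ring

theorem ft_even (t : ℝ) (ht : 0 < t) (y : ℝ) :
    ∫ x : ℝ, (Real.exp (-Real.pi * (t * x ^ 2)) : ℂ) * cexp (-(2 * Real.pi * I * ((y * x : ℝ) : ℂ)))
      = ((√t)⁻¹ * Real.exp (-Real.pi * (t⁻¹ * y ^ 2)) : ℝ) := by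
  have hpt : 0 < Real.pi * t := mul_pos Real.pi_pos ht
  simp_rw [exp_form]
  rw [integral_cexp_quadratic (by simpa using hpt)]
  have hpi : (Real.pi : ℂ) ≠ 0 := Complex.ofReal_ne_zero.mpr Real.pi_ne_zero
  have htc : (t : ℂ) ≠ 0 := Complex.ofReal_ne_zero.mpr ht.ne'
  have h1 : ((Real.pi : ℂ) / -(-(Real.pi * t : ℝ) : ℂ)) = ((t⁻¹ : ℝ) : ℂ) := by
    push_cast
    field_simp
  rw [h1]
  have h2 : (((t⁻¹ : ℝ) : ℂ)) ^ (1 / 2 : ℂ) = (((√t)⁻¹ : ℝ) : ℂ) := by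
    rw [show (1 / 2 : ℂ) = ((1 / 2 : ℝ) : ℂ) by push_cast; rfl,
      ← Complex.ofReal_cpow (by positivity), ← Real.sqrt_eq_rpow, Real.sqrt_inv]
  rw [h2, Complex.ofReal_mul (√t)⁻¹ _, Complex.ofReal_exp]
  congr 2
  push_cast
  field_simp
  ring_nf
  simp only [I_sq]
  ring

private theorem int_base (t : ℝ) (ht : 0 < t) (y : ℝ) :
    Integrable fun x : ℝ =>
      (Real.exp (-Real.pi * (t * x ^ 2)) : ℂ) * cexp (-(2 * Real.pi * I * ((y * x : ℝ) : ℂ))) := by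
  have hpt : 0 < Real.pi * t := mul_pos Real.pi_pos ht
  simp_rw [exp_form]
  exact integrable_cexp_quadratic' (by simpa using hpt) _ _

private theorem int_mul (t : ℝ) (ht : 0 < t) (y : ℝ) :
    Integrable fun x : ℝ => (x : ℂ) *
      ((Real.exp (-Real.pi * (t * x ^ 2)) : ℂ) *
        cexp (-(2 * Real.pi * I * ((y * x : ℝ) : ℂ)))) := by
  have hpt : 0 < Real.pi * t := mul_pos Real.pi_pos ht
  have h := integrable_mul_exp_neg_mul_sq hpt
  refine h.mono (by fun_prop) (Filter.Eventually.of_forall fun x => ?_)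
  have h1 : ‖cexp (-(2 * Real.pi * I * ((y * x : ℝ) : ℂ)))‖ = 1 := by
    rw [Complex.norm_exp]
    simp
  rw [norm_mul, norm_mul, h1, mul_one, norm_mul, Complex.norm_real, Complex.norm_real]
  apply le_of_eq
  congr 3
  ring

theorem ft_odd (t : ℝ) (ht : 0 < t) (y : ℝ) :
    ∫ x : ℝ, ((√t * x * Real.exp (-Real.pi * (t * x ^ 2)) : ℝ) : ℂ) *
        cexp (-(2 * Real.pi * I * ((y * x : ℝ) : ℂ)))
      = (-I) * ((√t)⁻¹ * (√(t⁻¹) * y * Real.exp (-Real.pi * (t⁻¹ * y ^ 2))) : ℝ) := by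
  set g : ℝ → ℂ := fun x =>
    (Real.exp (-Real.pi * (t * x ^ 2)) : ℂ) * cexp (-(2 * Real.pi * I * ((y * x : ℝ) : ℂ)))
    with hg
  have hgi : Integrable g := int_base t ht y
  have hmi : Integrable fun x : ℝ => (x : ℂ) * g x := int_mul t ht y
  have hder : ∀ x : ℝ, HasDerivAt g
      (-(2 * Real.pi * t) * ((x : ℂ) * g x) + (-(2 * Real.pi * I * y)) * g x) x := by
    intro x
    have e : g = fun x : ℝ => cexp ((-(Real.pi * t : ℝ) : ℂ) * (x : ℂ) ^ 2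
        + (-(2 * Real.pi * I * y)) * x + 0) := by
      funext x
      exact exp_form t y x
    have hx : HasDerivAt (fun x : ℝ => (x : ℂ)) 1 x := Complex.ofRealCLM.hasDerivAt
    have h1 : HasDerivAt (fun x : ℝ => (-(Real.pi * t : ℝ) : ℂ) * (x : ℂ) ^ 2
        + (-(2 * Real.pi * I * y)) * x + 0)
        ((-(Real.pi * t : ℝ) : ℂ) * (2 * (x : ℂ)) + (-(2 * Real.pi * I * y)) * 1) x := by
      have h2 := ((hx.pow 2).const_mul (-(Real.pi * t : ℝ) : ℂ)).add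
        (hx.const_mul (-(2 * Real.pi * I * y)))
      have h3 := h2.add_const (0 : ℂ)
      convert h3 using 1
      · rfl
      · rfl
      · push_cast
        ring
    have h4 := h1.cexp
    rw [e]
    convert h4 using 1
    push_cast
    ring
  have hint : Integrable fun x : ℝ =>
      (-(2 * Real.pi * t : ℂ)) * ((x : ℂ) * g x) + (-(2 * Real.pi * I * y)) * g x :=
    (hmi.const_mul _).add (hgi.const_mul _)
  have hz := integral_eq_zero_of_hasDerivAt_of_integrable hder hint hgi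
  rw [integral_add (hmi.const_mul _) (hgi.const_mul _), integral_const_mul,
    integral_const_mul] at hz
  have hE : ∫ x : ℝ, g x = ((√t)⁻¹ * Real.exp (-Real.pi * (t⁻¹ * y ^ 2)) : ℝ) := ft_even t ht y
  have hpi : (Real.pi : ℂ) ≠ 0 := Complex.ofReal_ne_zero.mpr Real.pi_ne_zero
  have htc : (t : ℂ) ≠ 0 := Complex.ofReal_ne_zero.mpr ht.ne'
  have hm : ∫ x : ℝ, (x : ℂ) * g x = -(I * y / t) * ∫ x : ℝ, g x := by
    have h5 : (2 * Real.pi * t : ℂ) * (∫ x : ℝ, (x : ℂ) * g x)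
        = (2 * Real.pi * t : ℂ) * (-(I * y / t) * ∫ x : ℝ, g x) := by
      have h6 : (2 * Real.pi * t : ℂ) * (-(I * y / t) * ∫ x : ℝ, g x)
          = -(2 * Real.pi * I * y) * ∫ x : ℝ, g x := by
        field_simp
      rw [h6]
      linear_combination (-1 : ℂ) * hz
    exact mul_left_cancel₀ (by simp [hpi, htc]) h5
  have h7 : (fun x : ℝ => ((√t * x * Real.exp (-Real.pi * (t * x ^ 2)) : ℝ) : ℂ) *
        cexp (-(2 * Real.pi * I * ((y * x : ℝ) : ℂ)))) = fun x : ℝ => (√t : ℂ) * ((x : ℂ) * g x) := by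
    funext x
    rw [hg]
    push_cast
    ring
  rw [h7, integral_const_mul, hm, hE]
  have hst : (√t) ≠ 0 := (Real.sqrt_pos.mpr ht).ne'
  have h8 : (t⁻¹ : ℝ) = (√t)⁻¹ * (√t)⁻¹ := by
    rw [← mul_inv, Real.mul_self_sqrt ht.le]
  have h9 : (I * (y : ℂ) / t) = I * y * ((t⁻¹ : ℝ) : ℂ) := by
    push_cast
    rfl
  rw [h9, Real.sqrt_inv]
  have h10 : ((t⁻¹ : ℝ) : ℂ) = (((√t)⁻¹ * (√t)⁻¹ : ℝ) : ℂ) := by rw [← h8]
  have h11 : ((√t : ℝ) : ℂ) * (((√t)⁻¹ : ℝ) : ℂ) = 1 := by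
    rw [← Complex.ofReal_mul, mul_inv_cancel₀ hst, Complex.ofReal_one]
  rw [h10]
  simp only [Complex.ofReal_mul]
  linear_combination (-(I * y * (((√t)⁻¹ : ℝ) : ℂ) * (((√t)⁻¹ : ℝ) : ℂ) *
    ((Real.exp (-Real.pi * (t⁻¹ * y ^ 2)) : ℝ) : ℂ))) * h11

end H37.HK
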