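import Pool.Agent.H37.HK.Defs

/-!
# GamN: Gamma integrals in exponential coordinates

`gam_one`: substitution `x = exp y` in Euler's integral:
`∫_ℝ exp (z y) exp (-π e^y r) dy = ∫_0^∞ x^{z-1} exp (-π r x) dx = Γ(z) (π r)^{-z}`
(`Complex.integral_cpow_mul_exp_neg_mul_Ioi`; substitution:
`MeasureTheory.integral_image_eq_integral_abs_deriv_smul` for `Real.exp` on `univ`, or
`MeasureTheory.integrableOn_image_iff_integrableOn_abs_deriv_smul`).
`gam_prod`: `MeasureTheory.integral_fintype_prod_volume_eq_prod`,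
`MeasureTheory.Integrable.fintype_prod`.
-/

open NumberField Complex MeasureTheory

namespace H37.HK

private theorem gam_val (z : ℂ) (hz : 0 < z.re) (r : ℝ) (hr : 0 < r) :
    ∫ y : ℝ, cexp (z * y) * (Real.exp (-Real.pi * (Real.exp y * r)) : ℂ) =
      Complex.Gamma z * ((Real.pi * r : ℝ) : ℂ) ^ (-z) := by
  have hpr : 0 < Real.pi * r := mul_pos Real.pi_pos hr
  have h1 := Complex.integral_cpow_mul_exp_neg_mul_Ioi (a := z) (r := Real.pi * r) hz hpr
  have himg : Real.exp '' Set.univ = Set.Ioi 0 := by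
    rw [Set.image_univ, Real.range_exp]
  have h2 := MeasureTheory.integral_image_eq_integral_abs_deriv_smul (s := Set.univ)
    (f := Real.exp) (f' := Real.exp) MeasurableSet.univ
    (fun x _ => (Real.hasDerivAt_exp x).hasDerivWithinAt) (Real.exp_injective.injOn)
    (fun t : ℝ => (t : ℂ) ^ (z - 1) * cexp (-(((Real.pi * r : ℝ) : ℂ) * t)))
  rw [himg, Measure.restrict_univ] at h2
  rw [h2] at h1
  have h3 : ∀ y : ℝ, |Real.exp y| • ((Real.exp y : ℂ) ^ (z - 1) *
      cexp (-(((Real.pi * r : ℝ) : ℂ) * (Real.exp y : ℂ)))) =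
      cexp (z * y) * (Real.exp (-Real.pi * (Real.exp y * r)) : ℂ) := by
    intro y
    rw [abs_of_pos (Real.exp_pos y), Complex.real_smul]
    rw [Complex.cpow_def_of_ne_zero (by exact_mod_cast (Real.exp_pos y).ne')]
    rw [← Complex.ofReal_log (Real.exp_pos y).le, Real.log_exp]
    have e1 : cexp (-(((Real.pi * r : ℝ) : ℂ) * (Real.exp y : ℂ))) =
        (Real.exp (-Real.pi * (Real.exp y * r)) : ℂ) := by
      push_cast
      congr 1
      ring
    rw [e1, ← mul_assoc, Complex.ofReal_exp y, ← Complex.exp_add]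
    congr 2
    ring
  simp_rw [h3] at h1
  rw [h1]
  rw [mul_comm]
  congr 1
  rw [Complex.cpow_neg, one_div, Complex.inv_cpow]
  rw [Complex.arg_ofReal_of_nonneg hpr.le]
  exact Real.pi_pos.ne

theorem gam_one (z : ℂ) (hz : 0 < z.re) (r : ℝ) (hr : 0 < r) :
    Integrable (fun y : ℝ => cexp (z * y) * (Real.exp (-Real.pi * (Real.exp y * r)) : ℂ)) ∧
    ∫ y : ℝ, cexp (z * y) * (Real.exp (-Real.pi * (Real.exp y * r)) : ℂ) =
      Complex.Gamma z * ((Real.pi * r : ℝ) : ℂ) ^ (-z) := by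
  have hv := gam_val z hz r hr
  have hpr : 0 < Real.pi * r := mul_pos Real.pi_pos hr
  refine ⟨?_, hv⟩
  by_contra hni
  rw [integral_undef hni] at hv
  have h0 : Complex.Gamma z * ((Real.pi * r : ℝ) : ℂ) ^ (-z) ≠ 0 := by
    apply mul_ne_zero (Complex.Gamma_ne_zero_of_re_pos hz)
    rw [Complex.cpow_ne_zero_iff]
    left
    exact_mod_cast hpr.ne'
  exact h0 hv.symm

theorem gam_prod {P : Type*} [Fintype P] (z : P → ℂ) (hz : ∀ w, 0 < (z w).re) (r : P → ℝ)
    (hr : ∀ w, 0 < r w) :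
    Integrable (fun y : P → ℝ =>
      ∏ w, (cexp (z w * y w) * (Real.exp (-Real.pi * (Real.exp (y w) * r w)) : ℂ))) ∧
    ∫ y : P → ℝ, ∏ w, (cexp (z w * y w) * (Real.exp (-Real.pi * (Real.exp (y w) * r w)) : ℂ)) =
      ∏ w, (Complex.Gamma (z w) * ((Real.pi * r w : ℝ) : ℂ) ^ (-(z w))) := by
  constructor
  · exact MeasureTheory.Integrable.fintype_prod (μ := fun _ => volume)
      (f := fun w (y : ℝ) =>
        cexp (z w * y) * (Real.exp (-Real.pi * (Real.exp y * r w)) : ℂ))
      (fun w => (gam_one (z w) (hz w) (r w) (hr w)).1)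
  · rw [MeasureTheory.integral_fintype_prod_volume_eq_prod
      (f := fun w (y : ℝ) =>
        cexp (z w * y) * (Real.exp (-Real.pi * (Real.exp y * r w)) : ℂ))]
    refine Finset.prod_congr rfl fun w _ => ?_
    exact (gam_one (z w) (hz w) (r w) (hr w)).2

end H37.HK
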