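import Pool.Agent.H37.HK.Defs

/-!
# GaussSum: summability of Gaussians over affine lattices

`gauss_sum`: `∑_{m ∈ ℤ^J} exp (-c |m|²) < ∞` for `c > 0`.
Proof: finite sums are bounded by sums over boxes, which are products of one dimensional sums.

`sq_lower`: for an invertible matrix `B` and any `b` there are `δ > 0` and `D` with
`∑_j (B m + b)_j² ≥ δ ∑_j m_j² - D` for all real vectors `m`.

`gauss_affine`: hence `∑_m exp (-c |B m + b|²) < ∞`.
-/

open NumberField Complex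

namespace H37.HK

variable {J : Type*} [Fintype J] [DecidableEq J]

private theorem gauss_one (c : ℝ) (hc : 0 < c) :
    Summable fun x : ℤ => Real.exp (-c * (x : ℝ) ^ 2) := by
  have key : Summable fun n : ℕ => Real.exp (-c * (n : ℝ) ^ 2) := by
    have h1 : Summable fun n : ℕ => Real.exp ((n : ℝ) * (-c)) :=
      Real.summable_exp_nat_mul_iff.mpr (by linarith)
    refine Summable.of_nonneg_of_le (fun n => (Real.exp_pos _).le) (fun n => ?_) h1
    apply Real.exp_le_exp.mpr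
    have h2 : (n : ℝ) ≤ (n : ℝ) ^ 2 := by
      rcases Nat.eq_zero_or_pos n with h | h
      · subst h; simp
      · have : (1 : ℝ) ≤ n := by exact_mod_cast h
        nlinarith
    nlinarith
  apply Summable.of_nat_of_neg
  · simpa using key
  · simpa using key

theorem gauss_sum (c : ℝ) (hc : 0 < c) :
    Summable fun m : J → ℤ => Real.exp (-c * ∑ j, (m j : ℝ) ^ 2) := by
  have hg := gauss_one c hc
  set g : ℤ → ℝ := fun x => Real.exp (-c * (x : ℝ) ^ 2) with hgdef
  have hfac : ∀ m : J → ℤ, Real.exp (-c * ∑ j, (m j : ℝ) ^ 2) = ∏ j, g (m j) := by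
    intro m
    rw [Finset.mul_sum, Real.exp_sum]
  have hgpos : ∀ x, 0 ≤ g x := fun x => (Real.exp_pos _).le
  refine summable_of_sum_le (c := ∏ _j : J, ∑' x, g x) (fun m => (Real.exp_pos _).le) ?_
  intro u
  calc ∑ m ∈ u, Real.exp (-c * ∑ j, (m j : ℝ) ^ 2)
      = ∑ m ∈ u, ∏ j, g (m j) := Finset.sum_congr rfl (fun m _ => hfac m)
    _ ≤ ∑ m ∈ Fintype.piFinset (fun j => u.image (fun m : J → ℤ => m j)), ∏ j, g (m j) := by
        apply Finset.sum_le_sum_of_subset_of_nonneg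
        · intro m hm
          rw [Fintype.mem_piFinset]
          intro j
          exact Finset.mem_image_of_mem _ hm
        · intro m _ _
          exact Finset.prod_nonneg (fun j _ => hgpos _)
    _ = ∏ j, ∑ x ∈ u.image (fun m : J → ℤ => m j), g x := by
        rw [Finset.prod_univ_sum]
    _ ≤ ∏ _j : J, ∑' x, g x := by
        apply Finset.prod_le_prod
        · intro j _
          exact Finset.sum_nonneg (fun x _ => hgpos x)
        · intro j _
          exact hg.sum_le_tsum _ (fun x _ => hgpos x)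

theorem sq_lower (B : Matrix J J ℝ) (hB : IsUnit B.det) (b : J → ℝ) :
    ∃ δ D : ℝ, 0 < δ ∧ ∀ v : J → ℝ, δ * ∑ j, v j ^ 2 - D ≤ ∑ j, (B.mulVec v + b) j ^ 2 := by
  set K : ℝ := ∑ j, ∑ i, (B⁻¹ j i) ^ 2 with hK
  have hK0 : 0 ≤ K := Finset.sum_nonneg (fun j _ => Finset.sum_nonneg (fun i _ => sq_nonneg _))
  refine ⟨1 / (2 * (K + 1)), ∑ j, b j ^ 2, by positivity, ?_⟩
  intro v
  set w : J → ℝ := B.mulVec v + b with hw
  have hv : v = B⁻¹.mulVec (w - b) := by
    rw [hw, add_sub_cancel_right, Matrix.mulVec_mulVec, Matrix.nonsing_inv_mul _ hB,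
      Matrix.one_mulVec]
  have h1 : ∑ j, v j ^ 2 ≤ K * ∑ i, (w i - b i) ^ 2 := by
    rw [hK, Finset.sum_mul]
    apply Finset.sum_le_sum
    intro j _
    have : v j = ∑ i, B⁻¹ j i * (w i - b i) := by
      conv_lhs => rw [hv]
      simp [Matrix.mulVec, dotProduct]
    rw [this]
    exact Finset.sum_mul_sq_le_sq_mul_sq _ _ _
  have h2 : ∑ i, (w i - b i) ^ 2 ≤ 2 * (∑ i, w i ^ 2 + ∑ i, b i ^ 2) := by
    rw [← Finset.sum_add_distrib, Finset.mul_sum]
    apply Finset.sum_le_sum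
    intro i _
    nlinarith [sq_nonneg (w i + b i)]
  have hW : 0 ≤ ∑ i, w i ^ 2 := Finset.sum_nonneg (fun i _ => sq_nonneg _)
  have hBb : 0 ≤ ∑ i, b i ^ 2 := Finset.sum_nonneg (fun i _ => sq_nonneg _)
  have h3 : ∑ j, v j ^ 2 ≤ (2 * (K + 1)) * (∑ i, w i ^ 2 + ∑ i, b i ^ 2) := by
    calc ∑ j, v j ^ 2 ≤ K * ∑ i, (w i - b i) ^ 2 := h1
      _ ≤ K * (2 * (∑ i, w i ^ 2 + ∑ i, b i ^ 2)) := mul_le_mul_of_nonneg_left h2 hK0
      _ ≤ (2 * (K + 1)) * (∑ i, w i ^ 2 + ∑ i, b i ^ 2) := by nlinarith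
  have h4 : 1 / (2 * (K + 1)) * ∑ j, v j ^ 2 ≤ ∑ i, w i ^ 2 + ∑ i, b i ^ 2 := by
    rw [one_div, inv_mul_le_iff₀ (by positivity)]
    exact h3
  linarith

theorem gauss_affine (B : Matrix J J ℝ) (hB : IsUnit B.det) (b : J → ℝ) (c : ℝ) (hc : 0 < c) :
    Summable fun m : J → ℤ => Real.exp (-c * ∑ j, (B.mulVec (icast m) + b) j ^ 2) := by
  obtain ⟨δ, D, hδ, h⟩ := sq_lower B hB b
  have h1 := (gauss_sum (J := J) (c * δ) (by positivity)).mul_left (Real.exp (c * D))
  refine Summable.of_nonneg_of_le (fun m => (Real.exp_pos _).le) (fun m => ?_) h1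
  rw [← Real.exp_add]
  apply Real.exp_le_exp.mpr
  have h2 := h (icast m)
  have h3 := mul_le_mul_of_nonneg_left h2 hc.le
  simp only [icast] at h3 ⊢
  nlinarith

end H37.HK
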