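import Mathlib

/-!
# Interface of part B (MP_d2121a_nt, unconditional Artin package)

`IsReps`, `sgnS`, `gammaF` and the summability hypothesis of the theorem `core`.
-/

open NumberField Complex

namespace H37.HK

variable {F : Type*} [Field F] [NumberField F]

/-- `R` is a system of representatives, modulo multiplication by the elements of `U`, of the
nonzero elements of the coset `a0 + Lam`. -/
structure IsReps (Lam : Ideal (𝓞 F)) (a0 : 𝓞 F) (U : Subgroup (𝓞 F)ˣ) (R : Set (𝓞 F)) : Prop where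
  sub : ∀ x ∈ R, x ≠ 0 ∧ x - a0 ∈ Lam
  exu : ∀ x : 𝓞 F, x ≠ 0 → x - a0 ∈ Lam →
    ∃! p : R × U, ((p.2 : (𝓞 F)ˣ) : 𝓞 F) * (p.1 : 𝓞 F) = x

/-- Product of the signs of `x` under the real embeddings in `S`. -/
noncomputable def sgnS (S : Finset (F →+* ℝ)) (x : 𝓞 F) : ℂ :=
  ∏ σ ∈ S, ((SignType.sign (σ (x : F)) : ℤ) : ℂ)

variable (F) in
/-- The Gamma factor. -/
noncomputable def gammaF (S : Finset (F →+* ℝ)) (s : ℂ) : ℂ :=
  Gammaℝ s ^ (InfinitePlace.nrRealPlaces F - S.card) * Gammaℝ (s + 1) ^ S.card *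
    Gammaℝ (2 * s) ^ InfinitePlace.nrComplexPlaces F

/-- Absolute value of the norm of an integer, as a real number. -/
noncomputable def nrm (x : 𝓞 F) : ℝ := |((Algebra.norm ℤ x : ℤ) : ℝ)|

end H37.HK
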