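import Pool.Agent.H37.HK.Defs

/-!
# Lat: the lattice of an ideal

`Lam ≠ ⊥` is a free `ℤ`-module of rank `n`; a `ℤ`-basis, reindexed by `index F` (cardinality
`finrank ℚ F`), gives `e : (index F → ℤ) ≃ Lam` and the matrix `B` whose columns are
`emb (basis element)`; `emb` is additive (`stdBasis.repr` and `mixedEmbedding` are additive), so
`emb (e m) = B m`.  The determinant: `B = B₀ · P`, `B₀` the matrix of a basis of `𝓞 F`, `P` the
integral matrix of a basis of `Lam`, `|det P| = absNorm Lam` (`Ideal.natAbs_det_basis_change`), and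
`cL = |det B₀|`, nonzero because `mixedEmbedding.latticeBasis` is an `ℝ`-basis.
-/

open NumberField Complex Module

namespace H37.HK

variable {F : Type*} [Field F] [NumberField F]

theorem emb_add (x y : F) : emb (x + y) = emb x + emb y := by
  funext j
  simp [emb, map_add]

theorem emb_eq_zero (x : F) : emb x = 0 ↔ x = 0 := by
  constructor
  · intro h
    have h1 : (mixedEmbedding.stdBasis F).repr (mixedEmbedding F x) = 0 := by
      ext j
      exact congrFun h j
    have h2 : mixedEmbedding F x = 0 := by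
      simpa using h1
    exact (map_eq_zero _).mp h2
  · rintro rfl
    funext j
    simp [emb]

variable (F) in
open scoped Classical in
theorem lat : ∃ cL : ℝ, 0 < cL ∧ ∀ Lam : Ideal (𝓞 F), Lam ≠ ⊥ →
    ∃ B : Matrix (mixedEmbedding.index F) (mixedEmbedding.index F) ℝ, IsUnit B.det ∧
      |B.det| = (Ideal.absNorm Lam : ℝ) * cL ∧
      ∃ e : (mixedEmbedding.index F → ℤ) ≃ Lam,
        ∀ m, emb (((e m : Lam) : 𝓞 F) : F) = B.mulVec (icast m) := by
  set e0 : mixedEmbedding.index F ≃ Free.ChooseBasisIndex ℤ (𝓞 F) :=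
    (mixedEmbedding.stdBasis F).indexEquiv (mixedEmbedding.latticeBasis F) with he0
  set L : Basis (mixedEmbedding.index F) ℝ (mixedEmbedding.mixedSpace F) :=
    (mixedEmbedding.latticeBasis F).reindex e0.symm with hL
  set b : Basis (mixedEmbedding.index F) ℤ (𝓞 F) :=
    (RingOfIntegers.basis F).reindex e0.symm with hb
  set B0 : Matrix (mixedEmbedding.index F) (mixedEmbedding.index F) ℝ :=
    (mixedEmbedding.stdBasis F).toMatrix L with hB0
  have hunit : IsUnit B0.det := by
    have h1 := Basis.toMatrix_mul_toMatrix_flip (mixedEmbedding.stdBasis F) L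
    exact Matrix.isUnit_det_of_right_inverse h1
  have hemb : ∀ x : 𝓞 F, emb (x : F) = B0.mulVec (icast (fun i => b.repr x i)) := by
    intro x
    have h1 := Basis.toMatrix_mulVec_repr L (mixedEmbedding.stdBasis F) (mixedEmbedding F (x : F))
    have h2 : ⇑(L.repr (mixedEmbedding F (x : F))) = icast (fun i => b.repr x i) := by
      funext i
      simp only [hL, hb, icast, Basis.repr_reindex_apply, Equiv.symm_symm]
      rw [mixedEmbedding.latticeBasis_repr_apply, integralBasis_repr_apply]
      simp
    rw [← h2, h1]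
    rfl
  refine ⟨|B0.det|, abs_pos.mpr hunit.ne_zero, fun Lam hLam => ?_⟩
  set bI : Basis (mixedEmbedding.index F) ℤ Lam := Ideal.selfBasis b Lam hLam with hbI
  set P : Matrix (mixedEmbedding.index F) (mixedEmbedding.index F) ℤ :=
    b.toMatrix ((↑) ∘ bI) with hP
  have hdetP : P.det.natAbs = Ideal.absNorm Lam := by
    have := Ideal.natAbs_det_basis_change b Lam bI
    rw [← this, Basis.det_apply]
  have hdetP0 : P.det ≠ 0 := by
    intro h
    rw [h] at hdetP
    simp only [Int.natAbs_zero] at hdetP
    exact hLam (Ideal.absNorm_eq_zero_iff.mp hdetP.symm)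
  have hdetR : (P.map (Int.cast : ℤ → ℝ)).det = (P.det : ℝ) := by
    have := (Int.castRingHom ℝ).map_det P
    rw [RingHom.mapMatrix_apply] at this
    exact this.symm
  refine ⟨B0 * P.map (Int.cast : ℤ → ℝ), ?_, ?_, ?_⟩
  · rw [Matrix.det_mul, hdetR]
    exact hunit.mul (isUnit_iff_ne_zero.mpr (by exact_mod_cast hdetP0))
  · rw [Matrix.det_mul, hdetR, abs_mul, mul_comm]
    congr 1
    rw [← hdetP]
    rw [← Int.cast_abs, Int.abs_eq_natAbs]
    simp
  · refine ⟨bI.equivFun.symm.toEquiv, fun m => ?_⟩
    rw [hemb, ← Matrix.mulVec_mulVec]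
    congr 1
    funext i
    have h1 : b.repr (((bI.equivFun.symm m : Lam) : 𝓞 F)) i = (P.mulVec m) i := by
      rw [Basis.equivFun_symm_apply]
      rw [AddSubmonoidClass.coe_finsetSum, map_sum, Finsupp.finsetSum_apply]
      simp only [Matrix.mulVec, dotProduct, hP, Basis.toMatrix_apply, Function.comp]
      refine Finset.sum_congr rfl fun j _ => ?_
      have h2 : (((m j • bI j : Lam) : 𝓞 F)) = m j • ((bI j : Lam) : 𝓞 F) := by
        simp
      rw [h2, map_zsmul, Finsupp.smul_apply, smul_eq_mul, mul_comm]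
    simp only [icast, Matrix.mulVec, dotProduct, Matrix.map_apply]
    change ((b.repr (((bI.equivFun.symm m : Lam) : 𝓞 F)) i : ℤ) : ℝ) = _
    rw [h1]
    simp [Matrix.mulVec, dotProduct]

end H37.HK
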