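import Pool.Agent.H37.HK.TauP

/-!
# LogDom: a fundamental domain for the logarithms of a subgroup of finite index

`lgU U` = image of `U` under the logarithmic embedding.  It is contained in the unit lattice
(discrete) and contains `N • unitLattice`, `N` the index (every `u^N ∈ U` for a multiple `N` of the
index: `Subgroup.exists_pow_mem_of_index_ne_zero` or `pow_mem` in the quotient group, the group is
commutative), so it spans `logSpace F` (`unitLattice_span_eq_top`).  Hence it is a `ℤ`-lattice
(`AddSubgroup.toIntSubmodule`, `DiscreteTopology` from the inclusion, `IsZLattice`); take a basis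
`b` (`IsZLattice`'s `Module.Free.chooseBasis` and `Basis.ofZLatticeBasis`) and
`T = ZSpan.fundamentalDomain b`: bounded (`ZSpan.fundamentalDomain_isBounded`), measurable
(`ZSpan.fundamentalDomain_measurableSet`), fundamental domain (`ZSpan.isAddFundamentalDomain`,
for `Submodule.span ℤ (Set.range b) = lgU U`), positive finite volume
(`ZSpan.measure_fundamentalDomain_ne_zero`, boundedness).
-/

open NumberField Complex Units Units.dirichletUnitTheorem MeasureTheory Module

open scoped Classical

namespace H37.HK

variable {F : Type*} [Field F] [NumberField F]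

/-- The image of a group of units in logarithmic space. -/
noncomputable def lgU (U : Subgroup (𝓞 F)ˣ) : AddSubgroup (logSpace F) :=
  AddSubgroup.map (logEmbedding F) (Subgroup.toAddSubgroup U)

theorem log_dom (U : Subgroup (𝓞 F)ˣ) (hfin : U.FiniteIndex) :
    ∃ T : Set (logSpace F), MeasurableSet T ∧ Bornology.IsBounded T ∧ 0 < (volume T).toReal ∧
      IsAddFundamentalDomain (lgU U) T volume := by
  let L : Submodule ℤ (logSpace F) := AddSubgroup.toIntSubmodule (lgU U)
  have hLsub : (L : Set (logSpace F)) ⊆ (unitLattice F : Set (logSpace F)) := by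
    rintro x ⟨u, -, rfl⟩
    exact ⟨u, trivial, rfl⟩
  have hdisc : DiscreteTopology L := by
    have hc : Continuous (Set.inclusion hLsub) := continuous_inclusion hLsub
    have hd : DiscreteTopology (unitLattice F : Set (logSpace F)) :=
      instDiscrete_unitLattice F
    exact DiscreteTopology.of_continuous_injective hc (Set.inclusion_injective hLsub)
  have hlat : IsZLattice ℝ L := by
    refine ⟨?_⟩
    rw [eq_top_iff, ← unitLattice_span_eq_top F, Submodule.span_le]
    rintro x ⟨u, -, rfl⟩
    obtain ⟨n, hn0, hn⟩ : ∃ n : ℕ, n ≠ 0 ∧ ∀ v : (𝓞 F)ˣ, v ^ n ∈ U := by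
      have := hfin
      refine ⟨U.index, hfin.index_ne_zero, fun v => ?_⟩
      have := U.pow_index_mem v
      exact this
    have hmem : (n : ℝ) • (logEmbedding F u) ∈ Submodule.span ℝ (L : Set (logSpace F)) := by
      refine Submodule.subset_span ?_
      refine ⟨Additive.ofMul (u.toMul ^ n), hn _, ?_⟩
      have h1 : Additive.ofMul (u.toMul ^ n) = n • u := by
        rw [ofMul_pow]
        rfl
      rw [h1, map_nsmul, Nat.cast_smul_eq_nsmul ℝ]
    have h2 := Submodule.smul_mem (Submodule.span ℝ (L : Set (logSpace F))) ((n : ℝ)⁻¹) hmem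
    rw [smul_smul, inv_mul_cancel₀ (by exact_mod_cast hn0), one_smul] at h2
    exact h2
  have : Module.Finite ℤ L := ZLattice.module_finite ℝ L
  have : Module.Free ℤ L := ZLattice.module_free ℝ L
  let b₀ := Module.Free.chooseBasis ℤ L
  let b := b₀.ofZLatticeBasis ℝ L
  have hspan : (Submodule.span ℤ (Set.range b)).toAddSubgroup = lgU U := by
    have h := b₀.ofZLatticeBasis_span ℝ
    have h3 : Submodule.span ℤ (Set.range b) = L := h
    rw [h3]
    rfl
  refine ⟨ZSpan.fundamentalDomain b, ZSpan.fundamentalDomain_measurableSet b,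
    ZSpan.fundamentalDomain_isBounded b, ?_, ?_⟩
  · refine ENNReal.toReal_pos (ZSpan.measure_fundamentalDomain_ne_zero b) ?_
    exact (ZSpan.fundamentalDomain_isBounded b).measure_lt_top.ne
  · have h4 := ZSpan.isAddFundamentalDomain' b (volume : Measure (logSpace F))
    rw [hspan] at h4
    exact h4

end H37.HK
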