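import Pool.Agent.H37.HK.Avg
import Pool.Agent.H37.HK.AvgFE

/-!
# Pair: the weak FE-pair and its consequence (PROVED from Avg and AvgFE)
-/

open NumberField Complex MeasureTheory Filter Asymptotics

namespace H37.HK

variable {J : Type*} [Fintype J] [DecidableEq J] {κ : Type*} [Fintype κ]

theorem phase_norm (B : Matrix J J ℝ) (b : J → ℝ) (k : J → ℤ) : ‖phase B b k‖ ≤ 1 := by
  rw [phase, show (2 * Real.pi * I * ((icast k ⬝ᵥ (B⁻¹.mulVec b) : ℝ) : ℂ)) =
    ((2 * Real.pi * (icast k ⬝ᵥ (B⁻¹.mulVec b)) : ℝ) : ℂ) * I by push_cast; ring]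
  rw [Complex.norm_exp_ofReal_mul_I]

/-- The weak FE-pair of the averaged theta functions. -/
noncomputable def pair [Nonempty J] (D : TD J κ) (S : Finset J) (B : Matrix J J ℝ)
    (hB : IsUnit B.det) (b : J → ℝ) : WeakFEPair ℂ where
  f := avg D (fun _ => 1) S B b
  g := avg D.inv (phase B b) S (B⁻¹).transpose 0
  k := (Fintype.card J : ℝ) / 2
  ε := (-I) ^ S.card * ((|B.det|⁻¹ : ℝ) : ℂ)
  f₀ := avg0 D (fun _ => 1) S B b
  g₀ := avg0 D.inv (phase B b) S (B⁻¹).transpose 0
  hf_int := (avg_contOn D _ (by simp) S B hB b).locallyIntegrableOn measurableSet_Ioi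
  hg_int := (avg_contOn D.inv _ (phase_norm B b) S _
    (by rw [Matrix.det_transpose]; exact (Matrix.isUnit_nonsing_inv_det_iff).mpr hB) 0).locallyIntegrableOn
      measurableSet_Ioi
  hk := by
    have : 0 < Fintype.card J := Fintype.card_pos
    positivity
  hε := by
    refine mul_ne_zero (pow_ne_zero _ (by simp)) ?_
    have : |B.det| ≠ 0 := abs_ne_zero.mpr hB.ne_zero
    exact_mod_cast inv_ne_zero this
  h_feq := fun x hx => by
    rw [smul_eq_mul]
    exact avg_fe D S B hB b x hx
  hf_top := fun r => avg_decay D _ (by simp) S B hB b r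
  hg_top := fun r => avg_decay D.inv _ (phase_norm B b) S _
    (by rw [Matrix.det_transpose]; exact (Matrix.isUnit_nonsing_inv_det_iff).mpr hB) 0 r

theorem th0_dual (S : Finset J) (B : Matrix J J ℝ) (hB : IsUnit B.det) (b : J → ℝ) :
    th0 (phase B b) S (B⁻¹).transpose 0 = if S = ∅ then 1 else 0 := by
  unfold th0
  split_ifs with h
  · have hB' : IsUnit (B⁻¹).transpose.det := by
      rw [Matrix.det_transpose]; exact (Matrix.isUnit_nonsing_inv_det_iff).mpr hB
    have key : ∀ m : J → ℤ, (B⁻¹).transpose.mulVec (icast m) + 0 = 0 ↔ m = 0 := by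
      intro m
      rw [add_zero]
      constructor
      · intro hm
        have h2 : icast m = 0 := by
          have := congrArg ((B⁻¹).transpose⁻¹.mulVec) hm
          rw [Matrix.mulVec_mulVec, Matrix.nonsing_inv_mul _ hB', Matrix.one_mulVec,
            Matrix.mulVec_zero] at this
          exact this
        ext j
        have := congrFun h2 j
        simpa [icast] using this
      · rintro rfl
        have : icast (0 : J → ℤ) = 0 := by ext j; simp [icast]
        rw [this, Matrix.mulVec_zero]
    rw [tsum_eq_single 0]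
    · rw [if_pos ((key 0).mpr rfl)]
      have : icast (0 : J → ℤ) = 0 := by ext j; simp [icast]
      simp [phase, this]
    · intro m hm
      rw [if_neg]
      rwa [key]
  · rfl

/-- The consequence used in the rest of the proof: `P` is the entire function `Λ₀`. -/
theorem pair_out [Nonempty J] (D : TD J κ) (S : Finset J) (B : Matrix J J ℝ)
    (hB : IsUnit B.det) (b : J → ℝ) :
    ∃ (P : ℂ → ℂ), Differentiable ℂ P ∧ ∀ s : ℂ, (Fintype.card J : ℝ) / 2 < s.re →
      MellinConvergent (fun x => avg D (fun _ => 1) S B b x - avg0 D (fun _ => 1) S B b) s ∧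
      mellin (fun x => avg D (fun _ => 1) S B b x - avg0 D (fun _ => 1) S B b) s =
        P s - avg0 D (fun _ => 1) S B b / s +
          (if S = ∅ then ((|B.det|⁻¹ * (volume D.T).toReal : ℝ) : ℂ) else 0) /
            (s - (Fintype.card J : ℂ) / 2) := by
  refine ⟨(pair D S B hB b).Λ₀, (pair D S B hB b).differentiable_Λ₀, fun s hs => ?_⟩
  have h := (pair D S B hB b).hasMellin (s := s) hs
  refine ⟨h.1, ?_⟩
  have h2 := h.2
  change mellin (fun x => (pair D S B hB b).f x - (pair D S B hB b).f₀) s = _ 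
  rw [h2, WeakFEPair.Λ]
  have e1 : (pair D S B hB b).f₀ = avg0 D (fun _ => 1) S B b := rfl
  have e2 : (pair D S B hB b).g₀ = if S = ∅ then ((volume D.T).toReal : ℂ) else 0 := by
    change avg0 D.inv (phase B b) S (B⁻¹).transpose 0 = _
    rw [avg0, th0_dual S B hB b]
    have : D.inv.T = D.T := rfl
    rw [this]
    split_ifs <;> simp
  have e3 : (pair D S B hB b).ε = (-I) ^ S.card * ((|B.det|⁻¹ : ℝ) : ℂ) := rfl
  have e4 : ((pair D S B hB b).k : ℂ) = (Fintype.card J : ℂ) / 2 := by
    change ((((Fintype.card J : ℝ) / 2 : ℝ)) : ℂ) = _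
    push_cast; ring
  rw [e1, e2, e3, e4]
  have hne : s - (Fintype.card J : ℂ) / 2 ≠ 0 := by
    intro h0
    have := congrArg Complex.re h0
    simp only [sub_re, zero_re] at this
    have h3 : ((Fintype.card J : ℂ) / 2).re = (Fintype.card J : ℝ) / 2 := by
      rw [show ((Fintype.card J : ℂ) / 2) = (((Fintype.card J : ℝ) / 2 : ℝ) : ℂ) by push_cast; ring]
      rw [ofReal_re]
    rw [h3] at this
    linarith
  have hne' : (Fintype.card J : ℂ) / 2 - s ≠ 0 := by
    intro h0; apply hne; rw [← neg_sub, h0, neg_zero]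
  split_ifs with hS
  · subst hS
    simp only [Finset.card_empty, pow_zero, one_mul, smul_eq_mul]
    rw [show (Fintype.card J : ℂ) / 2 - s = -(s - (Fintype.card J : ℂ) / 2) by ring, div_neg]
    push_cast
    ring
  · simp only [smul_eq_mul, mul_zero, sub_zero, zero_div, add_zero]
    ring

end H37.HK
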