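import Pool.Agent.H37.HK.PoisB

/-!
# Pois: Poisson summation on `ℤ^J`

Proof: `periodisation`, `coeff` and `UnitAddTorus.hasSum_mFourier_series_apply_of_summable`
evaluated at the point `0` of the torus (`mFourier k 0 = 1`).
-/

open NumberField Complex MeasureTheory

namespace H37.HK

variable {J : Type*} [Fintype J] [DecidableEq J]

theorem poisson (f : (J → ℝ) → ℂ) (hf : Continuous f) (C c : ℝ) (hc : 0 < c)
    (hb : ∀ x, ‖f x‖ ≤ C * Real.exp (-c * ∑ j, x j ^ 2))
    (hF : Summable fun k : J → ℤ => ∫ x, f x * en (icast k) x) :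
    ∑' m : J → ℤ, f (icast m) = ∑' k : J → ℤ, ∫ x, f x * en (icast k) x := by
  obtain ⟨G, hG⟩ := periodisation f hf C c hc hb
  have hco : ∀ k, UnitAddTorus.mFourierCoeff G k = ∫ x, f x * en (icast k) x :=
    coeff f hf C c hc hb G hG
  have hsum : Summable (UnitAddTorus.mFourierCoeff G) := by
    rw [show UnitAddTorus.mFourierCoeff G = fun k : J → ℤ => ∫ x, f x * en (icast k) x from
      funext hco]
    exact hF
  have h := UnitAddTorus.hasSum_mFourier_series_apply_of_summable hsum
    (fun _ => ((0 : ℝ) : UnitAddCircle))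
  have h0 : G (fun _ => ((0 : ℝ) : UnitAddCircle)) = ∑' m : J → ℤ, f (icast m) := by
    have h1 := hG 0
    simp only [Pi.zero_apply, zero_add] at h1
    exact h1
  have h1 : ∀ k : J → ℤ,
      UnitAddTorus.mFourier k (fun _ => ((0 : ℝ) : UnitAddCircle)) = 1 := by
    intro k
    simp [UnitAddTorus.mFourier]
  rw [← h0, ← h.tsum_eq]
  apply tsum_congr
  intro k
  rw [h1 k, hco k]
  simp

end H37.HK
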