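import Pool.Agent.H37.HK.GaussSum

/-!
# PoisA: periodisation as a continuous function on the torus

`shift_summable`: a function bounded by a Gaussian is summable over all integer translates, and
`shift_cont`: the periodisation `x ↦ ∑_m f (x + m)` is continuous on `ℝ^J`.
Proof: for `|x_j| ≤ R` one has `(x_j + m_j)² ≥ m_j²/2 - R²`, so the terms are bounded by
`C exp (c (card J) R²) exp (-(c/2) ∑ m_j²)` (`gauss_sum`); `continuousOn_tsum` on boxes or
`continuous_tsum` locally (`continuous_iff_continuousAt`, a ball around the point).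
(`C ≥ 0` because `0 ≤ ‖f 0‖ ≤ C`.)

`periodisation`: it descends to a continuous function on `UnitAddTorus J = J → UnitAddCircle`:
the map `x ↦ (fun j => (x j : UnitAddCircle))` is an open quotient map
(`IsOpenQuotientMap.piMap`, `QuotientAddGroup.isOpenQuotientMap_mk`), it identifies `x` and `y` iff
`y - x` is an integer vector, and the series is invariant (`Equiv.addRight` on `J → ℤ`).
Use `Topology.IsQuotientMap.lift` or define `G` by a set theoretic section and use
`IsQuotientMap.continuous_iff`.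
-/

open NumberField Complex

namespace H37.HK

variable {J : Type*} [Fintype J] [DecidableEq J]

private theorem PoisA_term (f : (J → ℝ) → ℂ) (C c : ℝ) (hc : 0 < c)
    (hb : ∀ x, ‖f x‖ ≤ C * Real.exp (-c * ∑ j, x j ^ 2)) (R : ℝ) (hR : 0 ≤ R) (x : J → ℝ)
    (hx : ∀ j, |x j| ≤ R) (m : J → ℤ) :
    ‖f (x + icast m)‖ ≤
      C * Real.exp (c * (Fintype.card J * R ^ 2)) * Real.exp (-(c / 2) * ∑ j, (m j : ℝ) ^ 2) := by
  have hC : 0 ≤ C := by
    have h := (norm_nonneg _).trans (hb 0)
    exact nonneg_of_mul_nonneg_left h (Real.exp_pos _)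
  refine (hb _).trans ?_
  rw [mul_assoc, ← Real.exp_add]
  refine mul_le_mul_of_nonneg_left (Real.exp_le_exp.mpr ?_) hC
  have h1 : ∀ j, (m j : ℝ) ^ 2 / 2 - R ^ 2 ≤ (x + icast m) j ^ 2 := by
    intro j
    have h2 : x j ^ 2 ≤ R ^ 2 := by
      have := abs_le.mp (hx j)
      nlinarith
    have h3 : (x + icast m) j = x j + m j := rfl
    rw [h3]
    nlinarith [sq_nonneg (2 * x j + (m j : ℝ))]
  have h4 : ∑ j, ((m j : ℝ) ^ 2 / 2 - R ^ 2) ≤ ∑ j, (x + icast m) j ^ 2 :=
    Finset.sum_le_sum (fun j _ => h1 j)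
  rw [Finset.sum_sub_distrib, ← Finset.sum_div, Finset.sum_const, nsmul_eq_mul,
    Finset.card_univ] at h4
  nlinarith

theorem shift_summable (f : (J → ℝ) → ℂ) (C c : ℝ) (hc : 0 < c)
    (hb : ∀ x, ‖f x‖ ≤ C * Real.exp (-c * ∑ j, x j ^ 2)) (x : J → ℝ) :
    Summable fun m : J → ℤ => f (x + icast m) := by
  have hs : Summable fun m : J → ℤ =>
      C * Real.exp (c * (Fintype.card J * (∑ j, |x j|) ^ 2)) *
        Real.exp (-(c / 2) * ∑ j, (m j : ℝ) ^ 2) :=
    (gauss_sum (c / 2) (by linarith)).mul_left _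
  refine Summable.of_norm_bounded hs (fun m => ?_)
  refine PoisA_term f C c hc hb _ (Finset.sum_nonneg (fun j _ => abs_nonneg _)) x (fun j => ?_) m
  exact Finset.single_le_sum (f := fun j => |x j|) (fun j _ => abs_nonneg _) (Finset.mem_univ j)

theorem shift_cont (f : (J → ℝ) → ℂ) (hf : Continuous f) (C c : ℝ) (hc : 0 < c)
    (hb : ∀ x, ‖f x‖ ≤ C * Real.exp (-c * ∑ j, x j ^ 2)) :
    Continuous fun x : J → ℝ => ∑' m : J → ℤ, f (x + icast m) := by
  rw [continuous_iff_continuousAt]
  intro x₀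
  set R : ℝ := ‖x₀‖ + 1 with hR
  have hR0 : 0 ≤ R := by positivity
  have hs : Summable fun m : J → ℤ =>
      C * Real.exp (c * (Fintype.card J * R ^ 2)) *
        Real.exp (-(c / 2) * ∑ j, (m j : ℝ) ^ 2) :=
    (gauss_sum (c / 2) (by linarith)).mul_left _
  have hcont : ContinuousOn (fun x : J → ℝ => ∑' m : J → ℤ, f (x + icast m))
      (Metric.closedBall x₀ 1) := by
    refine continuousOn_tsum (fun m => ?_) hs (fun m x hx => ?_)
    · exact (hf.comp (continuous_id.add continuous_const)).continuousOn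
    · refine PoisA_term f C c hc hb R hR0 x (fun j => ?_) m
      have h1 : ‖x j‖ ≤ ‖x‖ := norm_le_pi_norm x j
      have h2 : ‖x‖ ≤ ‖x₀‖ + 1 := by
        have h3 : ‖x - x₀‖ ≤ 1 := by rw [← dist_eq_norm]; exact hx
        have h4 : ‖x‖ ≤ ‖x₀‖ + ‖x - x₀‖ := by
          have := norm_add_le x₀ (x - x₀)
          rwa [add_sub_cancel] at this
        linarith
      rw [← Real.norm_eq_abs]
      linarith
  exact hcont.continuousAt (Metric.closedBall_mem_nhds x₀ one_pos)

theorem periodisation (f : (J → ℝ) → ℂ) (hf : Continuous f) (C c : ℝ) (hc : 0 < c)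
    (hb : ∀ x, ‖f x‖ ≤ C * Real.exp (-c * ∑ j, x j ^ 2)) :
    ∃ G : C(UnitAddTorus J, ℂ), ∀ x : J → ℝ,
      G (fun j => (x j : UnitAddCircle)) = ∑' m : J → ℤ, f (x + icast m) := by
  set F : (J → ℝ) → ℂ := fun x => ∑' m : J → ℤ, f (x + icast m) with hF
  have hFc : Continuous F := shift_cont f hf C c hc hb
  set π : (J → ℝ) → UnitAddTorus J := fun x j => (x j : UnitAddCircle) with hπ
  have hq : IsOpenQuotientMap π := by
    have : IsOpenQuotientMap (Pi.map (fun (_ : J) (t : ℝ) => (t : UnitAddCircle))) :=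
      IsOpenQuotientMap.piMap (fun _ => QuotientAddGroup.isOpenQuotientMap_mk)
    exact this
  have hinv : ∀ x y : J → ℝ, π x = π y → F x = F y := by
    intro x y hxy
    have h1 : ∀ j, ∃ n : ℤ, y j = x j + n := by
      intro j
      have h2 : ((x j : ℝ) : UnitAddCircle) = ((y j : ℝ) : UnitAddCircle) := congrFun hxy j
      rw [QuotientAddGroup.eq] at h2
      obtain ⟨n, hn⟩ := AddSubgroup.mem_zmultiples_iff.mp h2
      refine ⟨n, ?_⟩
      simp only [zsmul_eq_mul, mul_one] at hn
      linarith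
    choose n hn using h1
    have h3 : y = x + icast n := by
      funext j
      exact hn j
    rw [h3]
    show ∑' m : J → ℤ, f (x + icast m) = ∑' m : J → ℤ, f (x + icast n + icast m)
    rw [← (Equiv.addRight n).tsum_eq (fun m : J → ℤ => f (x + icast m))]
    refine tsum_congr (fun m => ?_)
    congr 1
    funext j
    show x j + ((m j + n j : ℤ) : ℝ) = x j + (n j : ℝ) + (m j : ℝ)
    push_cast
    ring
  refine ⟨⟨fun t => F (Function.surjInv hq.surjective t), ?_⟩, fun x => ?_⟩
  · rw [hq.isQuotientMap.continuous_iff]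
    have : (fun t => F (Function.surjInv hq.surjective t)) ∘ π = F := by
      funext x
      exact hinv _ _ (Function.surjInv_eq hq.surjective (π x))
    rw [this]
    exact hFc
  · exact hinv _ _ (Function.surjInv_eq hq.surjective (π x))

end H37.HK
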