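import Pool.Agent.H37.HK.Defs

/-!
# RealPl: real embeddings and real places

`plR_bij`: `σ ↦ plR σ` is a bijection from real embeddings to real places (inverse
`w ↦ InfinitePlace.embedding_of_isReal w.2`; injectivity: `InfinitePlace.mk_eq_iff`, a real
embedding equals its conjugate; `Complex.ofRealHom.injective`).
`plR_abs`: `(plR σ) x = |σ x|` (`InfinitePlace.apply`, `Complex.norm_real`).
`card_real`: `Fintype.card (F →+* ℝ) = nrRealPlaces F`.
`emb_real`: `emb x (Sum.inl (plR σ)) = σ x` (`mixedEmbedding.stdBasis_apply_isReal`,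
`mixedEmbedding.mixedEmbedding_apply_isReal`).
`emb_sq`: `∑_j t (pl j) (emb x j)² = ∑_w t w (w x)²`: split the sum over `index F` (real part and
complex part); a place is real or complex; for `w` complex `re² + im² = ‖w.embedding x‖² = (w x)²`
(`stdBasis_apply_isComplex_fst/snd`, `InfinitePlace.norm_embedding_eq`, `Complex.sq_norm`,
`Complex.normSq_apply`).
-/

open NumberField Complex

namespace H37.HK

variable {F : Type*} [Field F] [NumberField F]

omit [NumberField F] in
theorem plR_isReal (σ : F →+* ℝ) :
    ComplexEmbedding.IsReal (Complex.ofRealHom.comp σ : F →+* ℂ) := by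
  rw [ComplexEmbedding.isReal_iff]
  ext x
  simp [ComplexEmbedding.conjugate_coe_eq]

omit [NumberField F] in
theorem plR_abs (σ : F →+* ℝ) (x : F) : (plR σ).1 x = |σ x| := by
  show InfinitePlace.mk (Complex.ofRealHom.comp σ) x = |σ x|
  rw [InfinitePlace.apply]
  simp

omit [NumberField F] in
theorem plR_embedding (σ : F →+* ℝ) (x : F) :
    InfinitePlace.embedding_of_isReal (plR σ).2 x = σ x := by
  have h := InfinitePlace.embedding_of_isReal_apply (plR σ).2 x
  have h2 : InfinitePlace.embedding (plR σ).1 = Complex.ofRealHom.comp σ :=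
    InfinitePlace.embedding_mk_eq_of_isReal (plR_isReal σ)
  rw [h2] at h
  exact Complex.ofReal_injective h

theorem plR_bij : Function.Bijective (plR : (F →+* ℝ) → {w : InfinitePlace F // w.IsReal}) := by
  constructor
  · intro σ τ h
    ext x
    rw [← plR_embedding σ x, ← plR_embedding τ x]
    simp only [h]
  · intro w
    refine ⟨InfinitePlace.embedding_of_isReal w.2, ?_⟩
    apply Subtype.ext
    show InfinitePlace.mk (Complex.ofRealHom.comp (InfinitePlace.embedding_of_isReal w.2)) = w.1
    have : Complex.ofRealHom.comp (InfinitePlace.embedding_of_isReal w.2) = w.1.embedding := by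
      ext x
      exact InfinitePlace.embedding_of_isReal_apply w.2 x
    rw [this, InfinitePlace.mk_embedding]

theorem card_real [Fintype (F →+* ℝ)] :
    Fintype.card (F →+* ℝ) = InfinitePlace.nrRealPlaces F := by
  classical
  exact Fintype.card_congr (Equiv.ofBijective _ plR_bij)

theorem card_le (S : Finset (F →+* ℝ)) : S.card ≤ InfinitePlace.nrRealPlaces F := by
  classical
  have : Fintype (F →+* ℝ) := Fintype.ofInjective _ (plR_bij (F := F)).1
  rw [← card_real]
  exact Finset.card_le_univ S

theorem emb_real (σ : F →+* ℝ) (x : F) : emb x (Sum.inl (plR σ)) = σ x := by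
  rw [emb, mixedEmbedding.stdBasis_apply_isReal, mixedEmbedding.mixedEmbedding_apply_isReal,
    plR_embedding]

open scoped Classical in
theorem emb_sq (t : InfinitePlace F → ℝ) (x : F) :
    ∑ j, t (pl j) * (emb x j) ^ 2 = ∑ w : InfinitePlace F, t w * (w x) ^ 2 := by
  have h1 : ∑ w : InfinitePlace F, t w * (w x) ^ 2 =
      ∑ w : {w : InfinitePlace F // w.IsReal}, t w.1 * (w.1 x) ^ 2 +
      ∑ w : {w : InfinitePlace F // w.IsComplex}, t w.1 * (w.1 x) ^ 2 := by
    have e : ∑ w : {w : InfinitePlace F // w.IsComplex}, t w.1 * (w.1 x) ^ 2 =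
        ∑ w : {w : InfinitePlace F // ¬ w.IsReal}, t w.1 * (w.1 x) ^ 2 :=
      (Fintype.sum_equiv (Equiv.subtypeEquivRight
        (fun _ => InfinitePlace.not_isReal_iff_isComplex)) _ _ (fun _ => rfl)).symm
    rw [e]
    exact (Fintype.sum_subtype_add_sum_subtype (fun w : InfinitePlace F => w.IsReal)
      (fun w => t w * (w x) ^ 2)).symm
  rw [h1, Fintype.sum_sum_type]
  congr 1
  · refine Finset.sum_congr rfl fun w _ => ?_
    show t w.1 * (emb x (Sum.inl w)) ^ 2 = _
    rw [emb, mixedEmbedding.stdBasis_apply_isReal, mixedEmbedding.mixedEmbedding_apply_isReal,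
      ← InfinitePlace.norm_embedding_of_isReal w.2, Real.norm_eq_abs, sq_abs]
  · rw [Fintype.sum_prod_type]
    refine Finset.sum_congr rfl fun w _ => ?_
    rw [Fin.sum_univ_two]
    show t w.1 * (emb x (Sum.inr (w, 0))) ^ 2 + t w.1 * (emb x (Sum.inr (w, 1))) ^ 2 = _
    rw [emb, emb, mixedEmbedding.stdBasis_apply_isComplex_fst,
      mixedEmbedding.stdBasis_apply_isComplex_snd, mixedEmbedding.mixedEmbedding_apply_isComplex,
      ← InfinitePlace.norm_embedding_eq, Complex.sq_norm, Complex.normSq_apply]
    ring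

end H37.HK
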