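import Pool.Agent.H37.HK.LogDom

/-!
# UnfoldU: unfolding an integral over `ℝ × logSpace F`

`u ↦ lg u` is a bijection from `U` to `lgU U`: surjective by definition, injective because
`lg u = 0` implies that `u` is torsion (`logEmbedding_eq_zero_iff`, `mem_torsion`/`CommGroup.torsion`
gives `IsOfFinOrder u`), hence `u = 1`.
`Set.univ ×ˢ T` is a.e. partitioned by translations: the sets `{p | p.2 - lg u ∈ T}`, `u ∈ U`, are
a.e. disjoint and cover a.e. (product of the null sets with `ℝ`).  Either: `Integrable g` implies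
(Fubini, `integral_prod`) `∫ g = ∫_ξ ∫_h g (ξ, h) = ∫_ξ ∑_u ∫_T g (ξ, h + lg u)`
(`IsAddFundamentalDomain.integral_eq_tsum''`) and exchange the sum with the integral over `ξ`
(norms: the same identity for `‖g‖`); or build an `IsAddFundamentalDomain` for the action of
`lgU U` on `ℝ × logSpace F` through the second coordinate, or use
`MeasureTheory.hasSum_integral_iUnion_ae` with the sets above and the translation
`p ↦ (p.1, p.2 + lg u)` (measure preserving).
-/

open NumberField Complex Units Units.dirichletUnitTheorem MeasureTheory Module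

open scoped Classical

namespace H37.HK

variable {F : Type*} [Field F] [NumberField F]

private theorem unfoldU_countable : Countable (𝓞 F)ˣ := by
  have e := (Module.Free.chooseBasis ℤ (𝓞 F)).equivFun
  have h1 : Countable (𝓞 F) := e.injective.countable
  exact (Units.val_injective (α := 𝓞 F)).countable

private theorem unfoldU_lg_inj (U : Subgroup (𝓞 F)ˣ) (htf : ∀ u ∈ U, IsOfFinOrder u → u = 1)
    (u v : U) (h : lg (u : (𝓞 F)ˣ) = lg (v : (𝓞 F)ˣ)) : u = v := by
  have h1 : logEmbedding F (Additive.ofMul ((u : (𝓞 F)ˣ) * ((v : (𝓞 F)ˣ))⁻¹)) = 0 := by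
    rw [ofMul_mul, ofMul_inv, map_add, map_neg]
    have h2 : logEmbedding F (Additive.ofMul (u : (𝓞 F)ˣ)) =
      logEmbedding F (Additive.ofMul (v : (𝓞 F)ˣ)) := h
    rw [h2, add_neg_cancel]
  rw [logEmbedding_eq_zero_iff] at h1
  have h3 : IsOfFinOrder ((u : (𝓞 F)ˣ) * ((v : (𝓞 F)ˣ))⁻¹) := h1
  have h4 := htf _ (U.mul_mem u.2 (U.inv_mem v.2)) h3
  exact Subtype.ext (mul_inv_eq_one.mp h4)

open Pointwise Function in
private theorem unfoldU_gen {E : Type*} [NormedAddCommGroup E] [NormedSpace ℝ E]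
    (U : Subgroup (𝓞 F)ˣ) (htf : ∀ u ∈ U, IsOfFinOrder u → u = 1)
    (T : Set (logSpace F)) (hTm : MeasurableSet T) (hT : IsAddFundamentalDomain (lgU U) T volume)
    (g : ℝ × logSpace F → E) (hg : Integrable g) :
    HasSum (fun u : U => ∫ p in (Set.univ : Set ℝ) ×ˢ T, g (p.1, p.2 + lg (u : (𝓞 F)ˣ)))
      (∫ p, g p) := by
  have hcU : Countable (𝓞 F)ˣ := unfoldU_countable
  have hc : Countable U := inferInstance
  -- the element of `lgU U` of a unit
  have hmem : ∀ u : U, lg (u : (𝓞 F)ˣ) ∈ lgU U := by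
    intro u
    exact ⟨Additive.ofMul (u : (𝓞 F)ˣ), u.2, rfl⟩
  let gu : U → lgU U := fun u => ⟨lg (u : (𝓞 F)ˣ), hmem u⟩
  have hginj : Function.Injective gu := by
    intro u v huv
    exact unfoldU_lg_inj U htf u v (congrArg Subtype.val huv)
  have hgsurj : Function.Surjective gu := by
    rintro ⟨x, y, hy, rfl⟩
    exact ⟨⟨Additive.toMul y, hy⟩, rfl⟩
  let s : U → Set (ℝ × logSpace F) := fun u => Prod.snd ⁻¹' ((gu u : lgU U) +ᵥ T)
  have hsm : ∀ u, MeasurableSet (s u) := by
    intro u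
    exact measurable_snd (hTm.const_vadd (gu u))
  have hsd : Pairwise (AEDisjoint (volume : Measure (ℝ × logSpace F)) on s) := by
    intro u v huv
    have h1 : gu u ≠ gu v := fun h => huv (hginj h)
    have h2 := hT.aedisjoint h1
    change volume (s u ∩ s v) = 0
    have h3 : s u ∩ s v = (Set.univ : Set ℝ) ×ˢ ((gu u +ᵥ T) ∩ (gu v +ᵥ T)) := by
      ext p
      simp [s]
    rw [h3, Measure.volume_eq_prod, Measure.prod_prod]
    have h4 : volume ((gu u +ᵥ T) ∩ (gu v +ᵥ T)) = 0 := h2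
    rw [h4, mul_zero]
  have hcov : (⋃ u, s u) =ᵐ[volume] Set.univ := by
    have h1 : ∀ᵐ x : logSpace F, x ∈ ⋃ u, (gu u +ᵥ T) := by
      filter_upwards [hT.ae_covers] with x hx
      obtain ⟨l, hl⟩ := hx
      obtain ⟨u, hu⟩ := hgsurj (-l)
      rw [Set.mem_iUnion]
      refine ⟨u, ?_⟩
      rw [hu]
      rw [Set.mem_vadd_set_iff_neg_vadd_mem, neg_neg]
      exact hl
    have h2 : ∀ᵐ p : ℝ × logSpace F, p.2 ∈ ⋃ u, (gu u +ᵥ T) := by
      rw [Measure.volume_eq_prod]
      exact Measure.quasiMeasurePreserving_snd.ae h1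
    filter_upwards [h2] with p hp
    apply propext
    constructor
    · intro _
      trivial
    · intro _
      obtain ⟨u, hu⟩ := Set.mem_iUnion.mp hp
      exact Set.mem_iUnion.mpr ⟨u, hu⟩
  have hkey := hasSum_integral_iUnion_ae (μ := (volume : Measure (ℝ × logSpace F))) (f := g) (s := s)
    (fun u => (hsm u).nullMeasurableSet) hsd hg.integrableOn
  rw [setIntegral_congr_set hcov, setIntegral_univ] at hkey
  have hfun : (fun u : U => ∫ p in s u, g p) =
      (fun u : U => ∫ p in (Set.univ : Set ℝ) ×ˢ T, g (p.1, p.2 + lg (u : (𝓞 F)ˣ))) := by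
    funext u
    have hri : (volume : Measure (ℝ × logSpace F)).IsAddRightInvariant := by
      rw [Measure.volume_eq_prod]
      infer_instance
    have hmp : MeasurePreserving (fun p : ℝ × logSpace F => p + ((0 : ℝ), lg (u : (𝓞 F)ˣ)))
        volume volume := measurePreserving_add_right volume _
    have hemb : MeasurableEmbedding
        (fun p : ℝ × logSpace F => p + ((0 : ℝ), lg (u : (𝓞 F)ˣ))) :=
      measurableEmbedding_addRight _
    have h1 := hmp.setIntegral_preimage_emb hemb g (s u)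
    have h2 : (fun p : ℝ × logSpace F => p + ((0 : ℝ), lg (u : (𝓞 F)ˣ))) ⁻¹' (s u) =
        (Set.univ : Set ℝ) ×ˢ T := by
      ext p
      simp only [s, Set.mem_preimage, Set.mem_prod, Set.mem_univ, true_and]
      rw [Set.mem_vadd_set_iff_neg_vadd_mem]
      have h3 : -(gu u) +ᵥ (p + ((0 : ℝ), lg (u : (𝓞 F)ˣ))).2 = p.2 := by
        change -(lg (u : (𝓞 F)ˣ)) + (p.2 + lg (u : (𝓞 F)ˣ)) = p.2
        abel
      rw [h3]
    rw [h2] at h1
    rw [← h1]
    apply setIntegral_congr_fun (MeasurableSet.univ.prod hTm)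
    intro p _
    change g (p + ((0 : ℝ), lg (u : (𝓞 F)ˣ))) = g (p.1, p.2 + lg (u : (𝓞 F)ˣ))
    congr 1
    ext1
    · change p.1 + 0 = p.1
      rw [add_zero]
    · rfl
  rw [← hfun]
  exact hkey

theorem unfold_u (U : Subgroup (𝓞 F)ˣ) (htf : ∀ u ∈ U, IsOfFinOrder u → u = 1)
    (T : Set (logSpace F)) (hTm : MeasurableSet T) (hT : IsAddFundamentalDomain (lgU U) T volume)
    (g : ℝ × logSpace F → ℂ) (hg : Integrable g) :
    HasSum (fun u : U => ∫ p in (Set.univ : Set ℝ) ×ˢ T, g (p.1, p.2 + lg (u : (𝓞 F)ˣ)))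
      (∫ p, g p) :=
  unfoldU_gen U htf T hTm hT g hg

theorem unfold_u_norm (U : Subgroup (𝓞 F)ˣ) (htf : ∀ u ∈ U, IsOfFinOrder u → u = 1)
    (T : Set (logSpace F)) (hTm : MeasurableSet T) (hT : IsAddFundamentalDomain (lgU U) T volume)
    (g : ℝ × logSpace F → ℂ) (hg : Integrable g) :
    HasSum (fun u : U => ∫ p in (Set.univ : Set ℝ) ×ˢ T, ‖g (p.1, p.2 + lg (u : (𝓞 F)ˣ))‖)
      (∫ p, ‖g p‖) :=
  unfoldU_gen U htf T hTm hT (fun p => ‖g p‖) hg.norm

end H37.HK
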